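import Pool.Agent.X145.ML.CritK

/-!
Record gaps around all continuants.
-/

set_option autoImplicit false

namespace Pool.Agent.X145.ML

open Finset Pool.Agent.X145.PM

section ring

variable {R : Type} [CommRing R]

/-- the continuant of `x i, x (i+1), …, x (i+L-1)` -/
def cont (x : ℕ → R) (i : ℕ) : ℕ → R
  | 0 => 1
  | 1 => x i
  | L + 2 => x (i + L + 1) * cont x i (L + 1) + cont x i L

theorem cont_left (x : ℕ → R) (i L : ℕ) :
    cont x i (L + 2) = x i * cont x (i + 1) (L + 1) + cont x (i + 2) L := by
  induction L using Nat.strong_induction_on generalizing i with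
  | _ L ih =>
    rcases L with _ | L
    · simp only [cont]
      ring_nf
    · rcases L with _ | L
      · have h1 : i + 1 + 1 = i + 2 := by ring
        simp only [cont, h1, Nat.add_zero, Nat.zero_add, Nat.reduceAdd]
        ring
      · have h1 := ih (L + 1) (by omega) i
        have h2 := ih L (by omega) i
        have e1 : cont x i (L + 1 + 1 + 2) =
          x (i + (L + 1 + 1) + 1) * cont x i (L + 1 + 1 + 1) + cont x i (L + 1 + 1) := rfl
        have e2 : cont x (i + 1) (L + 1 + 1 + 1) =
          x (i + 1 + (L + 1) + 1) * cont x (i + 1) (L + 1 + 1) + cont x (i + 1) (L + 1) := rfl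
        have e3 : cont x (i + 2) (L + 1 + 1) =
          x (i + 2 + L + 1) * cont x (i + 2) (L + 1) + cont x (i + 2) L := rfl
        have i1 : i + 1 + (L + 1) + 1 = i + (L + 1 + 1) + 1 := by ring
        have i2 : i + 2 + L + 1 = i + (L + 1 + 1) + 1 := by ring
        rw [e1, e2, e3, i1, i2]
        rw [show L + 1 + 1 + 1 = L + 1 + 2 by ring, h1, show L + 1 + 1 = L + 2 by ring, h2]
        ring

theorem cont_rev (x : ℕ → R) (N i L : ℕ) (h : i + L ≤ N + 1) :
    cont (fun m => x (N - m)) i L = cont x (N + 1 - i - L) L := by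
  induction L using Nat.strong_induction_on generalizing i with
  | _ L ih =>
    rcases L with _ | L
    · rfl
    · rcases L with _ | L
      · simp only [cont]
        congr 1
        omega
      · have h1 := ih (L + 1) (by omega) i (by omega)
        have h2 := ih L (by omega) i (by omega)
        have e1 : cont (fun m => x (N - m)) i (L + 1 + 1) =
          x (N - (i + L + 1)) * cont (fun m => x (N - m)) i (L + 1) +
            cont (fun m => x (N - m)) i L := rfl
        rw [e1, h1, h2, show L + 1 + 1 = L + 2 by ring, cont_left]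
        have i1 : N - (i + L + 1) = N + 1 - i - (L + 2) := by omega
        have i2 : N + 1 - i - (L + 1) = N + 1 - i - (L + 2) + 1 := by omega
        have i3 : N + 1 - i - L = N + 1 - i - (L + 2) + 2 := by omega
        rw [i1, i2, i3]

theorem cont_congr {x y : ℕ → R} {i L : ℕ} (h : ∀ m, i ≤ m → m < i + L → x m = y m) :
    cont x i L = cont y i L := by
  induction L using Nat.strong_induction_on with
  | _ L ih =>
    rcases L with _ | L
    · rfl
    · rcases L with _ | L
      · exact h i le_rfl (by omega)
      · have h1 := ih (L + 1) (by omega) fun m h1 h2 => h m h1 (by omega)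
        have h2 := ih L (by omega) fun m h1 h2 => h m h1 (by omega)
        simp only [cont]
        rw [h1, h2, h _ (by omega) (by omega)]

theorem cont_map {R' : Type} [CommRing R'] (φ : R →+* R') (x : ℕ → R) (i L : ℕ) :
    φ (cont x i L) = cont (fun m => φ (x m)) i L := by
  induction L using Nat.strong_induction_on with
  | _ L ih =>
    rcases L with _ | L
    · exact map_one φ
    · rcases L with _ | L
      · rfl
      · simp only [cont]
        rw [map_add, map_mul, ih (L + 1) (by omega), ih L (by omega)]

end ring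

/-- extension by zero -/
def ext {k : ℕ} {R : Type} [CommRing R] (x : Fin k → R) (m : ℕ) : R :=
  if h : m < k then x ⟨m, h⟩ else 0

/-- the continuant as a function on `R ^ k` -/
def kk {k : ℕ} (i L : ℕ) (R : Type) [CommRing R] (x : Fin k → R) : R := cont (ext x) i L

theorem kk_nat {k : ℕ} (i L : ℕ) : Natural (kk (k := k) i L) := by
  intro R R' _ _ φ x
  unfold kk
  rw [cont_map]
  congr 1
  funext m
  unfold ext
  split_ifs
  · rfl
  · exact map_zero φ

section count

variable {k p : ℕ} [hp : Fact p.Prime]

/-- averaging over one coordinate -/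
theorem one_coord (m : Fin k) (Q : (Fin k → ZMod p) → Prop) [DecidablePred Q] :
    p * (univ.filter Q).card =
      ∑ A : Fin k → ZMod p, (univ.filter (fun y : ZMod p => Q (Function.update A m y))).card := by
  classical
  simp_rw [Finset.card_filter]
  have h1 : ∀ t : ZMod p, ∑ A : Fin k → ZMod p, (if Q (Function.update A m (A m + t)) then 1 else 0) =
      ∑ A : Fin k → ZMod p, if Q A then 1 else 0 := by
    intro t
    refine Fintype.sum_bijective (fun A => Function.update A m (A m + t)) ?_ _ _ (fun A => rfl)
    rw [Function.bijective_iff_has_inverse]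
    refine ⟨fun A => Function.update A m (A m - t), fun A => ?_, fun A => ?_⟩
    · simp
    · simp
  have h2 : ∀ A : Fin k → ZMod p, (∑ y : ZMod p, if Q (Function.update A m y) then 1 else 0) =
      ∑ t : ZMod p, if Q (Function.update A m (A m + t)) then 1 else 0 := by
    intro A
    exact (Fintype.sum_equiv (Equiv.addLeft (A m)) _ _ (fun t => rfl)).symm
  rw [Finset.sum_congr rfl (fun A _ => h2 A), Finset.sum_comm,
    Finset.sum_congr rfl (fun t _ => h1 t), sum_const, card_univ, ZMod.card, smul_eq_mul]

theorem ext_update {R : Type} [CommRing R] (A : Fin k → R) (m : Fin k) (y : R) {n : ℕ}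
    (h : n ≠ m) : ext (Function.update A m y) n = ext A n := by
  unfold ext
  split_ifs with h1
  · rw [Function.update_of_ne]
    intro h2
    exact h (by rw [← h2])
  · rfl

theorem ext_self {R : Type} [CommRing R] (A : Fin k → R) (m : Fin k) (y : R) :
    ext (Function.update A m y) m = y := by
  unfold ext
  rw [dif_pos m.2]
  simp

theorem kk_update {R : Type} [CommRing R] (A : Fin k → R) (m : Fin k) (y : R) {i L : ℕ}
    (h : (m : ℕ) < i ∨ i + L ≤ m) : kk i L R (Function.update A m y) = kk i L R A := by
  unfold kk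
  refine cont_congr fun n h1 h2 => ext_update A m y ?_
  omega

theorem kk_last {R : Type} [CommRing R] (A : Fin k → R) (m : Fin k) (y : R) {i L : ℕ}
    (h : (m : ℕ) = i + L + 1) : kk i (L + 2) R (Function.update A m y) =
      y * kk i (L + 1) R A + kk i L R A := by
  have e : kk i (L + 2) R (Function.update A m y) =
      ext (Function.update A m y) (i + L + 1) * kk i (L + 1) R (Function.update A m y) +
        kk i L R (Function.update A m y) := rfl
  rw [e, kk_update A m y (Or.inr (by omega)), kk_update A m y (Or.inr (by omega)), ← h, ext_self]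

theorem kk_one {R : Type} [CommRing R] (A : Fin k → R) (m : Fin k) (y : R) {i : ℕ}
    (h : (m : ℕ) = i) : kk i 1 R (Function.update A m y) = y := by
  have e : kk i 1 R (Function.update A m y) = ext (Function.update A m y) i := rfl
  rw [e, ← h, ext_self]

theorem kk_coprime (A : Fin k → ZMod p) (i L : ℕ) (h1 : kk i (L + 1) (ZMod p) A = 0) :
    kk i L (ZMod p) A ≠ 0 := by
  induction L with
  | zero => exact one_ne_zero
  | succ L ih =>
    intro h2
    have e : kk i (L + 2) (ZMod p) A = ext A (i + L + 1) * kk i (L + 1) (ZMod p) A +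
      kk i L (ZMod p) A := rfl
    rw [h1, h2, mul_zero, zero_add] at e
    exact ih h2 e.symm

/-- number of solutions of `a y + b = r` -/
theorem lin_sol (a b r : ZMod p) :
    (univ.filter (fun y : ZMod p => y * a + b = r)).card =
      if a ≠ 0 then 1 else if b = r then p else 0 := by
  classical
  split_ifs with h1 h2
  · rw [Finset.card_eq_one]
    refine ⟨(r - b) / a, ?_⟩
    ext y
    rw [mem_filter, mem_singleton]
    constructor
    · rintro ⟨-, h⟩
      rw [← h]
      field_simp
      ring
    · intro h
      refine ⟨mem_univ _, ?_⟩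
      rw [h]
      field_simp
      ring
  · push Not at h1
    rw [Finset.filter_true_of_mem, card_univ, ZMod.card]
    intro y _
    rw [h1, mul_zero, zero_add, h2]
  · push Not at h1
    rw [Finset.card_eq_zero, Finset.filter_eq_empty_iff]
    intro y _
    rw [h1, mul_zero, zero_add]
    exact h2

/-- the number of all points -/
abbrev VV (k p : ℕ) [Fact p.Prime] : ℕ := Fintype.card (Fin k → ZMod p)

/-- the number of the points with `K (L+1) = 0`, `K L = r` -/
def WW (k p : ℕ) [Fact p.Prime] (i L : ℕ) (r : ZMod p) : ℕ :=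
  (univ.filter (fun A : Fin k → ZMod p => kk i (L + 1) (ZMod p) A = 0 ∧
    kk i L (ZMod p) A = r)).card

theorem cn_one {i : ℕ} (hi : i < k) (r : ZMod p) :
    p * cn (kk (k := k) i 1 (ZMod p)) r = VV k p := by
  classical
  unfold cn
  rw [one_coord ⟨i, hi⟩, Finset.sum_congr rfl (fun A _ => ?_), sum_const, card_univ, smul_eq_mul,
    mul_one]
  rw [Finset.card_eq_one]
  refine ⟨r, ?_⟩
  ext y
  rw [mem_filter, mem_singleton, kk_one A ⟨i, hi⟩ y rfl]
  simp

theorem cn_rec {i L : ℕ} (hi : i + L + 1 < k) (r : ZMod p) :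
    p * cn (kk (k := k) i (L + 2) (ZMod p)) r + cn (kk (k := k) i (L + 1) (ZMod p)) 0 =
      VV k p + p * WW k p i L r := by
  classical
  have h1 : p * cn (kk (k := k) i (L + 2) (ZMod p)) r = ∑ A : Fin k → ZMod p,
      if kk i (L + 1) (ZMod p) A ≠ 0 then 1 else if kk i L (ZMod p) A = r then p else 0 := by
    unfold cn
    rw [one_coord ⟨i + L + 1, hi⟩]
    refine Finset.sum_congr rfl fun A _ => ?_
    rw [← lin_sol]
    congr 1
    ext y
    rw [mem_filter, mem_filter, kk_last A ⟨i + L + 1, hi⟩ y rfl]
  have h2 : cn (kk (k := k) i (L + 1) (ZMod p)) 0 = ∑ A : Fin k → ZMod p,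
      if kk i (L + 1) (ZMod p) A = 0 then 1 else 0 := by
    unfold cn
    rw [Finset.card_filter]
  have h3 : p * WW k p i L r = ∑ A : Fin k → ZMod p,
      if kk i (L + 1) (ZMod p) A = 0 ∧ kk i L (ZMod p) A = r then p else 0 := by
    unfold WW
    rw [Finset.card_filter, Finset.mul_sum]
    refine Finset.sum_congr rfl fun A _ => ?_
    split_ifs <;> simp
  have h4 : VV k p = ∑ A : Fin k → ZMod p, 1 := by simp
  rw [h1, h2, h3, h4, ← Finset.sum_add_distrib, ← Finset.sum_add_distrib]
  refine Finset.sum_congr rfl fun A _ => ?_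
  by_cases ha : kk i (L + 1) (ZMod p) A = 0 <;> by_cases hb : kk i L (ZMod p) A = r <;>
    simp [ha, hb, add_comm]

theorem zero_le {i L : ℕ} (hi : i + L < k) : p * cn (kk (k := k) i (L + 1) (ZMod p)) 0 ≤ VV k p := by
  rcases L with _ | L
  · exact (cn_one hi 0).le
  · have h1 := cn_rec (p := p) (k := k) (i := i) (L := L) (by omega) 0
    have h2 : WW k p i L 0 = 0 := by
      unfold WW
      rw [Finset.card_eq_zero, Finset.filter_eq_empty_iff]
      rintro A _ ⟨h3, h4⟩
      exact kk_coprime A i L h3 h4
    rw [h2, mul_zero, add_zero] at h1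
    show p * cn (kk (k := k) i (L + 2) (ZMod p)) 0 ≤ _
    omega

theorem W_rec {i L : ℕ} (hi : i + L + 1 < k) (r : ZMod p) :
    p * WW k p i (L + 1) r ≤ cn (kk (k := k) i (L + 1) (ZMod p)) r := by
  classical
  by_cases hr : r = 0
  · have h2 : WW k p i (L + 1) r = 0 := by
      unfold WW
      rw [Finset.card_eq_zero, Finset.filter_eq_empty_iff]
      rintro A _ ⟨h3, h4⟩
      exact kk_coprime A i (L + 1) h3 (h4.trans hr)
    rw [h2, mul_zero]
    exact Nat.zero_le _
  · unfold WW cn
    rw [one_coord ⟨i + L + 1, hi⟩, Finset.card_filter]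
    refine Finset.sum_le_sum fun A _ => ?_
    by_cases ha : kk i (L + 1) (ZMod p) A = r
    · rw [if_pos ha]
      have h3 : (univ.filter fun y : ZMod p =>
          kk i (L + 1 + 1) (ZMod p) (Function.update A ⟨i + L + 1, hi⟩ y) = 0 ∧
          kk i (L + 1) (ZMod p) (Function.update A ⟨i + L + 1, hi⟩ y) = r) ⊆
          univ.filter (fun y : ZMod p => y * kk i (L + 1) (ZMod p) A +
            kk i L (ZMod p) A = 0) := by
        intro y hy
        rw [mem_filter] at hy ⊢
        refine ⟨mem_univ _, ?_⟩
        have h5 := kk_last (R := ZMod p) A ⟨i + L + 1, hi⟩ y (i := i) (L := L) rfl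
        rw [← h5]
        exact hy.2.1
      refine (card_le_card h3).trans ?_
      rw [lin_sol, if_pos (by rw [ha]; exact hr)]
    · rw [if_neg ha, Nat.le_zero, Finset.card_eq_zero, Finset.filter_eq_empty_iff]
      rintro y _ ⟨-, h4⟩
      rw [kk_update (i := i) (L := L + 1) A ⟨i + L + 1, hi⟩ y
        (Or.inr (by show i + (L + 1) ≤ i + L + 1; omega))] at h4
      exact ha h4

theorem W_zero {i : ℕ} (hi : i < k) (r : ZMod p) : p * WW k p i 0 r ≤ VV k p := by
  refine le_trans (Nat.mul_le_mul_left p (card_le_card ?_)) (cn_one hi 0).le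
  intro A hA
  rw [mem_filter] at hA ⊢
  exact ⟨mem_univ _, hA.2.1⟩

theorem cn_le {i L : ℕ} (hi : i + L < k) (r : ZMod p) :
    p * cn (kk (k := k) i (L + 1) (ZMod p)) r ≤ 2 * VV k p := by
  induction L using Nat.strong_induction_on with
  | _ L ih =>
    rcases L with _ | L
    · have h0 := cn_one (p := p) (k := k) (i := i) (by omega) r
      show p * cn (kk (k := k) i 1 (ZMod p)) r ≤ _
      omega
    · have h1 := cn_rec (p := p) (k := k) (i := i) (L := L) (by omega) r
      have h2 : p * WW k p i L r ≤ VV k p := by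
        rcases L with _ | L
        · exact W_zero (by omega) r
        · have h3 := W_rec (p := p) (k := k) (i := i) (L := L) (by omega) r
          have h4 := ih L (by omega) (by omega)
          have h5 : 2 ≤ p := hp.out.two_le
          have h6 : 2 * cn (kk (k := k) i (L + 1) (ZMod p)) r ≤
              p * cn (kk (k := k) i (L + 1) (ZMod p)) r := Nat.mul_le_mul_right _ h5
          omega
      show p * cn (kk (k := k) i (L + 2) (ZMod p)) r ≤ _
      omega

/-- the bound for the second term -/
theorem W_le {i L : ℕ} (hi : i + L < k) (r : ZMod p) (h : L = 0 → r ≠ 1) :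
    p * (p * WW k p i L r) ≤ 2 * VV k p := by
  rcases L with _ | L
  · have h2 : WW k p i 0 r = 0 := by
      unfold WW
      rw [Finset.card_eq_zero, Finset.filter_eq_empty_iff]
      rintro A _ ⟨-, h4⟩
      exact h rfl h4.symm
    rw [h2]
    simp
  · exact (Nat.mul_le_mul_left p (W_rec (by omega) r)).trans (cn_le (by omega) r)

/-- one value -/
theorem one_value {i L : ℕ} (hi : i + L < k) (r : ZMod p) (h : L = 1 → r ≠ 1) :
    p * (p * cn (kk (k := k) i (L + 1) (ZMod p)) r) ≤ p * VV k p + 4 * VV k p ∧
      p * VV k p ≤ p * (p * cn (kk (k := k) i (L + 1) (ZMod p)) r) + 4 * VV k p := by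
  rcases L with _ | L
  · have h0 := cn_one (p := p) (k := k) (i := i) (by omega) r
    show p * (p * cn (kk (k := k) i 1 (ZMod p)) r) ≤ _ ∧
      _ ≤ p * (p * cn (kk (k := k) i 1 (ZMod p)) r) + _
    rw [h0]
    omega
  · have h1 := cn_rec (p := p) (k := k) (i := i) (L := L) (by omega) r
    have h2 := W_le (p := p) (k := k) (i := i) (L := L) (by omega) r (fun h0 => h (by omega))
    have h3 := zero_le (p := p) (k := k) (i := i) (L := L) (by omega)
    have h4 : p * (p * cn (kk (k := k) i (L + 2) (ZMod p)) r) +
        p * cn (kk (k := k) i (L + 1) (ZMod p)) 0 = p * VV k p + p * (p * WW k p i L r) := by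
      rw [← mul_add, h1, mul_add]
    show p * (p * cn (kk (k := k) i (L + 2) (ZMod p)) r) ≤ _ ∧
      _ ≤ p * (p * cn (kk (k := k) i (L + 2) (ZMod p)) r) + _
    constructor <;> omega

/-- two values, different last places -/
theorem two_values {i L i' L' : ℕ} (hi : i + L < k) (hi' : i' + L' < k) (hlt : i + L < i' + L')
    (r s : ZMod p) (h : L' = 1 → s ≠ 1) :
    p * (p * (univ.filter (fun A : Fin k → ZMod p => kk i (L + 1) (ZMod p) A = r ∧
      kk i' (L' + 1) (ZMod p) A = s)).card) ≤ 4 * VV k p := by
  classical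
  rcases L' with _ | L'
  · have h1 : p * (univ.filter (fun A : Fin k → ZMod p => kk i (L + 1) (ZMod p) A = r ∧
        kk i' 1 (ZMod p) A = s)).card ≤ cn (kk (k := k) i (L + 1) (ZMod p)) r := by
      unfold cn
      rw [one_coord ⟨i', by omega⟩, Finset.card_filter]
      refine Finset.sum_le_sum fun A _ => ?_
      by_cases ha : kk i (L + 1) (ZMod p) A = r
      · rw [if_pos ha, Finset.card_le_one]
        intro y hy y' hy'
        rw [mem_filter] at hy hy'
        have h1 := hy.2.2
        have h2 := hy'.2.2
        rw [kk_one A ⟨i', by omega⟩ _ rfl] at h1 h2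
        rw [h1, h2]
      · rw [if_neg ha, Nat.le_zero, Finset.card_eq_zero, Finset.filter_eq_empty_iff]
        rintro y _ ⟨h4, -⟩
        rw [kk_update A ⟨i', by omega⟩ y (Or.inr (by simp; omega))] at h4
        exact ha h4
    refine (Nat.mul_le_mul_left p h1).trans ((cn_le hi r).trans (by omega))
  · have hm : i' + L' + 1 < k := by omega
    have h1 : p * (univ.filter (fun A : Fin k → ZMod p => kk i (L + 1) (ZMod p) A = r ∧
        kk i' (L' + 2) (ZMod p) A = s)).card ≤ cn (kk (k := k) i (L + 1) (ZMod p)) r +
          p * WW k p i' L' s := by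
      unfold cn WW
      rw [one_coord ⟨i' + L' + 1, hm⟩, Finset.card_filter, Finset.card_filter, Finset.mul_sum,
        ← Finset.sum_add_distrib]
      refine Finset.sum_le_sum fun A _ => ?_
      by_cases ha : kk i (L + 1) (ZMod p) A = r
      · have h3 : (univ.filter fun y : ZMod p =>
            kk i (L + 1) (ZMod p) (Function.update A ⟨i' + L' + 1, hm⟩ y) = r ∧
            kk i' (L' + 2) (ZMod p) (Function.update A ⟨i' + L' + 1, hm⟩ y) = s) ⊆
            univ.filter (fun y : ZMod p => y * kk i' (L' + 1) (ZMod p) A +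
              kk i' L' (ZMod p) A = s) := by
          intro y hy
          rw [mem_filter] at hy ⊢
          refine ⟨mem_univ _, ?_⟩
          rw [← kk_last (R := ZMod p) A ⟨i' + L' + 1, hm⟩ y rfl]
          exact hy.2.2
        refine (card_le_card h3).trans ?_
        rw [lin_sol, if_pos ha]
        by_cases hb : kk i' (L' + 1) (ZMod p) A = 0
        · by_cases hc : kk i' L' (ZMod p) A = s
          · simp [hb, hc]
          · simp [hb, hc]
        · simp [hb]
      · rw [if_neg ha]
        have h3 : (univ.filter fun y : ZMod p =>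
            kk i (L + 1) (ZMod p) (Function.update A ⟨i' + L' + 1, hm⟩ y) = r ∧
            kk i' (L' + 2) (ZMod p) (Function.update A ⟨i' + L' + 1, hm⟩ y) = s) = ∅ := by
          rw [Finset.filter_eq_empty_iff]
          rintro y _ ⟨h4, -⟩
          rw [kk_update A ⟨i' + L' + 1, hm⟩ y (Or.inr (by simp; omega))] at h4
          exact ha h4
        rw [h3, card_empty]
        exact Nat.zero_le _
    have h2 := W_le (p := p) (k := k) (i := i') (L := L') (by omega) s (fun h0 => h (by omega))
    have h3 := cn_le (p := p) (k := k) hi r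
    have h4 := Nat.mul_le_mul_left p h1
    rw [mul_add] at h4
    exact h4.trans (by omega)

/-- reversal -/
theorem two_rev {i L i' L' : ℕ} (hi : i + L ≤ k) (hi' : i' + L' ≤ k) (r s : ZMod p) :
    (univ.filter (fun A : Fin k → ZMod p => kk i L (ZMod p) A = r ∧
      kk i' L' (ZMod p) A = s)).card =
    (univ.filter (fun A : Fin k → ZMod p => kk (k - i - L) L (ZMod p) A = r ∧
      kk (k - i' - L') L' (ZMod p) A = s)).card := by
  classical
  rcases Nat.eq_zero_or_pos k with hk | hk
  · subst hk
    have : i = 0 := by omega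
    have : L = 0 := by omega
    have : i' = 0 := by omega
    have : L' = 0 := by omega
    subst_vars
    rfl
  · have key : ∀ (i L : ℕ), i + L ≤ k → ∀ A : Fin k → ZMod p,
        kk i L (ZMod p) (fun a => A (Fin.rev a)) = kk (k - i - L) L (ZMod p) A := by
      intro i L h A
      unfold kk
      have h1 := cont_rev (ext A) (k - 1) i L (by omega)
      rw [show k - 1 + 1 - i - L = k - i - L by omega] at h1
      rw [← h1]
      refine cont_congr fun m h2 h3 => ?_
      unfold ext
      have h4 : m < k := by omega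
      have h5 : k - 1 - m < k := by omega
      rw [dif_pos h4, dif_pos h5]
      show A (Fin.rev ⟨m, h4⟩) = A ⟨k - 1 - m, h5⟩
      congr 1
      apply Fin.ext
      rw [Fin.val_rev]
      show k - (m + 1) = k - 1 - m
      omega
    refine Finset.card_bij' (fun A _ => fun a => A (Fin.rev a)) (fun A _ => fun a => A (Fin.rev a))
      ?_ ?_ ?_ ?_
    · intro A hA
      rw [mem_filter] at hA ⊢
      refine ⟨mem_univ _, ?_⟩
      rw [← key i L hi, ← key i' L' hi']
      simpa using hA.2
    · intro A hA
      rw [mem_filter] at hA ⊢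
      refine ⟨mem_univ _, ?_⟩
      rw [key i L hi, key i' L' hi']
      exact hA.2
    · intro A _
      funext a
      simp
    · intro A _
      funext a
      simp

end count

theorem cont_pos {i L : ℕ} : ∀ x : ℕ → ℤ, (∀ m, i ≤ m → m < i + L → x m = 2) →
    2 ^ L ≤ cont x i L := by
  intro x
  induction L using Nat.strong_induction_on with
  | _ L ih =>
    intro h
    rcases L with _ | L
    · simp [cont]
    · rcases L with _ | L
      · simp only [cont]
        rw [h i le_rfl (by omega)]
        norm_num
      · have h1 := ih (L + 1) (by omega) fun m h1 h2 => h m h1 (by omega)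
        have h2 := ih L (by omega) fun m h1 h2 => h m h1 (by omega)
        simp only [cont]
        rw [h (i + L + 1) (by omega) (by omega)]
        have h3 : (0 : ℤ) < 2 ^ L := by positivity
        have h4 : (2 : ℤ) ^ (L + 1 + 1) = 2 * 2 ^ (L + 1) := by ring
        rw [h4]
        linarith

theorem cont_zero {i L : ℕ} : cont (fun _ => (0 : ℤ)) i L = 0 ∨ cont (fun _ => (0 : ℤ)) i L = 1 := by
  induction L using Nat.strong_induction_on with
  | _ L ih =>
    rcases L with _ | L
    · right; rfl
    · rcases L with _ | L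
      · left; rfl
      · simp only [cont]
        have := ih L (by omega)
        simpa using this

theorem continuants (k : ℕ) :
    ∃ c : ℝ, 0 < c ∧ ∃ Z₀ : ℝ, ∀ Z : ℕ, Z₀ ≤ Z →
    ∀ M : ℕ → ℤ, ∃ a : ℕ → ℤ, (∀ m < k, M m < a m ∧ a m ≤ M m + Z) ∧
      ∀ i L : ℕ, 1 ≤ L → i + L ≤ k → ∀ t : ℤ,
        |(t : ℝ) - ((cont a i L : ℤ) : ℝ)| ≤ c * Pool.Agent.H256R2.SC.ff Z →
        ∃ p : ℕ, p.Prime ∧ (p : ℝ) ≤ (Z : ℝ) ^ (1 / 10 : ℝ) ∧ (p : ℤ) ∣ t := by
  classical
  have ext0 : ext (fun _ : Fin k => (0 : ℤ)) = fun _ => 0 := by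
    funext m
    unfold ext
    split_ifs <;> rfl
  obtain ⟨c, hc, Z₀, h⟩ := critK
    (ι := {q : Fin k × Fin k // (q.1 : ℕ) + q.2 < k}) (κ := Fin k)
    (fun q => kk q.1.1 (q.1.2 + 1)) (fun q => kk_nat _ _) (fun _ => 2)
    (by
      rintro ⟨⟨i, L⟩, hq⟩
      dsimp only at hq ⊢
      show cont (ext (fun _ : Fin k => (0 : ℤ))) i (L + 1) < cont (ext (fun _ => 2)) i (L + 1)
      rw [ext0]
      have h1 : (2 : ℤ) ^ ((L : ℕ) + 1) ≤ cont (ext (fun _ : Fin k => (2 : ℤ))) i (L + 1) := by
        refine cont_pos _ fun m h1 h2 => ?_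
        unfold ext
        rw [dif_pos (by omega)]
      have h2 : (2 : ℤ) ^ 1 ≤ 2 ^ ((L : ℕ) + 1) :=
        pow_le_pow_right₀ (by norm_num) (by omega)
      rcases cont_zero (i := (i : ℕ)) (L := (L : ℕ) + 1) with h3 | h3 <;> rw [h3] <;> linarith)
    2 0 (fun _ _ => 0)
    (fun q => if (q.1.2 : ℕ) = 1 then {1} else ∅)
    (by
      rintro ⟨⟨i, L⟩, hq⟩ r hr
      dsimp only at hq hr ⊢
      by_cases hL : (L : ℕ) = 1
      · rw [if_pos hL, mem_singleton] at hr
        refine ⟨2, Nat.prime_two, le_rfl, ?_⟩
        show ((2 : ℕ) : ℤ) ∣ cont (ext (fun _ : Fin k => (0 : ℤ))) i (L + 1) - r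
        rw [ext0, hL, hr]
        simp [cont]
      · rw [if_neg hL] at hr
        exact absurd hr (notMem_empty _))
    4
    (by
      rintro p hp _ ⟨⟨i, L⟩, hq⟩ r hr
      dsimp only at hq hr ⊢
      refine one_value hq r fun hL => ?_
      rw [if_pos hL] at hr
      have := hr 1 (mem_singleton_self _)
      simpa using this)
    (by
      rintro p hp _ ⟨⟨i, L⟩, hq⟩ ⟨⟨i', L'⟩, hq'⟩ hne r s hr hs
      dsimp only at hq hq' hr hs ⊢
      have hr1 : (L : ℕ) = 1 → r ≠ 1 := by
        intro hL
        rw [if_pos hL] at hr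
        have := hr 1 (mem_singleton_self _)
        simpa using this
      have hs1 : (L' : ℕ) = 1 → s ≠ 1 := by
        intro hL
        rw [if_pos hL] at hs
        have := hs 1 (mem_singleton_self _)
        simpa using this
      have sw : ∀ (i i' L L' : ℕ) (r s : ZMod p),
          (univ.filter (fun A : Fin k → ZMod p => kk i L (ZMod p) A = r ∧
            kk i' L' (ZMod p) A = s)) =
          (univ.filter (fun A : Fin k → ZMod p => kk i' L' (ZMod p) A = s ∧
            kk i L (ZMod p) A = r)) := by
        intro i i' L L' r s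
        ext A
        simp only [mem_filter, mem_univ, true_and]
        exact and_comm
      rcases lt_trichotomy ((i : ℕ) + L) (i' + L') with h1 | h1 | h1
      · exact two_values hq hq' h1 r s hs1
      · have h2 : (i : ℕ) ≠ i' := by
          intro h3
          apply hne
          have h4 : i = i' := Fin.ext h3
          have h5 : L = L' := Fin.ext (by omega)
          subst h4
          subst h5
          rfl
        rw [two_rev (by omega) (by omega)]
        rcases lt_or_gt_of_ne h2 with h3 | h3
        · rw [sw]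
          exact two_values (by omega) (by omega) (by omega) s r hr1
        · exact two_values (by omega) (by omega) (by omega) r s hs1
      · rw [sw]
        exact two_values hq' hq h1 s r hr1)
  refine ⟨c, hc, Z₀, fun Z hZ M => ?_⟩
  obtain ⟨x, hx1, hx2⟩ := h Z hZ (fun m => M m)
  refine ⟨ext x, fun m hm => ?_, fun i L hL hiL t ht => ?_⟩
  · have := hx1 ⟨m, hm⟩
    unfold ext
    rw [dif_pos hm]
    exact this
  · obtain ⟨L', rfl⟩ : ∃ L', L = L' + 1 := ⟨L - 1, by omega⟩
    exact hx2 ⟨(⟨i, by omega⟩, ⟨L', by omega⟩), by dsimp only; omega⟩ t ht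

end Pool.Agent.X145.ML
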