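import Pool.Agent.X145.ML.CritN

/-!
Record gaps around the minors of all matrices near a matrix.
-/

set_option autoImplicit false

namespace Pool.Agent.X145.ML

open Finset Matrix Pool.Agent.X145.PM

section linear

variable {p : ℕ} [hp : Fact p.Prime]

/-- two linear equations -/
theorem fibre2 {V : Type} [AddCommGroup V] [Module (ZMod p) V] [Fintype V] [DecidableEq V]
    (l l' : V →ₗ[ZMod p] ZMod p) (v : V) (hv : l' v = 0) (hv' : l v ≠ 0) (hl' : l' ≠ 0)
    (s r : ZMod p) :
    p * (p * (univ.filter (fun y : V => l y = s ∧ l' y = r)).card) = Fintype.card V := by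
  classical
  obtain ⟨u, hu⟩ : ∃ u, l' u ≠ 0 := by
    by_contra hcon
    push Not at hcon
    exact hl' (LinearMap.ext hcon)
  obtain ⟨φ, hφ⟩ : ∃ φ : V →ₗ[ZMod p] ZMod p × ZMod p, φ = l.prod l' := ⟨_, rfl⟩
  have hsurj : Function.Surjective φ := by
    rintro ⟨a, b⟩
    refine ⟨(b / l' u) • u + ((a - (b / l' u) * l u) / l v) • v, ?_⟩
    rw [hφ]
    show (l _, l' _) = _
    rw [map_add, map_add, map_smul, map_smul, map_smul,
      map_smul, hv, smul_eq_mul, smul_eq_mul, smul_eq_mul, smul_eq_mul]
    ext
    · show (b / l' u) * l u + ((a - (b / l' u) * l u) / l v) * l v = a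
      field_simp
      ring
    · show (b / l' u) * l' u + ((a - (b / l' u) * l u) / l v) * 0 = b
      field_simp
      ring
  have h1 : ∀ t : ZMod p × ZMod p, (univ.filter (fun y : V => φ y = t)).card =
      (univ.filter (fun y : V => φ y = (s, r))).card := by
    intro t
    exact AddMonoidHom.card_fiber_eq_of_mem_range φ.toAddMonoidHom (hsurj t) (hsurj (s, r))
  have h2 := Finset.card_eq_sum_card_fiberwise (f := fun y : V => φ y)
    (s := univ) (t := univ) (fun _ _ => mem_univ _)
  rw [Finset.sum_congr rfl (fun t _ => h1 t), sum_const, card_univ, card_univ,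
    Fintype.card_prod, ZMod.card, smul_eq_mul] at h2
  have h3 : (univ.filter (fun y : V => l y = s ∧ l' y = r)) =
      (univ.filter (fun y : V => φ y = (s, r))) := by
    ext y
    rw [mem_filter, mem_filter, hφ]
    show _ ∧ _ ↔ _ ∧ (l y, l' y) = (s, r)
    rw [Prod.mk.injEq]
  rw [h3, h2]
  ring

end linear

section minors

variable {m n p : ℕ} [hp : Fact p.Prime]

theorem cn_shift {I : Finset (Fin m)} (f : I ↪ Fin n) (D : Fin m × Fin n → ZMod p) (r : ZMod p) :
    cn (p := p) (fun A => mnr f (A + D)) r = cn (p := p) (mnr f) r := by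
  classical
  unfold cn
  refine Finset.card_bij' (fun A _ => A + D) (fun A _ => A - D) ?_ ?_ ?_ ?_
  · intro A hA
    rw [mem_filter] at hA ⊢
    exact ⟨mem_univ _, hA.2⟩
  · intro A hA
    rw [mem_filter] at hA ⊢
    refine ⟨mem_univ _, ?_⟩
    show mnr f (A - D + D) = r
    rw [sub_add_cancel]
    exact hA.2
  · intro A _
    exact add_sub_cancel_right _ _
  · intro A _
    exact sub_add_cancel _ _

theorem two_shift {I J : Finset (Fin m)} (f : I ↪ Fin n) (g : J ↪ Fin n)
    (D D' : Fin m × Fin n → ZMod p) (r s : ZMod p) :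
    (univ.filter (fun A : Fin m × Fin n → ZMod p => mnr f (A + D) = r ∧
      mnr g (A + D') = s)).card =
    (univ.filter (fun A : Fin m × Fin n → ZMod p => mnr f (A + (D - D')) = r ∧
      mnr g A = s)).card := by
  classical
  refine Finset.card_bij' (fun A _ => A + D') (fun A _ => A - D') ?_ ?_ ?_ ?_
  · intro A hA
    rw [mem_filter] at hA ⊢
    refine ⟨mem_univ _, ?_, hA.2.2⟩
    rw [show A + D' + (D - D') = A + D by abel]
    exact hA.2.1
  · intro A hA
    rw [mem_filter] at hA ⊢
    refine ⟨mem_univ _, ?_, ?_⟩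
    · rw [show A - D' + D = A + (D - D') by abel]
      exact hA.2.1
    · rw [sub_add_cancel]
      exact hA.2.2
  · intro A _
    exact add_sub_cancel_right _ _
  · intro A _
    exact sub_add_cancel _ _

theorem upd_add {κ R : Type} [CommRing R] (S : κ → Prop) [DecidablePred S] (A y D : κ → R) :
    upd S A y + D = upd S (A + D) (y + D) := by
  funext k
  unfold upd
  by_cases h : S k <;> simp [h]

theorem indep_row' {I : Finset (Fin m)} (f : I ↪ Fin n) (D : Fin m × Fin n → ZMod p) {i0 : Fin m}
    (h : i0 ∉ I) (A y : Fin m × Fin n → ZMod p) :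
    mnr f (upd (fun k : Fin m × Fin n => k.1 = i0) A y + D) = mnr f (A + D) := by
  rw [upd_add, indep_row f h]

theorem indep_col' {I : Finset (Fin m)} (f : I ↪ Fin n) (D : Fin m × Fin n → ZMod p) {j0 : Fin n}
    (h : j0 ∉ Set.range f) (A y : Fin m × Fin n → ZMod p) :
    mnr f (upd (fun k : Fin m × Fin n => k.2 = j0) A y + D) = mnr f (A + D) := by
  rw [upd_add, indep_col f h]

/-- minors with different rows or different columns -/
theorem pairs' {I J : Finset (Fin m)} (f : I ↪ Fin n) (g : J ↪ Fin n) (hI : I.Nonempty)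
    (hJ : J.Nonempty) (hne : I ≠ J ∨ Set.range f ≠ Set.range g)
    (D D' : Fin m × Fin n → ZMod p) {r s : ZMod p} (hr : r ≠ 0) (hs : s ≠ 0) :
    p * (p * (univ.filter (fun A : Fin m × Fin n → ZMod p => mnr f (A + D) = r ∧
      mnr g (A + D') = s)).card) ≤ Fintype.card (Fin m × Fin n → ZMod p) := by
  classical
  have main : ∀ {I J : Finset (Fin m)} (f : I ↪ Fin n) (g : J ↪ Fin n) (_ : I.Nonempty)
      (_ : (∃ j ∈ J, j ∉ I) ∨ (∃ j ∈ Set.range g, j ∉ Set.range f))
      (D D' : Fin m × Fin n → ZMod p) {r s : ZMod p} (_ : r ≠ 0) (_ : s ≠ 0),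
      p * (p * (univ.filter (fun A : Fin m × Fin n → ZMod p => mnr f (A + D) = r ∧
      mnr g (A + D') = s)).card) ≤ Fintype.card (Fin m × Fin n → ZMod p) := by
    intro I J f g hI h D D' r s hr hs
    rw [two_shift]
    have bI := (cn_bounds (lin_row (p := p) f ⟨hI.choose, hI.choose_spec⟩) (mnr_zero f) hr).1
    rw [← cn_shift f (D - D')] at bI
    rcases h with ⟨j, hj, hjI⟩ | ⟨_, ⟨j, rfl⟩, hjI⟩
    · have h1 := pair (p := p) (S := fun k : Fin m × Fin n => k.1 = j)
        (g := fun A => mnr f (A + (D - D'))) (g' := mnr g)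
        (fun A y => indep_row' f (D - D') hjI A y) (lin_row g ⟨j, hj⟩) (r := r) hs
      exact (Nat.mul_le_mul_left p h1).trans bI
    · have h1 := pair (p := p) (S := fun k : Fin m × Fin n => k.2 = g j)
        (g := fun A => mnr f (A + (D - D'))) (g' := mnr g)
        (fun A y => indep_col' f (D - D') hjI A y) (lin_col g j) (r := r) hs
      exact (Nat.mul_le_mul_left p h1).trans bI
  have e : (univ.filter (fun A : Fin m × Fin n → ZMod p => mnr f (A + D) = r ∧
      mnr g (A + D') = s)) =
      (univ.filter (fun A : Fin m × Fin n → ZMod p => mnr g (A + D') = s ∧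
        mnr f (A + D) = r)) := by
    ext A
    simp only [mem_filter, mem_univ, true_and]
    exact and_comm
  -- a row or a column
  have key : ((∃ j ∈ J, j ∉ I) ∨ (∃ j ∈ Set.range g, j ∉ Set.range f)) ∨
      ((∃ i ∈ I, i ∉ J) ∨ (∃ j ∈ Set.range f, j ∉ Set.range g)) := by
    by_contra hcon
    push Not at hcon
    obtain ⟨⟨h1, h2⟩, h3, h4⟩ := hcon
    rcases hne with h | h
    · exact h (Finset.Subset.antisymm h3 h1)
    · exact h (Set.Subset.antisymm h4 h2)
  rcases key with h | h
  · exact main f g hI h D D' hr hs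
  · rw [e]
    exact main g f hJ h D' D hs hr

/-- the minors with one row prescribed -/
theorem bad {I : Finset (Fin m)} (f : I ↪ Fin n) (w : Fin m × Fin n → ZMod p) (i0 i1 j1 : I)
    (hw : w (i1.1, f j1) ≠ 0) :
    p * (univ.filter (fun A : Fin m × Fin n → ZMod p =>
      mnr f (upd (fun k : Fin m × Fin n => k.1 = i0.1) A (fun k => w (i1.1, k.2))) = 0)).card ≤
      m * Fintype.card (Fin m × Fin n → ZMod p) := by
  classical
  obtain ⟨Mx, hMx⟩ : ∃ Mx : Matrix I I (MvPolynomial (Fin m × Fin n) (ZMod p)),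
      Mx = Matrix.of fun i j : I => if i = i0 then MvPolynomial.C (w (i1.1, f j)) else
        MvPolynomial.X (i.1, f j) := ⟨_, rfl⟩
  have ev : ∀ A : Fin m × Fin n → ZMod p, MvPolynomial.eval A Mx.det =
      mnr f (upd (fun k : Fin m × Fin n => k.1 = i0.1) A (fun k => w (i1.1, k.2))) := by
    intro A
    rw [RingHom.map_det]
    unfold mnr
    congr 1
    ext a b
    rw [RingHom.mapMatrix_apply, Matrix.map_apply, hMx, Matrix.of_apply, Matrix.of_apply]
    by_cases h : a = i0
    · subst h
      simp [upd]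
    · have h' : (a : Fin m) ≠ i0 := fun h' => h (Subtype.ext h')
      simp [upd, h, h']
  have hdeg : Mx.det.totalDegree ≤ m := by
    rw [Matrix.det_apply]
    refine (MvPolynomial.totalDegree_finsetSum_le (d := m) fun σ _ => ?_)
    refine (MvPolynomial.totalDegree_smul_le _ _).trans ?_
    refine (MvPolynomial.totalDegree_finsetProd _ _).trans ?_
    have h1 : ∀ i ∈ (univ : Finset I), (Mx (σ i) i).totalDegree ≤ 1 := by
      intro i _
      rw [hMx, Matrix.of_apply]
      split_ifs
      · rw [MvPolynomial.totalDegree_C]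
        exact Nat.zero_le _
      · rw [MvPolynomial.totalDegree_X]
    refine (Finset.sum_le_sum h1).trans ?_
    rw [sum_const, card_univ, Fintype.card_coe, smul_eq_mul, mul_one]
    exact (card_le_univ I).trans (by rw [Fintype.card_fin])
  have hne : Mx.det ≠ 0 := by
    intro h
    obtain ⟨σ, hσ⟩ : ∃ σ : Equiv.Perm I, σ i0 = j1 := ⟨Equiv.swap i0 j1, Equiv.swap_apply_left _ _⟩
    obtain ⟨A, hA⟩ : ∃ A : Fin m × Fin n → ZMod p, ∀ i j : I, A (i.1, f j) =
        if j = σ i then 1 else 0 := by
      refine ⟨fun k => if h : k.1 ∈ I then (if f (σ ⟨k.1, h⟩) = k.2 then 1 else 0) else 0,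
        fun i j => ?_⟩
      show (if h : (i : Fin m) ∈ I then (if f (σ ⟨i, h⟩) = f j then (1 : ZMod p) else 0)
        else 0) = _
      rw [dif_pos i.2]
      by_cases h : j = σ i
      · rw [if_pos (by rw [h]), if_pos h]
      · rw [if_neg, if_neg h]
        intro h'
        exact h (f.injective h').symm
    have h1 := ev A
    rw [h, map_zero] at h1
    have h2 := Matrix.exists_mulVec_eq_zero_iff.mpr h1.symm
    obtain ⟨v, hv, hv0⟩ := h2
    apply hv
    have h3 : ∀ i : I, ∑ j : I, (upd (fun k : Fin m × Fin n => k.1 = i0.1) A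
        (fun k => w (i1.1, k.2))) (i.1, f j) * v j = 0 := fun i => congrFun hv0 i
    have h4 : ∀ i : I, i ≠ i0 → v (σ i) = 0 := by
      intro i hi
      have h5 := h3 i
      have h' : (i : Fin m) ≠ i0 := fun h' => hi (Subtype.ext h')
      have h6 : ∀ j : I, (upd (fun k : Fin m × Fin n => k.1 = i0.1) A
          (fun k => w (i1.1, k.2))) (i.1, f j) = if j = σ i then 1 else 0 := by
        intro j
        rw [← hA]
        simp [upd, h']
      simp only [h6, ite_mul, one_mul, zero_mul] at h5
      rw [Finset.sum_ite_eq' univ (σ i)] at h5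
      simpa using h5
    have h5 : ∀ j : I, j ≠ j1 → v j = 0 := by
      intro j hj
      have h6 := h4 (σ.symm j) (by
        intro h7
        apply hj
        rw [← hσ, ← h7, Equiv.apply_symm_apply])
      rwa [Equiv.apply_symm_apply] at h6
    have h6 : v j1 = 0 := by
      have h7 := h3 i0
      have h8 : ∀ j : I, (upd (fun k : Fin m × Fin n => k.1 = i0.1) A
          (fun k => w (i1.1, k.2))) (i0.1, f j) * v j =
          if j = j1 then w (i1.1, f j1) * v j1 else 0 := by
        intro j
        by_cases hj : j = j1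
        · subst hj
          simp [upd]
        · rw [h5 j hj, mul_zero, if_neg hj]
      simp only [h8] at h7
      rw [Finset.sum_ite_eq' univ j1] at h7
      simp only [mem_univ, if_true, mul_eq_zero] at h7
      rcases h7 with h7 | h7
      · exact absurd h7 hw
      · exact h7
    funext j
    by_cases hj : j = j1
    · rw [hj, h6]
      rfl
    · rw [h5 j hj]
      rfl
  have h1 := sz Mx.det hne
  refine le_trans (le_of_eq ?_) (h1.trans (Nat.mul_le_mul_right _ hdeg))
  congr 2
  ext A
  rw [mem_filter, mem_filter, ev]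

/-- the same rows and columns -/
theorem same {I : Finset (Fin m)} (f : I ↪ Fin n) (E : Fin m × Fin n → ZMod p) (i0 i1 j1 : I)
    (h01 : i1 ≠ i0) (hE : E (i1.1, f j1) ≠ 0) {r s : ZMod p} (hr : r ≠ 0) (hs : s ≠ 0) :
    p * (p * (univ.filter (fun A : Fin m × Fin n → ZMod p => mnr f (A + E) = r ∧
      mnr f A = s)).card) ≤ (m + 1) * Fintype.card (Fin m × Fin n → ZMod p) := by
  classical
  have hlin := lin_row (p := p) f i0
  choose l hl using hlin
  have h0 : 0 < Fintype.card (Fin m × Fin n → ZMod p) := Fintype.card_pos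
  -- rows
  have hrow : ∀ (A : Fin m × Fin n → ZMod p) (i : I), i ≠ i0 →
      l A (fun k => A (i.1, k.2)) = 0 := by
    intro A i hi
    rw [← hl]
    unfold mnr
    refine Matrix.det_zero_of_row_eq hi ?_
    funext j
    have h' : (i : Fin m) ≠ i0 := fun h' => hi (Subtype.ext h')
    simp [upd, h']
  have key : ∀ A : Fin m × Fin n → ZMod p,
      p * (p * (∑ y : Fin m × Fin n → ZMod p,
        if mnr f (upd (fun k : Fin m × Fin n => k.1 = i0.1) A y + E) = r ∧
          mnr f (upd (fun k : Fin m × Fin n => k.1 = i0.1) A y) = s then 1 else 0)) ≤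
      Fintype.card (Fin m × Fin n → ZMod p) + Fintype.card (Fin m × Fin n → ZMod p) *
        (p * if mnr f (upd (fun k : Fin m × Fin n => k.1 = i0.1) A
          (fun k => E (i1.1, k.2))) = 0 then 1 else 0) := by
    intro A
    obtain ⟨l', hl'⟩ : ∃ l', l' = l (A + E) := ⟨_, rfl⟩
    have e : (∑ y : Fin m × Fin n → ZMod p,
        if mnr f (upd (fun k : Fin m × Fin n => k.1 = i0.1) A y + E) = r ∧
          mnr f (upd (fun k : Fin m × Fin n => k.1 = i0.1) A y) = s then 1 else 0) =
        (univ.filter (fun y : Fin m × Fin n → ZMod p => l A y = s ∧ l' y = r - l' E)).card := by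
      rw [Finset.card_filter]
      refine Finset.sum_congr rfl fun y _ => ?_
      rw [upd_add, hl, hl, hl', map_add]
      have : (l (A + E) y + l (A + E) E = r ∧ l A y = s) ↔
          (l A y = s ∧ l (A + E) y = r - l (A + E) E) := by
        rw [and_comm, eq_sub_iff_add_eq]
      simp only [this]
    rw [e]
    by_cases hl0 : l' = 0
    · have : (univ.filter (fun y : Fin m × Fin n → ZMod p => l A y = s ∧ l' y = r - l' E)) = ∅ := by
        rw [Finset.filter_eq_empty_iff]
        rintro y _ ⟨-, h⟩
        rw [hl0] at h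
        simp only [LinearMap.zero_apply, sub_zero] at h
        exact hr h.symm
      rw [this, card_empty, mul_zero, mul_zero]
      exact Nat.zero_le _
    by_cases hgood : ∃ v, l' v = 0 ∧ l A v ≠ 0
    · obtain ⟨v, hv, hv'⟩ := hgood
      rw [fibre2 (l A) l' v hv hv' hl0]
      exact Nat.le_add_right _ _
    · push Not at hgood
      have hbad : mnr f (upd (fun k : Fin m × Fin n => k.1 = i0.1) A
          (fun k => E (i1.1, k.2))) = 0 := by
        rw [hl]
        have h1 := hrow A i1 h01
        have h2 := hrow (A + E) i1 h01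
        rw [← hl'] at h2
        have h3 := hgood _ h2
        have h4 : (fun k : Fin m × Fin n => (A + E) (i1.1, k.2)) =
            (fun k => A (i1.1, k.2)) + (fun k => E (i1.1, k.2)) := rfl
        rw [h4, map_add, h1, zero_add] at h3
        exact h3
      rw [if_pos hbad, mul_one]
      have h5 : p * (univ.filter (fun y : Fin m × Fin n → ZMod p =>
          l A y = s ∧ l' y = r - l' E)).card ≤ Fintype.card (Fin m × Fin n → ZMod p) := by
        rw [← fibre l' hl0 (r - l' E)]
        refine Nat.mul_le_mul_left p (card_le_card fun y hy => ?_)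
        rw [mem_filter] at hy ⊢
        exact ⟨mem_univ _, hy.2.2⟩
      calc _ ≤ p * Fintype.card (Fin m × Fin n → ZMod p) := Nat.mul_le_mul_left p h5
        _ = Fintype.card (Fin m × Fin n → ZMod p) * p := mul_comm _ _
        _ ≤ _ := Nat.le_add_left _ _
  refine Nat.le_of_mul_le_mul_left ?_ h0
  have h1 := avg (p := p) (fun k : Fin m × Fin n => k.1 = i0.1)
    (fun A => if mnr f (A + E) = r ∧ mnr f A = s then 1 else 0)
  have h2 := bad f E i0 i1 j1 hE
  rw [Finset.card_filter] at h2 ⊢
  calc Fintype.card (Fin m × Fin n → ZMod p) * (p * (p * ∑ A : Fin m × Fin n → ZMod p,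
        if mnr f (A + E) = r ∧ mnr f A = s then 1 else 0)) =
      p * (p * (Fintype.card (Fin m × Fin n → ZMod p) * ∑ A : Fin m × Fin n → ZMod p,
        if mnr f (A + E) = r ∧ mnr f A = s then 1 else 0)) := by ring
    _ = ∑ A : Fin m × Fin n → ZMod p, p * (p * (∑ y : Fin m × Fin n → ZMod p,
        if mnr f (upd (fun k : Fin m × Fin n => k.1 = i0.1) A y + E) = r ∧
          mnr f (upd (fun k : Fin m × Fin n => k.1 = i0.1) A y) = s then 1 else 0)) := by
        rw [← h1, Finset.mul_sum, Finset.mul_sum]
    _ ≤ _ := Finset.sum_le_sum fun A _ => key A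
    _ = Fintype.card (Fin m × Fin n → ZMod p) * Fintype.card (Fin m × Fin n → ZMod p) +
        Fintype.card (Fin m × Fin n → ZMod p) * (p * ∑ A : Fin m × Fin n → ZMod p,
          if mnr f (upd (fun k : Fin m × Fin n => k.1 = i0.1) A
            (fun k => E (i1.1, k.2))) = 0 then 1 else 0) := by
        rw [Finset.sum_add_distrib, sum_const, card_univ, smul_eq_mul, ← Finset.mul_sum,
          ← Finset.mul_sum]
    _ ≤ Fintype.card (Fin m × Fin n → ZMod p) * Fintype.card (Fin m × Fin n → ZMod p) +
        Fintype.card (Fin m × Fin n → ZMod p) * (m * Fintype.card (Fin m × Fin n → ZMod p)) :=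
        Nat.add_le_add_left (Nat.mul_le_mul_left _ h2) _
    _ = _ := by ring

end minors

/-- the minor of the shifted matrix -/
def mn {m n : ℕ} {I : Finset (Fin m)} (f : I ↪ Fin n) (D : Fin m × Fin n → ℤ) (R : Type)
    [CommRing R] (A : Fin m × Fin n → R) : R :=
  mnr f (fun k => A k + ((D k : ℤ) : R))

theorem mn_nat {m n : ℕ} {I : Finset (Fin m)} (f : I ↪ Fin n) (D : Fin m × Fin n → ℤ) :
    Natural (mn f D) := by
  intro R R' _ _ φ x
  unfold mn mnr
  rw [RingHom.map_det]
  congr 1
  ext a b
  simp [Matrix.map_apply]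

/-- **minors of neighbours** -/
theorem neighbours {ι : Type} [Fintype ι] (m n K : ℕ) (I : ι → Finset (Fin m))
    (f : ∀ j, I j ↪ Fin n) (D : ι → Fin m × Fin n → ℤ) (hI : ∀ j, (I j).Nonempty)
    (hD : ∀ j k, |D j k| ≤ K)
    (hne : ∀ j k, j ≠ k → I j = I k → Set.range (f j) = Set.range (f k) → 2 ≤ (I j).card ∧
      ∃ a b : I j, D j (a.1, f j b) ≠ D k (a.1, f j b)) :
    ∃ c : ℝ, 0 < c ∧ ∃ Z₀ : ℝ, ∀ Z : ℕ, Z₀ ≤ Z →
    ∀ M : Fin m × Fin n → ℤ, ∃ A : Fin m × Fin n → ℤ, (∀ k, M k < A k ∧ A k ≤ M k + Z) ∧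
      ∀ j, ∀ t : ℤ,
        |(t : ℝ) - ((mnr (f j) (A + D j) : ℤ) : ℝ)| ≤ c * Pool.Agent.H256R2.SC.ff Z →
        ∃ p : ℕ, p.Prime ∧ (p : ℝ) ≤ (Z : ℝ) ^ (1 / 10 : ℝ) ∧ (p : ℤ) ∣ t := by
  classical
  obtain ⟨N, hN⟩ : ∃ N, N = Fintype.card ι := ⟨_, rfl⟩
  obtain ⟨e⟩ : Nonempty (ι ≃ Fin N) := by rw [hN]; exact ⟨Fintype.equivFin ι⟩
  obtain ⟨P, hP⟩ : ∃ P : ι → ℕ, ∀ j, P j = Nat.nth Nat.Prime (e j) := ⟨_, fun _ => rfl⟩
  have hPp : ∀ j, (P j).Prime := fun j => by rw [hP]; exact Nat.prime_nth_prime _
  have hPinj : ∀ j k, P j = P k → j = k := by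
    intro j k h
    rw [hP, hP] at h
    have h1 := Nat.nth_injective Nat.infinite_setOfPred_prime h
    exact e.injective (Fin.ext h1)
  obtain ⟨B₀, hB₀⟩ : ∃ B₀ : ℕ, ∀ j, P j ≤ B₀ :=
    ⟨∑ j, P j, fun j => single_le_sum (f := P) (fun _ _ => Nat.zero_le _) (mem_univ j)⟩
  have hmn : ∀ (p : ℕ) (j : ι) (A : Fin m × Fin n → ZMod p),
      mn (f j) (D j) (ZMod p) A = mnr (f j) (A + fun k => ((D j k : ℤ) : ZMod p)) :=
    fun _ _ _ => rfl
  obtain ⟨c, hc, Z₀, h⟩ := critN (fun j => mn (f j) (D j)) (fun j => mn_nat _ _)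
    (by
      intro j
      by_contra hcon
      push Not at hcon
      have h1 := hcon (fun k => - D j k)
      have h2 := hcon (fun k => (if ∃ i : I j, k = (i.1, f j i) then 1 else 0) - D j k)
      have h3 : mn (f j) (D j) ℤ (fun k => - D j k) = 0 := by
        unfold mn mnr
        obtain ⟨i, hi⟩ := hI j
        refine Matrix.det_eq_zero_of_row_eq_zero ⟨i, hi⟩ fun b => ?_
        simp
      have h4 : mn (f j) (D j) ℤ (fun k => (if ∃ i : I j, k = (i.1, f j i) then 1 else 0) -
          D j k) = 1 := by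
        unfold mn mnr
        have h5 : (Matrix.of fun a b : I j =>
            ((fun k => (if ∃ i : I j, k = (i.1, f j i) then 1 else 0) - D j k) (a.1, f j b) : ℤ) +
              ((D j (a.1, f j b) : ℤ) : ℤ)) = 1 := by
          ext a b
          rw [Matrix.of_apply, Matrix.one_apply]
          simp only [Int.cast_id, sub_add_cancel]
          by_cases hab : a = b
          · rw [if_pos ⟨a, by rw [hab]⟩, if_pos hab]
          · rw [if_neg, if_neg hab]
            rintro ⟨i, hi⟩
            rw [Prod.mk.injEq] at hi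
            apply hab
            rw [Subtype.ext hi.1]
            exact ((f j).injective hi.2).symm
        exact (congrArg Matrix.det h5).trans Matrix.det_one
      rw [← h1, h3, h4] at h2
      exact one_ne_zero h2)
    B₀ (2 * K)
    (fun p k => if h : ∃ j, P j = p then - D h.choose k else 0)
    (fun _ => {0})
    (by
      intro j r hr
      rw [mem_singleton] at hr
      subst hr
      refine ⟨P j, hPp j, hB₀ j, ?_⟩
      have h1 : ∃ k, P k = P j := ⟨j, rfl⟩
      have h2 : h1.choose = j := hPinj _ _ h1.choose_spec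
      have h3 : mn (f j) (D j) ℤ (fun k => if h : ∃ i, P i = P j then - D h.choose k else 0) =
          0 := by
        unfold mn mnr
        obtain ⟨i, hi⟩ := hI j
        refine Matrix.det_eq_zero_of_row_eq_zero ⟨i, hi⟩ fun b => ?_
        show (if h : ∃ i, P i = P j then - D h.choose (i, f j b) else 0) +
          D j (i, f j b) = 0
        rw [dif_pos h1, h2]
        ring
      rw [sub_zero]
      show ((P j : ℕ) : ℤ) ∣ mn (f j) (D j) ℤ
        (fun k => if h : ∃ i, P i = P j then - D h.choose k else 0)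
      rw [h3]
      exact dvd_zero _)
    (m + 1)
    (by
      intro p hp hpK j r hr
      have hr0 : r ≠ 0 := by simpa using hr 0 (mem_singleton_self _)
      have h1 := cn_bounds (lin_row (p := p) (f j) ⟨(hI j).choose, (hI j).choose_spec⟩)
        (mnr_zero (f j)) hr0
      rw [← cn_shift (f j) (fun k => ((D j k : ℤ) : ZMod p))] at h1
      obtain ⟨h2, h3⟩ := h1
      have h4 : m * Fintype.card (Fin m × Fin n → ZMod p) ≤
          (m + 1) * Fintype.card (Fin m × Fin n → ZMod p) := Nat.mul_le_mul_right _ (by omega)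
      exact ⟨(Nat.mul_le_mul_left p h2).trans (Nat.le_add_right _ _),
        h3.trans (Nat.add_le_add_left h4 _)⟩)
    (by
      intro p hp hpK j k hjk r s hr hs
      have hr0 : r ≠ 0 := by simpa using hr 0 (mem_singleton_self _)
      have hs0 : s ≠ 0 := by simpa using hs 0 (mem_singleton_self _)
      have h1V : Fintype.card (Fin m × Fin n → ZMod p) ≤
          (m + 1) * Fintype.card (Fin m × Fin n → ZMod p) := by
        nlinarith [Nat.zero_le (Fintype.card (Fin m × Fin n → ZMod p))]
      by_cases hIf : I j = I k ∧ Set.range (f j) = Set.range (f k)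
      · obtain ⟨hI1, hI2⟩ := hIf
        obtain ⟨h2, a, b, hab⟩ := hne j k hjk hI1 hI2
        obtain ⟨i0, hi0⟩ : ∃ i0 : I j, a ≠ i0 := by
          obtain ⟨i0, h3, h4⟩ := exists_mem_ne (by omega : 1 < (I j).card) a.1
          exact ⟨⟨i0, h3⟩, fun h5 => h4 (by rw [h5])⟩
        have hE : ((fun k' => ((D j k' : ℤ) : ZMod p)) - (fun k' => ((D k k' : ℤ) : ZMod p)))
            (a.1, f j b) ≠ 0 := by
          intro h3
          rw [Pi.sub_apply, ← Int.cast_sub, ZMod.intCast_zmod_eq_zero_iff_dvd] at h3
          have h5 : D j (a.1, f j b) - D k (a.1, f j b) = 0 := by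
            refine Int.eq_zero_of_abs_lt_dvd h3 ?_
            have c1 := hD j (a.1, f j b)
            have c2 := hD k (a.1, f j b)
            have c3 : ((2 * K : ℕ) : ℤ) < (p : ℤ) := by exact_mod_cast hpK
            push_cast at c3
            rw [abs_le] at c1 c2
            rw [abs_lt]
            constructor <;> linarith [c1.1, c1.2, c2.1, c2.2]
          exact hab (by omega)
        -- the minor `f k` is up to sign the minor `f j`
        obtain ⟨ε, hε, hεm⟩ : ∃ ε : ZMod p, ε * ε = 1 ∧ ∀ A : Fin m × Fin n → ZMod p,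
            mnr (f k) A = ε * mnr (f j) A := by
          obtain ⟨Ik, hIk⟩ : ∃ Ik, Ik = I k := ⟨_, rfl⟩
          obtain ⟨fk, hfk⟩ : ∃ fk : Ik ↪ Fin n, HEq fk (f k) := by
            subst hIk
            exact ⟨f k, HEq.rfl⟩
          have hr' : Set.range (f j) = Set.range fk := by
            subst hIk
            rw [hI2, eq_of_heq hfk]
          have hm' : ∀ A : Fin m × Fin n → ZMod p, mnr fk A = mnr (f k) A := by
            subst hIk
            intro A
            rw [eq_of_heq hfk]
          have hIjk : Ik = I j := hIk.trans hI1.symm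
          subst hIjk
          -- a permutation
          have hex : ∀ i : I j, ∃ i' : I j, f j i' = fk i := by
            intro i
            have : fk i ∈ Set.range (f j) := by rw [hr']; exact ⟨i, rfl⟩
            exact this
          choose σ hσ using hex
          have hσi : Function.Injective σ := by
            intro x y hxy
            apply fk.injective
            rw [← hσ, ← hσ, hxy]
          obtain ⟨τ, hτ⟩ : ∃ τ : Equiv.Perm (I j), ∀ i, τ i = σ i :=
            ⟨Equiv.ofBijective σ (Finite.injective_iff_bijective.mp hσi), fun _ => rfl⟩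
          refine ⟨((Equiv.Perm.sign τ : ℤ) : ZMod p), ?_, fun A => ?_⟩
          · rw [← Int.cast_mul, ← Units.val_mul, Int.units_mul_self]
            simp
          · rw [← hm']
            unfold mnr
            rw [← Matrix.det_permute' τ]
            congr 1
            ext x y
            rw [Matrix.submatrix_apply, Matrix.of_apply, Matrix.of_apply, id, hτ, hσ]
        have hε0 : ε ≠ 0 := by
          rintro rfl
          simp at hε
        have key := same (p := p) (f j) _ i0 a b hi0 hE (r := r) (s := ε * s) hr0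
          (mul_ne_zero hε0 hs0)
        rw [← two_shift] at key
        refine le_trans (le_of_eq ?_) key
        congr 3
        ext A
        rw [mem_filter, mem_filter, hmn, hmn, hεm]
        have : ∀ x : ZMod p, ε * x = s ↔ x = ε * s := by
          intro x
          constructor
          · intro h
            rw [← h, ← mul_assoc, hε, one_mul]
          · intro h
            rw [h, ← mul_assoc, hε, one_mul]
        rw [this]
      · have hne' : I j ≠ I k ∨ Set.range (f j) ≠ Set.range (f k) := by
          by_contra hcon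
          push Not at hcon
          exact hIf hcon
        have key := pairs' (p := p) (f j) (f k) (hI j) (hI k) hne'
          (fun k' => ((D j k' : ℤ) : ZMod p)) (fun k' => ((D k k' : ℤ) : ZMod p)) hr0 hs0
        exact key.trans h1V)
  refine ⟨c, hc, Z₀, fun Z hZ M => ?_⟩
  obtain ⟨A, hA1, hA2⟩ := h Z hZ M
  exact ⟨A, hA1, fun j t ht => hA2 j t ht⟩

end Pool.Agent.X145.ML
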