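import Pool.Agent.X145.ML.CritN

/-!
Record gaps around the values of polynomials `A(x) y + B(z)`.
-/

set_option autoImplicit false

namespace Pool.Agent.X145.ML

open Finset Pool.Agent.X145.PM

section defs

variable {α β : Type}

/-- the point with the coordinates `x`, `z`, `y` -/
def mk3 {R : Type} (x : α → R) (z : β → R) (y : R) : (α ⊕ β) ⊕ Unit → R :=
  Sum.elim (Sum.elim x z) (fun _ => y)

/-- `A(x) y + B(z)` -/
noncomputable def lin (A : MvPolynomial α ℤ) (B : MvPolynomial β ℤ) (R : Type) [CommRing R]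
    (u : (α ⊕ β) ⊕ Unit → R) : R :=
  MvPolynomial.aeval (fun i => u (Sum.inl (Sum.inl i))) A * u (Sum.inr ()) +
    MvPolynomial.aeval (fun i => u (Sum.inl (Sum.inr i))) B

theorem lin_nat (A : MvPolynomial α ℤ) (B : MvPolynomial β ℤ) : Natural (lin A B) := by
  intro R R' _ _ φ u
  unfold lin
  rw [map_add, map_mul]
  have h1 := MvPolynomial.comp_aeval_apply (fun i => u (Sum.inl (Sum.inl i))) φ.toIntAlgHom A
  have h2 := MvPolynomial.comp_aeval_apply (fun i => u (Sum.inl (Sum.inr i))) φ.toIntAlgHom B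
  have h1' : φ (MvPolynomial.aeval (fun i => u (Sum.inl (Sum.inl i))) A) =
      MvPolynomial.aeval (fun i => φ (u (Sum.inl (Sum.inl i)))) A := h1
  have h2' : φ (MvPolynomial.aeval (fun i => u (Sum.inl (Sum.inr i))) B) =
      MvPolynomial.aeval (fun i => φ (u (Sum.inl (Sum.inr i)))) B := h2
  rw [h1', h2']

end defs

section count

variable {α β : Type} [Fintype α] [DecidableEq α] [Fintype β] [DecidableEq β] {p : ℕ}
  [hp : Fact p.Prime]

theorem card_split (Q : ((α ⊕ β) ⊕ Unit → ZMod p) → Prop) [DecidablePred Q] :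
    (univ.filter Q).card = ∑ x : α → ZMod p, ∑ z : β → ZMod p,
      (univ.filter (fun y : ZMod p => Q (mk3 x z y))).card := by
  classical
  obtain ⟨e, he⟩ : ∃ e : ((α → ZMod p) × (β → ZMod p) × ZMod p) ≃ ((α ⊕ β) ⊕ Unit → ZMod p),
      ∀ q, e q = mk3 q.1 q.2.1 q.2.2 := by
    refine ⟨{
      toFun := fun q => mk3 q.1 q.2.1 q.2.2
      invFun := fun u => (fun i => u (Sum.inl (Sum.inl i)), fun i => u (Sum.inl (Sum.inr i)),
        u (Sum.inr ()))
      left_inv := fun q => rfl
      right_inv := ?_ }, fun q => rfl⟩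
    intro u
    funext k
    rcases k with (k | k) | k <;> rfl
  rw [Finset.card_filter, ← Equiv.sum_comp e, Fintype.sum_prod_type]
  refine Finset.sum_congr rfl fun x _ => ?_
  rw [Fintype.sum_prod_type]
  refine Finset.sum_congr rfl fun z _ => ?_
  rw [Finset.card_filter]
  refine Finset.sum_congr rfl fun y _ => ?_
  rw [he]

theorem card_V3 : Fintype.card ((α ⊕ β) ⊕ Unit → ZMod p) =
    Fintype.card (α → ZMod p) * Fintype.card (β → ZMod p) * p := by
  rw [Fintype.card_fun, Fintype.card_fun, Fintype.card_fun, ZMod.card, Fintype.card_sum,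
    Fintype.card_sum, Fintype.card_unit]
  ring

theorem ev_map {γ : Type} (A : MvPolynomial γ ℤ) (x : γ → ZMod p) :
    MvPolynomial.aeval x A = MvPolynomial.eval x (MvPolynomial.map (Int.castRingHom (ZMod p)) A) := by
  rw [MvPolynomial.eval_map]
  rfl

/-- number of zeros of `A` -/
theorem zeros {γ : Type} [Fintype γ] [DecidableEq γ] (A : MvPolynomial γ (ZMod p)) (hA : A ≠ 0)
    {D : ℕ} (hD : A.totalDegree ≤ D) :
    p * (univ.filter (fun x : γ → ZMod p => MvPolynomial.eval x A = 0)).card ≤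
      D * Fintype.card (γ → ZMod p) :=
  (sz A hA).trans (Nat.mul_le_mul_right _ hD)

theorem map_deg {γ : Type} (A : MvPolynomial γ ℤ) :
    (MvPolynomial.map (Int.castRingHom (ZMod p)) A).totalDegree ≤ A.totalDegree := by
  unfold MvPolynomial.totalDegree
  exact Finset.sup_mono (MvPolynomial.support_map_subset _ _)

/-- one equation -/
theorem lin_one (A : MvPolynomial α ℤ) (B : MvPolynomial β ℤ) (D : ℕ) (hAD : A.totalDegree ≤ D)
    (hBD : B.totalDegree ≤ D) (hA : MvPolynomial.map (Int.castRingHom (ZMod p)) A ≠ 0)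
    (e : β →₀ ℕ) (he : e ≠ 0) (hB : ((B.coeff e : ℤ) : ZMod p) ≠ 0) (r : ZMod p) :
    p * (p * cn (lin A B (ZMod p)) r) ≤ p * Fintype.card ((α ⊕ β) ⊕ Unit → ZMod p) +
        D * D * Fintype.card ((α ⊕ β) ⊕ Unit → ZMod p) ∧
      p * Fintype.card ((α ⊕ β) ⊕ Unit → ZMod p) ≤ p * (p * cn (lin A B (ZMod p)) r) +
        D * Fintype.card ((α ⊕ β) ⊕ Unit → ZMod p) := by
  classical
  obtain ⟨VA, hVA⟩ : ∃ VA, VA = Fintype.card (α → ZMod p) := ⟨_, rfl⟩
  obtain ⟨VB, hVB⟩ : ∃ VB, VB = Fintype.card (β → ZMod p) := ⟨_, rfl⟩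
  obtain ⟨ZA, hZA⟩ : ∃ ZA, ZA = (univ.filter (fun x : α → ZMod p =>
    MvPolynomial.aeval x A = 0)).card := ⟨_, rfl⟩
  obtain ⟨NB, hNB⟩ : ∃ NB, NB = (univ.filter (fun z : β → ZMod p =>
    MvPolynomial.aeval z B = r)).card := ⟨_, rfl⟩
  have h1 : p * ZA ≤ D * VA := by
    have := zeros (p := p) _ hA ((map_deg A).trans hAD)
    rw [hZA, hVA]
    simp only [ev_map]
    exact this
  have h2 : p * NB ≤ D * VB := by
    have hne : MvPolynomial.map (Int.castRingHom (ZMod p)) B - MvPolynomial.C r ≠ 0 := by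
      intro h
      have h3 := congrArg (MvPolynomial.coeff e) h
      rw [MvPolynomial.coeff_sub, MvPolynomial.coeff_map, MvPolynomial.coeff_C,
        if_neg (Ne.symm he), sub_zero, MvPolynomial.coeff_zero] at h3
      exact hB h3
    have hdeg : (MvPolynomial.map (Int.castRingHom (ZMod p)) B - MvPolynomial.C r).totalDegree ≤ D := by
      refine (MvPolynomial.totalDegree_sub _ _).trans ?_
      rw [MvPolynomial.totalDegree_C]
      exact max_le ((map_deg B).trans hBD) (Nat.zero_le _)
    have := zeros (p := p) _ hne hdeg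
    rw [hNB, hVB]
    simp only [ev_map]
    simp only [map_sub, MvPolynomial.eval_C, sub_eq_zero] at this
    exact this
  have hcn : cn (lin A B (ZMod p)) r + ZA * VB = VA * VB + ZA * (p * NB) := by
    have e0 : cn (lin A B (ZMod p)) r = ∑ x : α → ZMod p, ∑ z : β → ZMod p,
        if MvPolynomial.aeval x A = 0 then (if MvPolynomial.aeval z B = r then p else 0) else 1 := by
      unfold cn
      rw [card_split]
      refine Finset.sum_congr rfl fun x _ => Finset.sum_congr rfl fun z _ => ?_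
      have e1 : ∀ y : ZMod p, lin A B (ZMod p) (mk3 x z y) =
        MvPolynomial.aeval x A * y + MvPolynomial.aeval z B := fun y => rfl
      simp only [e1]
      by_cases hx : MvPolynomial.aeval x A = 0
      · rw [if_pos hx]
        by_cases hz : MvPolynomial.aeval z B = r
        · rw [if_pos hz, Finset.filter_true_of_mem, card_univ, ZMod.card]
          intro y _
          rw [hx, zero_mul, zero_add, hz]
        · rw [if_neg hz, Finset.card_eq_zero, Finset.filter_eq_empty_iff]
          intro y _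
          rw [hx, zero_mul, zero_add]
          exact hz
      · rw [if_neg hx, Finset.card_eq_one]
        refine ⟨(r - MvPolynomial.aeval z B) / MvPolynomial.aeval x A, ?_⟩
        ext y
        rw [mem_filter, mem_singleton, eq_div_iff hx]
        constructor
        · rintro ⟨-, h⟩
          rw [← h]
          ring
        · intro h
          refine ⟨mem_univ _, ?_⟩
          linear_combination h
    have e2 : ZA * VB = ∑ x : α → ZMod p, ∑ z : β → ZMod p,
        if MvPolynomial.aeval x A = 0 then 1 else 0 := by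
      simp only [sum_const, card_univ, smul_eq_mul]
      rw [← Finset.mul_sum, ← Finset.card_filter, hZA, hVB, mul_comm]
    have e3 : VA * VB = ∑ x : α → ZMod p, ∑ z : β → ZMod p, 1 := by
      simp only [sum_const, card_univ, smul_eq_mul, mul_one]
      rw [hVA, hVB]
    have e4 : ZA * (p * NB) = ∑ x : α → ZMod p, ∑ z : β → ZMod p,
        (if MvPolynomial.aeval x A = 0 then 1 else 0) *
          (p * if MvPolynomial.aeval z B = r then 1 else 0) := by
      rw [hZA, hNB, Finset.card_filter, Finset.card_filter, Finset.mul_sum,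
        Finset.sum_mul_sum]
    rw [e0, e2, e3, e4, ← Finset.sum_add_distrib, ← Finset.sum_add_distrib]
    refine Finset.sum_congr rfl fun x _ => ?_
    rw [← Finset.sum_add_distrib, ← Finset.sum_add_distrib]
    refine Finset.sum_congr rfl fun z _ => ?_
    by_cases hx : MvPolynomial.aeval x A = 0 <;> by_cases hz : MvPolynomial.aeval z B = r <;>
      simp [hx, hz, add_comm]
  rw [card_V3, ← hVA, ← hVB]
  obtain ⟨cc, hcc⟩ : ∃ cc, cc = cn (lin A B (ZMod p)) r := ⟨_, rfl⟩
  rw [← hcc] at hcn ⊢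
  have h3 : p * (p * cc) + p * ((p * ZA) * VB) = p * (VA * VB * p) + p * ((p * ZA) * (p * NB)) := by
    calc _ = p * p * (cc + ZA * VB) := by ring
      _ = p * p * (VA * VB + ZA * (p * NB)) := by rw [hcn]
      _ = _ := by ring
  have h4 : p * ((p * ZA) * VB) ≤ D * (VA * VB * p) := by
    calc p * ((p * ZA) * VB) ≤ p * ((D * VA) * VB) :=
          Nat.mul_le_mul_left _ (Nat.mul_le_mul_right _ h1)
      _ = _ := by ring
  have h5 : p * ((p * ZA) * (p * NB)) ≤ D * D * (VA * VB * p) := by
    calc p * ((p * ZA) * (p * NB)) ≤ p * ((D * VA) * (D * VB)) :=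
          Nat.mul_le_mul_left _ (Nat.mul_le_mul h1 h2)
      _ = _ := by ring
  constructor
  · calc p * (p * cc) ≤ p * (p * cc) + p * ((p * ZA) * VB) := Nat.le_add_right _ _
      _ = p * (VA * VB * p) + p * ((p * ZA) * (p * NB)) := h3
      _ ≤ _ := Nat.add_le_add_left h5 _
  · calc p * (VA * VB * p) ≤ p * (VA * VB * p) + p * ((p * ZA) * (p * NB)) := Nat.le_add_right _ _
      _ = p * (p * cc) + p * ((p * ZA) * VB) := h3.symm
      _ ≤ _ := Nat.add_le_add_left h4 _

/-- two equations -/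
theorem lin_two (A A' : MvPolynomial α ℤ) (B B' : MvPolynomial β ℤ) (D : ℕ)
    (hAD : A.totalDegree ≤ D) (hAD' : A'.totalDegree ≤ D)
    (hBD : B.totalDegree ≤ D) (hBD' : B'.totalDegree ≤ D)
    (hA : MvPolynomial.map (Int.castRingHom (ZMod p)) A ≠ 0)
    (e : β →₀ ℕ) (he : e ≠ 0) (hB : ((B.coeff e : ℤ) : ZMod p) ≠ 0)
    (hT : MvPolynomial.map (Int.castRingHom (ZMod p)) (MvPolynomial.C (B.coeff e) * A' -
        MvPolynomial.C (B'.coeff e) * A) ≠ 0 ∨ ∃ e' : β →₀ ℕ, e' ≠ 0 ∧
        ((B.coeff e * B'.coeff e' - B'.coeff e * B.coeff e' : ℤ) : ZMod p) ≠ 0)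
    (r s : ZMod p) :
    p * (p * (univ.filter (fun u : (α ⊕ β) ⊕ Unit → ZMod p =>
      lin A B (ZMod p) u = r ∧ lin A' B' (ZMod p) u = s)).card) ≤
      (D * D + D + D) * Fintype.card ((α ⊕ β) ⊕ Unit → ZMod p) := by
  classical
  obtain ⟨VA, hVA⟩ : ∃ VA, VA = Fintype.card (α → ZMod p) := ⟨_, rfl⟩
  obtain ⟨VB, hVB⟩ : ∃ VB, VB = Fintype.card (β → ZMod p) := ⟨_, rfl⟩
  obtain ⟨ZA, hZA⟩ : ∃ ZA, ZA = (univ.filter (fun x : α → ZMod p =>
    MvPolynomial.aeval x A = 0)).card := ⟨_, rfl⟩
  obtain ⟨NB, hNB⟩ : ∃ NB, NB = (univ.filter (fun z : β → ZMod p =>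
    MvPolynomial.aeval z B = r)).card := ⟨_, rfl⟩
  have h1 : p * ZA ≤ D * VA := by
    have := zeros (p := p) _ hA ((map_deg A).trans hAD)
    rw [hZA, hVA]
    simp only [ev_map]
    exact this
  have h2 : p * NB ≤ D * VB := by
    have hne : MvPolynomial.map (Int.castRingHom (ZMod p)) B - MvPolynomial.C r ≠ 0 := by
      intro h
      have h3 := congrArg (MvPolynomial.coeff e) h
      rw [MvPolynomial.coeff_sub, MvPolynomial.coeff_map, MvPolynomial.coeff_C,
        if_neg (Ne.symm he), sub_zero, MvPolynomial.coeff_zero] at h3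
      exact hB h3
    have hdeg : (MvPolynomial.map (Int.castRingHom (ZMod p)) B - MvPolynomial.C r).totalDegree ≤ D := by
      refine (MvPolynomial.totalDegree_sub _ _).trans ?_
      rw [MvPolynomial.totalDegree_C]
      exact max_le ((map_deg B).trans hBD) (Nat.zero_le _)
    have := zeros (p := p) _ hne hdeg
    rw [hNB, hVB]
    simp only [ev_map]
    simp only [map_sub, MvPolynomial.eval_C, sub_eq_zero] at this
    exact this
  -- elimination
  obtain ⟨E, hE⟩ : ∃ E : (α → ZMod p) → MvPolynomial β (ZMod p), ∀ x, E x =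
      MvPolynomial.C (MvPolynomial.aeval x A') *
        (MvPolynomial.C r - MvPolynomial.map (Int.castRingHom (ZMod p)) B) -
      MvPolynomial.C (MvPolynomial.aeval x A) *
        (MvPolynomial.C s - MvPolynomial.map (Int.castRingHom (ZMod p)) B') := ⟨_, fun _ => rfl⟩
  have hEev : ∀ x z, MvPolynomial.eval z (E x) = MvPolynomial.aeval x A' *
      (r - MvPolynomial.aeval z B) - MvPolynomial.aeval x A * (s - MvPolynomial.aeval z B') := by
    intro x z
    rw [hE]
    simp only [map_sub, map_mul, MvPolynomial.eval_C, ← ev_map]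
  have hEdeg : ∀ x, (E x).totalDegree ≤ D := by
    intro x
    rw [hE]
    have h3 : ∀ (t q : ZMod p) (B : MvPolynomial β ℤ), B.totalDegree ≤ D →
        (MvPolynomial.C t * (MvPolynomial.C q -
          MvPolynomial.map (Int.castRingHom (ZMod p)) B)).totalDegree ≤ D := by
      intro t q B hB
      refine (MvPolynomial.totalDegree_mul _ _).trans ?_
      rw [MvPolynomial.totalDegree_C, zero_add]
      refine (MvPolynomial.totalDegree_sub _ _).trans ?_
      rw [MvPolynomial.totalDegree_C]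
      exact max_le (Nat.zero_le _) ((map_deg B).trans hB)
    exact (MvPolynomial.totalDegree_sub _ _).trans (max_le (h3 _ _ _ hBD) (h3 _ _ _ hBD'))
  have hEc : ∀ x, E x = 0 → ∀ e' : β →₀ ℕ, e' ≠ 0 →
      MvPolynomial.aeval x A * ((B'.coeff e' : ℤ) : ZMod p) =
        MvPolynomial.aeval x A' * ((B.coeff e' : ℤ) : ZMod p) := by
    intro x hx e' he'
    have h3 := congrArg (MvPolynomial.coeff e') hx
    rw [hE, MvPolynomial.coeff_sub, MvPolynomial.coeff_C_mul, MvPolynomial.coeff_C_mul,
      MvPolynomial.coeff_sub, MvPolynomial.coeff_sub, MvPolynomial.coeff_C, MvPolynomial.coeff_C,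
      if_neg (Ne.symm he'), if_neg (Ne.symm he'), MvPolynomial.coeff_map, MvPolynomial.coeff_map,
      MvPolynomial.coeff_zero] at h3
    have h4 : MvPolynomial.aeval x A' * (0 - ((B.coeff e' : ℤ) : ZMod p)) -
      MvPolynomial.aeval x A * (0 - ((B'.coeff e' : ℤ) : ZMod p)) = 0 := h3
    linear_combination h4
  -- the bad points
  obtain ⟨W, hW⟩ : ∃ W, W = (univ.filter (fun x : α → ZMod p => E x = 0 ∧
    ¬ (MvPolynomial.aeval x A = 0 ∧ MvPolynomial.aeval x A' = 0))).card := ⟨_, rfl⟩
  have hbad : p * W ≤ D * VA := by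
    rcases hT with hT | ⟨e', he', hT⟩
    · have hdeg : (MvPolynomial.map (Int.castRingHom (ZMod p)) (MvPolynomial.C (B.coeff e) * A' -
          MvPolynomial.C (B'.coeff e) * A)).totalDegree ≤ D := by
        refine (map_deg _).trans ((MvPolynomial.totalDegree_sub _ _).trans (max_le ?_ ?_))
        · refine (MvPolynomial.totalDegree_mul _ _).trans ?_
          rw [MvPolynomial.totalDegree_C, zero_add]
          exact hAD'
        · refine (MvPolynomial.totalDegree_mul _ _).trans ?_
          rw [MvPolynomial.totalDegree_C, zero_add]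
          exact hAD
      have h3 := zeros (p := p) _ hT hdeg
      rw [hW, hVA]
      refine (Nat.mul_le_mul_left p (card_le_card fun x hx => ?_)).trans h3
      rw [mem_filter] at hx ⊢
      refine ⟨mem_univ _, ?_⟩
      have h4 := hEc x hx.2.1 e he
      rw [← ev_map, map_sub, map_mul, map_mul, MvPolynomial.aeval_C, MvPolynomial.aeval_C]
      show ((B.coeff e : ℤ) : ZMod p) * _ - ((B'.coeff e : ℤ) : ZMod p) * _ = 0
      linear_combination -h4
    · have h3 : W = 0 := by
        rw [hW, Finset.card_eq_zero, Finset.filter_eq_empty_iff]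
        rintro x _ ⟨h4, h5⟩
        have h6 := hEc x h4 e he
        have h7 := hEc x h4 e' he'
        push_cast at hT
        apply h5
        constructor
        · have h8 : MvPolynomial.aeval x A * (((B.coeff e : ℤ) : ZMod p) * ((B'.coeff e' : ℤ) : ZMod p)
            - ((B'.coeff e : ℤ) : ZMod p) * ((B.coeff e' : ℤ) : ZMod p)) = 0 := by
            linear_combination ((B.coeff e : ℤ) : ZMod p) * h7 - ((B.coeff e' : ℤ) : ZMod p) * h6
          rcases mul_eq_zero.mp h8 with h9 | h9
          · exact h9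
          · exact absurd h9 hT
        · have h8 : MvPolynomial.aeval x A' * (((B.coeff e : ℤ) : ZMod p) * ((B'.coeff e' : ℤ) : ZMod p)
            - ((B'.coeff e : ℤ) : ZMod p) * ((B.coeff e' : ℤ) : ZMod p)) = 0 := by
            linear_combination ((B'.coeff e : ℤ) : ZMod p) * h7 - ((B'.coeff e' : ℤ) : ZMod p) * h6
          rcases mul_eq_zero.mp h8 with h9 | h9
          · exact h9
          · exact absurd h9 hT
      rw [h3, mul_zero]
      exact Nat.zero_le _
  -- pointwise
  have hpt : ∀ x z, (univ.filter (fun y : ZMod p => lin A B (ZMod p) (mk3 x z y) = r ∧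
      lin A' B' (ZMod p) (mk3 x z y) = s)).card ≤
      (if MvPolynomial.aeval x A = 0 then 1 else 0) *
          (p * if MvPolynomial.aeval z B = r then 1 else 0) +
      (if (E x = 0 ∧ ¬ (MvPolynomial.aeval x A = 0 ∧ MvPolynomial.aeval x A' = 0)) then 1 else 0) +
      (if (E x ≠ 0 ∧ MvPolynomial.eval z (E x) = 0) then 1 else 0) := by
    intro x z
    have e1 : ∀ y : ZMod p, lin A B (ZMod p) (mk3 x z y) =
      MvPolynomial.aeval x A * y + MvPolynomial.aeval z B := fun y => rfl
    have e2 : ∀ y : ZMod p, lin A' B' (ZMod p) (mk3 x z y) =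
      MvPolynomial.aeval x A' * y + MvPolynomial.aeval z B' := fun y => rfl
    simp only [e1, e2]
    by_cases hxx : MvPolynomial.aeval x A = 0 ∧ MvPolynomial.aeval x A' = 0
    · by_cases hz : MvPolynomial.aeval z B = r
      · rw [if_pos hxx.1, if_pos hz, one_mul, mul_one, add_assoc]
        refine le_trans ?_ (Nat.le_add_right _ _)
        exact (card_le_univ _).trans (by rw [ZMod.card])
      · have : (univ.filter (fun y : ZMod p => MvPolynomial.aeval x A * y +
            MvPolynomial.aeval z B = r ∧ MvPolynomial.aeval x A' * y +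
            MvPolynomial.aeval z B' = s)) = ∅ := by
          rw [Finset.filter_eq_empty_iff]
          rintro y _ ⟨h3, -⟩
          rw [hxx.1, zero_mul, zero_add] at h3
          exact hz h3
        rw [this, card_empty]
        exact Nat.zero_le _
    · have hle : (univ.filter (fun y : ZMod p => MvPolynomial.aeval x A * y +
            MvPolynomial.aeval z B = r ∧ MvPolynomial.aeval x A' * y +
            MvPolynomial.aeval z B' = s)).card ≤ 1 := by
        rw [Finset.card_le_one]
        intro y hy y' hy'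
        rw [mem_filter] at hy hy'
        rcases not_and_or.mp hxx with h3 | h3
        · exact mul_left_cancel₀ h3 (add_right_cancel (hy.2.1.trans hy'.2.1.symm))
        · exact mul_left_cancel₀ h3 (add_right_cancel (hy.2.2.trans hy'.2.2.symm))
      by_cases h3 : E x = 0
      · have hc : (if (E x = 0 ∧ ¬ (MvPolynomial.aeval x A = 0 ∧ MvPolynomial.aeval x A' = 0))
            then 1 else 0) = 1 := if_pos ⟨h3, hxx⟩
        rw [hc]
        exact hle.trans (by omega)
      · by_cases h4 : MvPolynomial.eval z (E x) = 0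
        · have hc : (if (E x ≠ 0 ∧ MvPolynomial.eval z (E x) = 0) then 1 else 0) = 1 :=
            if_pos ⟨h3, h4⟩
          rw [hc]
          exact hle.trans (by omega)
        · have : (univ.filter (fun y : ZMod p => MvPolynomial.aeval x A * y +
              MvPolynomial.aeval z B = r ∧ MvPolynomial.aeval x A' * y +
              MvPolynomial.aeval z B' = s)) = ∅ := by
            rw [Finset.filter_eq_empty_iff]
            rintro y _ ⟨h5, h6⟩
            apply h4
            rw [hEev, ← h5, ← h6]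
            ring
          rw [this, card_empty]
          exact Nat.zero_le _
  have hsum : (univ.filter (fun u : (α ⊕ β) ⊕ Unit → ZMod p =>
      lin A B (ZMod p) u = r ∧ lin A' B' (ZMod p) u = s)).card ≤
      ZA * (p * NB) + W * VB + ∑ x : α → ZMod p, ∑ z : β → ZMod p,
        (if (E x ≠ 0 ∧ MvPolynomial.eval z (E x) = 0) then 1 else 0) := by
    rw [card_split]
    refine (Finset.sum_le_sum fun x _ => Finset.sum_le_sum fun z _ => hpt x z).trans ?_
    simp only [Finset.sum_add_distrib]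
    refine Nat.add_le_add_right (Nat.add_le_add ?_ ?_) _
    · refine le_of_eq ?_
      rw [hZA, hNB, Finset.card_filter, Finset.card_filter, Finset.mul_sum, Finset.sum_mul_sum]
    · refine le_of_eq ?_
      simp only [sum_const, card_univ, smul_eq_mul]
      rw [← Finset.mul_sum, ← Finset.card_filter, hW, hVB, mul_comm]
  have hlast : p * ∑ x : α → ZMod p, ∑ z : β → ZMod p,
      (if (E x ≠ 0 ∧ MvPolynomial.eval z (E x) = 0) then 1 else 0) ≤ D * (VA * VB) := by
    rw [Finset.mul_sum]
    calc ∑ x : α → ZMod p, p * ∑ z : β → ZMod p,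
          (if (E x ≠ 0 ∧ MvPolynomial.eval z (E x) = 0) then 1 else 0) ≤
          ∑ x : α → ZMod p, D * VB := by
          refine Finset.sum_le_sum fun x _ => ?_
          by_cases h3 : E x = 0
          · simp [h3]
          · have h4 := zeros (p := p) _ h3 (hEdeg x)
            rw [Finset.card_filter] at h4
            simp only [h3, ne_eq, not_false_eq_true, true_and]
            rw [hVB]
            exact h4
      _ = D * (VA * VB) := by
          rw [sum_const, card_univ, smul_eq_mul, ← hVA]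
          ring
  obtain ⟨SS, hSS⟩ : ∃ SS, SS = ∑ x : α → ZMod p, ∑ z : β → ZMod p,
      (if (E x ≠ 0 ∧ MvPolynomial.eval z (E x) = 0) then 1 else 0) := ⟨_, rfl⟩
  rw [← hSS] at hsum hlast
  rw [card_V3, ← hVA, ← hVB]
  calc _ ≤ p * (p * (ZA * (p * NB) + W * VB + SS)) :=
        Nat.mul_le_mul_left _ (Nat.mul_le_mul_left _ hsum)
    _ = p * ((p * ZA) * (p * NB)) + p * ((p * W) * VB) + p * (p * SS) := by ring
    _ ≤ p * ((D * VA) * (D * VB)) + p * ((D * VA) * VB) + p * (D * (VA * VB)) :=
        Nat.add_le_add (Nat.add_le_add (Nat.mul_le_mul_left _ (Nat.mul_le_mul h1 h2))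
          (Nat.mul_le_mul_left _ (Nat.mul_le_mul_right _ hbad))) (Nat.mul_le_mul_left _ hlast)
    _ = _ := by ring

end count

/-- **the family theorem** -/
theorem linFamily {ι α β : Type} [Fintype ι] [Fintype α] [DecidableEq α] [Fintype β]
    [DecidableEq β] (A : ι → MvPolynomial α ℤ) (B : ι → MvPolynomial β ℤ) (hA : ∀ j, A j ≠ 0)
    (hB : ∀ j, ∀ k : ℤ, B j ≠ MvPolynomial.C k)
    (hne : ∀ i j, i ≠ j → ∀ μ ν κ : ℤ, μ ≠ 0 →
      MvPolynomial.C μ * A i = MvPolynomial.C ν * A j →
      MvPolynomial.C μ * B i ≠ MvPolynomial.C ν * B j + MvPolynomial.C κ) :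
    ∃ c : ℝ, 0 < c ∧ ∃ Z₀ : ℝ, ∀ Z : ℕ, Z₀ ≤ Z →
    ∀ M : (α ⊕ β) ⊕ Unit → ℤ, ∃ u : (α ⊕ β) ⊕ Unit → ℤ, (∀ k, M k < u k ∧ u k ≤ M k + Z) ∧
      ∀ j, ∀ t : ℤ,
        |(t : ℝ) - ((lin (A j) (B j) ℤ u : ℤ) : ℝ)| ≤ c * Pool.Agent.H256R2.SC.ff Z →
        ∃ p : ℕ, p.Prime ∧ (p : ℝ) ≤ (Z : ℝ) ^ (1 / 10 : ℝ) ∧ (p : ℤ) ∣ t := by
  classical
  have hBe : ∀ j, ∃ e : β →₀ ℕ, e ≠ 0 ∧ (B j).coeff e ≠ 0 := by
    intro j
    by_contra hcon
    push Not at hcon
    apply hB j ((B j).coeff 0)
    ext e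
    rw [MvPolynomial.coeff_C]
    by_cases he : 0 = e
    · rw [if_pos he, he]
    · rw [if_neg he]
      exact hcon e (Ne.symm he)
  choose e he heB using hBe
  have hAe : ∀ j, ∃ d, (A j).coeff d ≠ 0 := fun j => MvPolynomial.ne_zero_iff.mp (hA j)
  choose d hd using hAe
  have hw : ∀ i j, ∃ w : ℤ, i ≠ j → w ≠ 0 ∧ ∀ p : ℕ, (w : ZMod p) ≠ 0 →
      (MvPolynomial.map (Int.castRingHom (ZMod p)) (MvPolynomial.C ((B i).coeff (e i)) * A j -
        MvPolynomial.C ((B j).coeff (e i)) * A i) ≠ 0 ∨ ∃ e' : β →₀ ℕ, e' ≠ 0 ∧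
        (((B i).coeff (e i) * (B j).coeff e' - (B j).coeff (e i) * (B i).coeff e' : ℤ) :
          ZMod p) ≠ 0) := by
    intro i j
    by_cases hij : i = j
    · exact ⟨0, fun h => absurd hij h⟩
    by_cases hT : MvPolynomial.C ((B i).coeff (e i)) * A j -
        MvPolynomial.C ((B j).coeff (e i)) * A i = 0
    · obtain ⟨e', he', h1⟩ : ∃ e' : β →₀ ℕ, e' ≠ 0 ∧
          ((B i).coeff (e i) * (B j).coeff e' - (B j).coeff (e i) * (B i).coeff e' : ℤ) ≠ 0 := by
        by_contra hcon
        push Not at hcon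
        refine hne j i (Ne.symm hij) ((B i).coeff (e i)) ((B j).coeff (e i))
          ((B i).coeff (e i) * (B j).coeff 0 - (B j).coeff (e i) * (B i).coeff 0) (heB i)
          (sub_eq_zero.mp hT) ?_
        ext e'
        rw [MvPolynomial.coeff_add, MvPolynomial.coeff_C_mul, MvPolynomial.coeff_C_mul,
          MvPolynomial.coeff_C]
        by_cases he' : 0 = e'
        · rw [if_pos he', ← he']
          ring
        · rw [if_neg he', add_zero]
          exact sub_eq_zero.mp (hcon e' (Ne.symm he'))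
      exact ⟨_, fun _ => ⟨h1, fun p hp => Or.inr ⟨e', he', hp⟩⟩⟩
    · obtain ⟨d', hd'⟩ := MvPolynomial.ne_zero_iff.mp hT
      refine ⟨_, fun _ => ⟨hd', fun p hp => Or.inl fun h => hp ?_⟩⟩
      have h1 := congrArg (MvPolynomial.coeff d') h
      rw [MvPolynomial.coeff_map, MvPolynomial.coeff_zero] at h1
      exact h1
  choose w hw using hw
  obtain ⟨D, hD⟩ : ∃ D : ℕ, ∀ j, (A j).totalDegree ≤ D ∧ (B j).totalDegree ≤ D := by
    refine ⟨∑ j, ((A j).totalDegree + (B j).totalDegree), fun j => ?_⟩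
    have := single_le_sum (f := fun j => (A j).totalDegree + (B j).totalDegree)
      (fun _ _ => Nat.zero_le _) (mem_univ j)
    constructor <;> omega
  obtain ⟨B₁, hB₁⟩ : ∃ B₁ : ℕ, (∀ j, ((B j).coeff (e j)).natAbs ≤ B₁ ∧
      ((A j).coeff (d j)).natAbs ≤ B₁) ∧ ∀ i j, (w i j).natAbs ≤ B₁ := by
    refine ⟨(∑ j, (((B j).coeff (e j)).natAbs + ((A j).coeff (d j)).natAbs)) +
      ∑ i, ∑ j, (w i j).natAbs, fun j => ?_, fun i j => ?_⟩
    · have := single_le_sum (f := fun j => ((B j).coeff (e j)).natAbs +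
        ((A j).coeff (d j)).natAbs) (fun _ _ => Nat.zero_le _) (mem_univ j)
      constructor <;> omega
    · have h1 := single_le_sum (f := fun j => (w i j).natAbs)
        (fun _ _ => Nat.zero_le _) (mem_univ j)
      have h2 := single_le_sum (f := fun i => ∑ j, (w i j).natAbs)
        (fun _ _ => Nat.zero_le _) (mem_univ i)
      omega
  have hcast : ∀ p : ℕ, ∀ _ : Fact p.Prime, B₁ < p → ∀ z : ℤ, z ≠ 0 → z.natAbs ≤ B₁ →
      (z : ZMod p) ≠ 0 := by
    intro p _ hp z hz hzB h
    rw [ZMod.intCast_zmod_eq_zero_iff_dvd] at h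
    have := Nat.le_of_dvd (Int.natAbs_pos.mpr hz) (Int.natCast_dvd.mp h)
    omega
  have hAp : ∀ p : ℕ, ∀ _ : Fact p.Prime, B₁ < p → ∀ j,
      MvPolynomial.map (Int.castRingHom (ZMod p)) (A j) ≠ 0 := by
    intro p hp hpB j h
    have h1 := congrArg (MvPolynomial.coeff (d j)) h
    rw [MvPolynomial.coeff_map, MvPolynomial.coeff_zero] at h1
    exact hcast p hp hpB _ (hd j) (hB₁.1 j).2 h1
  refine critN (fun j => lin (A j) (B j)) (fun j => lin_nat _ _) ?_ 0 B₁ (fun _ _ => 0)
    (fun _ => ∅) (fun j r hr => absurd hr (notMem_empty _)) (D * D + D + D) ?_ ?_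
  · intro j
    obtain ⟨x₀, hx₀⟩ : ∃ x₀ : α → ℤ, MvPolynomial.aeval x₀ (A j) ≠ (0 : ℤ) := by
      by_contra hcon
      push Not at hcon
      apply hA j
      refine MvPolynomial.funext fun x => ?_
      rw [map_zero, ← MvPolynomial.aeval_eq_eval]
      exact hcon x
    by_contra hcon
    push Not at hcon
    have h1 := hcon (mk3 x₀ 0 1)
    have h2 := hcon (mk3 x₀ 0 0)
    have h3 : lin (A j) (B j) ℤ (mk3 x₀ 0 1) = MvPolynomial.aeval x₀ (A j) * 1 +
      MvPolynomial.aeval (0 : β → ℤ) (B j) := rfl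
    have h4 : lin (A j) (B j) ℤ (mk3 x₀ 0 0) = MvPolynomial.aeval x₀ (A j) * 0 +
      MvPolynomial.aeval (0 : β → ℤ) (B j) := rfl
    rw [← h2, h3, h4, mul_one, mul_zero] at h1
    exact hx₀ (add_right_cancel h1)
  · intro p hp hpB j r _
    obtain ⟨h1, h2⟩ := lin_one (p := p) (A j) (B j) D (hD j).1 (hD j).2 (hAp p hp hpB j) (e j) (he j)
      (hcast p hp hpB _ (heB j) (hB₁.1 j).1) r
    have h3 : D * D * Fintype.card ((α ⊕ β) ⊕ Unit → ZMod p) ≤
      (D * D + D + D) * Fintype.card ((α ⊕ β) ⊕ Unit → ZMod p) :=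
      Nat.mul_le_mul_right _ (by omega)
    have h4 : D * Fintype.card ((α ⊕ β) ⊕ Unit → ZMod p) ≤
      (D * D + D + D) * Fintype.card ((α ⊕ β) ⊕ Unit → ZMod p) :=
      Nat.mul_le_mul_right _ (by omega)
    exact ⟨h1.trans (Nat.add_le_add_left h3 _), h2.trans (Nat.add_le_add_left h4 _)⟩
  · intro p hp hpB i j hij r s _ _
    obtain ⟨h1, h2⟩ := hw i j hij
    exact lin_two (A i) (A j) (B i) (B j) D (hD i).1 (hD j).1 (hD i).2 (hD j).2
      (hAp p hp hpB i) (e i) (he i) (hcast p hp hpB _ (heB i) (hB₁.1 i).1)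
      (h2 p (hcast p hp hpB _ h1 (hB₁.2 i j))) r s

end Pool.Agent.X145.ML
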