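import Pool.Agent.X145.ML.CritN

/-!
Record gaps around the points of an orbit of generalised Hénon maps.
-/

set_option autoImplicit false

namespace Pool.Agent.X145.ML

open Finset Polynomial Pool.Agent.X145.PM

section seq

variable {R : Type} [CommRing R]

/-- `x_{n+2} = δ_n x_n + P_n(x_{n+1})` -/
noncomputable def hen (δ : ℕ → ℤ) (P : ℕ → ℤ[X]) (a b : R) : ℕ → R
  | 0 => a
  | 1 => b
  | n + 2 => (δ n : R) * hen δ P a b n + Polynomial.aeval (hen δ P a b (n + 1)) (P n)

theorem hen_add (δ : ℕ → ℤ) (P : ℕ → ℤ[X]) (a b : R) (m k : ℕ) :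
    hen δ P a b (m + k) = hen (fun i => δ (m + i)) (fun i => P (m + i)) (hen δ P a b m)
      (hen δ P a b (m + 1)) k := by
  induction k using Nat.strong_induction_on with
  | _ k ih =>
    rcases k with _ | k
    · rfl
    · rcases k with _ | k
      · rfl
      · have h1 := ih (k + 1) (by omega)
        have h2 := ih k (by omega)
        have e1 : hen δ P a b (m + k + 2) = (δ (m + k) : R) * hen δ P a b (m + k) +
          Polynomial.aeval (hen δ P a b (m + k + 1)) (P (m + k)) := rfl
        rw [show m + (k + 1 + 1) = m + k + 2 by ring, e1, h2,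
          show m + k + 1 = m + (k + 1) by ring, h1]
        rfl

theorem hen_map {R' : Type} [CommRing R'] (φ : R →+* R') (δ : ℕ → ℤ) (P : ℕ → ℤ[X]) (a b : R)
    (n : ℕ) : φ (hen δ P a b n) = hen δ P (φ a) (φ b) n := by
  induction n using Nat.strong_induction_on with
  | _ n ih =>
    rcases n with _ | n
    · rfl
    · rcases n with _ | n
      · rfl
      · have h1 := ih (n + 1) (by omega)
        have h2 := ih n (by omega)
        simp only [hen]
        rw [map_add, map_mul, h2, map_intCast]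
        congr 1
        have h3 := Polynomial.aeval_algHom_apply φ.toIntAlgHom (hen δ P a b (n + 1)) (P n)
        rw [← h1]
        exact h3.symm

end seq

/-- as a function on `R²` -/
noncomputable def henF (δ : ℕ → ℤ) (P : ℕ → ℤ[X]) (n : ℕ) (R : Type) [CommRing R]
    (A : Fin 2 → R) : R := hen δ P (A 0) (A 1) n

theorem henF_nat (δ : ℕ → ℤ) (P : ℕ → ℤ[X]) (n : ℕ) : Natural (henF δ P n) := by
  intro R R' _ _ φ x
  exact hen_map φ δ P (x 0) (x 1) n

section count

variable {p : ℕ} [hp : Fact p.Prime]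

theorem hen_bij (δ : ℕ → ℤ) (P : ℕ → ℤ[X]) (m : ℕ) (hδ : ∀ i < m, (δ i : ZMod p) ≠ 0) :
    Function.Bijective (fun A : Fin 2 → ZMod p =>
      (![henF δ P m (ZMod p) A, henF δ P (m + 1) (ZMod p) A] : Fin 2 → ZMod p)) := by
  rw [← Finite.injective_iff_bijective]
  induction m with
  | zero =>
    intro A B h
    have h0 := congrFun h 0
    have h1 := congrFun h 1
    funext i
    fin_cases i
    · exact h0
    · exact h1
  | succ m ih =>
    intro A B h
    apply ih fun i hi => hδ i (by omega)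
    have h0 : henF δ P (m + 1) (ZMod p) A = henF δ P (m + 1) (ZMod p) B := congrFun h 0
    have h1 : henF δ P (m + 1 + 1) (ZMod p) A = henF δ P (m + 1 + 1) (ZMod p) B := congrFun h 1
    have e : ∀ A : Fin 2 → ZMod p, henF δ P (m + 1 + 1) (ZMod p) A =
      (δ m : ZMod p) * henF δ P m (ZMod p) A +
        Polynomial.aeval (henF δ P (m + 1) (ZMod p) A) (P m) := fun _ => rfl
    rw [e, e, h0] at h1
    have h2 := add_right_cancel h1
    have h3 := mul_left_cancel₀ (hδ m (by omega)) h2
    show (![_, _] : Fin 2 → ZMod p) = ![_, _]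
    rw [h3, h0]

theorem card_two : Fintype.card (Fin 2 → ZMod p) = p * p := by
  rw [Fintype.card_fun, ZMod.card, Fintype.card_fin, sq]

theorem hen_one (δ : ℕ → ℤ) (P : ℕ → ℤ[X]) (m : ℕ) (hδ : ∀ i < m, (δ i : ZMod p) ≠ 0)
    (r : ZMod p) : cn (henF δ P m (ZMod p)) r = p := by
  classical
  have hb := hen_bij δ P m hδ
  obtain ⟨e, he⟩ : ∃ e : (Fin 2 → ZMod p) ≃ (Fin 2 → ZMod p), ∀ A, e A =
      ![henF δ P m (ZMod p) A, henF δ P (m + 1) (ZMod p) A] :=
    ⟨Equiv.ofBijective _ hb, fun _ => rfl⟩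
  have h1 : cn (henF δ P m (ZMod p)) r = (univ.filter (fun A : Fin 2 → ZMod p => A 0 = r)).card := by
    unfold cn
    refine Finset.card_bij' (fun A _ => e A) (fun A _ => e.symm A) ?_ ?_ ?_ ?_
    · intro A hA
      rw [mem_filter] at hA ⊢
      refine ⟨mem_univ _, ?_⟩
      rw [he]
      exact hA.2
    · intro A hA
      rw [mem_filter] at hA ⊢
      refine ⟨mem_univ _, ?_⟩
      have h2 := he (e.symm A)
      rw [Equiv.apply_symm_apply] at h2
      have h3 := congrFun h2 0
      rw [← hA.2, h3]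
      rfl
    · intro A _
      exact e.symm_apply_apply A
    · intro A _
      exact e.apply_symm_apply A
  rw [h1]
  have h2 : (univ.filter (fun A : Fin 2 → ZMod p => A 0 = r)).card =
      (univ : Finset (ZMod p)).card := by
    refine Finset.card_bij' (fun A _ => A 1) (fun y _ => ![r, y]) ?_ ?_ ?_ ?_
    · intro A _
      exact mem_univ _
    · intro y _
      rw [mem_filter]
      exact ⟨mem_univ _, rfl⟩
    · intro A hA
      rw [mem_filter] at hA
      funext i
      fin_cases i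
      · exact hA.2.symm
      · rfl
    · intro y _
      rfl
  rw [h2, card_univ, ZMod.card]

/-- the sequence as a polynomial in the second starting value -/
theorem hen_poly (δ : ℕ → ℤ) (P : ℕ → ℤ[X]) (r : ZMod p) (B : ℕ) (N : ℕ)
    (hP : ∀ i < N, 2 ≤ (P i).natDegree ∧ (P i).natDegree ≤ B ∧
      ((P i).leadingCoeff : ZMod p) ≠ 0) (k : ℕ) (hk : k ≤ N) :
    ∃ Q Q' : (ZMod p)[X], (∀ v, Q.eval v = hen δ P r v k) ∧ (∀ v, Q'.eval v = hen δ P r v (k + 1)) ∧
      Q.natDegree < Q'.natDegree ∧ Q'.natDegree ≤ B ^ k := by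
  induction k with
  | zero =>
    refine ⟨C r, X, fun v => ?_, fun v => ?_, ?_, ?_⟩
    · rw [eval_C]
      rfl
    · rw [eval_X]
      rfl
    · rw [natDegree_C, natDegree_X]
      exact one_pos
    · rw [natDegree_X, pow_zero]
  | succ k ih =>
    obtain ⟨Q, Q', h1, h2, h3, h4⟩ := ih (by omega)
    obtain ⟨hP1, hP2, hP3⟩ := hP k (by omega)
    have hdeg : ((P k).map (Int.castRingHom (ZMod p))).natDegree = (P k).natDegree :=
      natDegree_map_of_leadingCoeff_ne_zero _ hP3
    have hcomp : (((P k).map (Int.castRingHom (ZMod p))).comp Q').natDegree =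
        (P k).natDegree * Q'.natDegree := by
      rw [natDegree_comp, hdeg]
    have hlt : Q'.natDegree < (P k).natDegree * Q'.natDegree := by nlinarith
    have hsum : (C (δ k : ZMod p) * Q + ((P k).map (Int.castRingHom (ZMod p))).comp Q').natDegree =
        (P k).natDegree * Q'.natDegree := by
      rw [natDegree_add_eq_right_of_natDegree_lt, hcomp]
      rw [hcomp]
      exact ((natDegree_C_mul_le _ _).trans_lt h3).trans hlt
    refine ⟨Q', C (δ k : ZMod p) * Q + ((P k).map (Int.castRingHom (ZMod p))).comp Q', h2,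
      fun v => ?_, ?_, ?_⟩
    · rw [eval_add, eval_mul, eval_C, eval_comp, h1, h2, eval_map]
      have e : hen δ P r v (k + 1 + 1) = (δ k : ZMod p) * hen δ P r v k +
        Polynomial.aeval (hen δ P r v (k + 1)) (P k) := rfl
      rw [e, aeval_def]
      rfl
    · rw [hsum]
      exact hlt
    · rw [hsum, pow_succ, mul_comm]
      exact Nat.mul_le_mul h4 hP2

theorem hen_two (δ : ℕ → ℤ) (P : ℕ → ℤ[X]) (B N m k : ℕ) (hmk : m + k ≤ N)
    (hδ : ∀ i < N, (δ i : ZMod p) ≠ 0)
    (hP : ∀ i < N, 2 ≤ (P i).natDegree ∧ (P i).natDegree ≤ B ∧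
      ((P i).leadingCoeff : ZMod p) ≠ 0) (r s : ZMod p) :
    (univ.filter (fun A : Fin 2 → ZMod p => henF δ P m (ZMod p) A = r ∧
      henF δ P (m + k + 1) (ZMod p) A = s)).card ≤ B ^ k := by
  classical
  obtain ⟨Q, Q', h1, h2, h3, h4⟩ := hen_poly (p := p) (fun i => δ (m + i)) (fun i => P (m + i)) r B
    (N - m) (fun i hi => hP (m + i) (by omega)) k (by omega)
  have hb := (hen_bij δ P m fun i hi => hδ i (by omega)).1
  have hQ : Q' - C s ≠ 0 := by
    intro h
    have h5 : Q' = C s := by linear_combination h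
    rw [h5, natDegree_C] at h3
    exact absurd h3 (Nat.not_lt_zero _)
  have hdeg : (Q' - C s).roots.toFinset.card ≤ B ^ k :=
    (Multiset.toFinset_card_le _).trans ((card_roots' _).trans (by
      rw [natDegree_sub_C]
      exact h4))
  refine le_trans (Finset.card_le_card_of_injOn (fun A => henF δ P (m + 1) (ZMod p) A) ?_ ?_) hdeg
  · intro A hA
    rw [mem_coe, mem_filter] at hA
    rw [mem_coe, Multiset.mem_toFinset, mem_roots hQ, IsRoot.def, eval_sub, eval_C, h2]
    have h5 := hen_add δ P (A 0) (A 1) m (k + 1)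
    have h6 : hen δ P (A 0) (A 1) m = r := hA.2.1
    have h7 : hen δ P (A 0) (A 1) (m + k + 1) = s := hA.2.2
    rw [h6] at h5
    rw [show m + (k + 1) = m + k + 1 by ring, h7] at h5
    rw [sub_eq_zero]
    exact h5.symm
  · intro A hA A' hA' h
    rw [mem_coe, mem_filter] at hA hA'
    apply hb
    show (![_, _] : Fin 2 → ZMod p) = ![_, _]
    rw [hA.2.1, hA'.2.1]
    have h' : henF δ P (m + 1) (ZMod p) A = henF δ P (m + 1) (ZMod p) A' := h
    rw [h']

end count

theorem henon (N : ℕ) (δ : ℕ → ℤ) (P : ℕ → ℤ[X]) (hδ : ∀ i < N, δ i ≠ 0)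
    (hP : ∀ i < N, 2 ≤ (P i).natDegree) :
    ∃ c : ℝ, 0 < c ∧ ∃ Z₀ : ℝ, ∀ Z : ℕ, Z₀ ≤ Z →
    ∀ M : Fin 2 → ℤ, ∃ A : Fin 2 → ℤ, (∀ k, M k < A k ∧ A k ≤ M k + Z) ∧
      ∀ n ≤ N, ∀ t : ℤ,
        |(t : ℝ) - ((hen δ P (A 0) (A 1) n : ℤ) : ℝ)| ≤ c * Pool.Agent.H256R2.SC.ff Z →
        ∃ p : ℕ, p.Prime ∧ (p : ℝ) ≤ (Z : ℝ) ^ (1 / 10 : ℝ) ∧ (p : ℤ) ∣ t := by
  classical
  obtain ⟨B, hB⟩ : ∃ B : ℕ, ∀ i < N, (P i).natDegree ≤ B ∧ (δ i).natAbs ≤ B ∧
      ((P i).leadingCoeff).natAbs ≤ B := by
    refine ⟨∑ i ∈ range N, ((P i).natDegree + (δ i).natAbs + ((P i).leadingCoeff).natAbs),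
      fun i hi => ?_⟩
    have := single_le_sum (f := fun i => (P i).natDegree + (δ i).natAbs +
      ((P i).leadingCoeff).natAbs) (fun _ _ => Nat.zero_le _) (mem_range.mpr hi)
    refine ⟨by omega, by omega, by omega⟩
  have hcast : ∀ p : ℕ, ∀ _ : Fact p.Prime, B < p → ∀ z : ℤ, z ≠ 0 → z.natAbs ≤ B →
      (z : ZMod p) ≠ 0 := by
    intro p _ hp z hz hzB h
    rw [ZMod.intCast_zmod_eq_zero_iff_dvd] at h
    have := Nat.le_of_dvd (Int.natAbs_pos.mpr hz) (Int.natCast_dvd.mp h)
    omega
  have hδp : ∀ p : ℕ, ∀ _ : Fact p.Prime, B < p → ∀ i < N, (δ i : ZMod p) ≠ 0 :=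
    fun p hp hpB i hi => hcast p hp hpB _ (hδ i hi) (hB i hi).2.1
  have hPp : ∀ p : ℕ, ∀ _ : Fact p.Prime, B < p → ∀ i < N, 2 ≤ (P i).natDegree ∧
      (P i).natDegree ≤ B ∧ ((P i).leadingCoeff : ZMod p) ≠ 0 := by
    intro p hp hpB i hi
    refine ⟨hP i hi, (hB i hi).1, hcast p hp hpB _ ?_ (hB i hi).2.2⟩
    rw [Ne, leadingCoeff_eq_zero]
    intro h
    have := hP i hi
    rw [h, natDegree_zero] at this
    omega
  obtain ⟨c, hc, Z₀, h⟩ := critN (ι := Fin (N + 1)) (κ := Fin 2) (fun n => henF δ P n)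
    (fun n => henF_nat δ P n)
    (by
      intro n
      by_contra hcon
      push Not at hcon
      obtain ⟨p, hpB, hp⟩ := Nat.exists_infinite_primes (B + 1)
      have hpf : Fact p.Prime := ⟨hp⟩
      have h1 := hen_one (p := p) δ P n (fun i hi => hδp p hpf (by omega) i (by
        have := n.2; omega)) ((henF δ P n ℤ 0 + 1 : ℤ) : ZMod p)
      have h2 : cn (henF δ P n (ZMod p)) ((henF δ P n ℤ 0 + 1 : ℤ) : ZMod p) = 0 := by
        unfold cn
        rw [Finset.card_eq_zero, Finset.filter_eq_empty_iff]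
        intro A _ h3
        have h4 := henF_nat δ P n ℤ (ZMod p) (Int.castRingHom (ZMod p))
          (fun i => ((A i).val : ℤ))
        rw [hcon] at h4
        have h5 : (fun i => (Int.castRingHom (ZMod p)) ((A i).val : ℤ)) = A := by
          funext i
          simp
        rw [h5, h3] at h4
        simp at h4
      rw [h2] at h1
      exact hp.pos.ne h1)
    0 B (fun _ _ => 0) (fun _ => ∅) (fun j r hr => absurd hr (notMem_empty _)) (B ^ N)
    (by
      intro p hp hpB n r _
      rw [hen_one δ P n (fun i hi => hδp p hp (by omega) i (by have := n.2; omega)), card_two]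
      exact ⟨Nat.le_add_right _ _, Nat.le_add_right _ _⟩)
    (by
      have main : ∀ p : ℕ, ∀ _ : Fact p.Prime, B < p → ∀ i j : Fin (N + 1), i < j →
          ∀ r s : ZMod p, p * (p * (univ.filter (fun A : Fin 2 → ZMod p =>
            henF δ P i (ZMod p) A = r ∧ henF δ P j (ZMod p) A = s)).card) ≤
            B ^ N * Fintype.card (Fin 2 → ZMod p) := by
        intro p hp hpB i j hij r s
        obtain ⟨k, hk⟩ : ∃ k, (j : ℕ) = i + k + 1 := ⟨j - i - 1, by
          have : (i : ℕ) < j := hij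
          omega⟩
        have hj := j.2
        have h1 := hen_two (p := p) δ P B N i k (by omega) (hδp p hp hpB) (hPp p hp hpB) r s
        rw [hk, card_two]
        have h2 : B ^ k ≤ B ^ N := by
          rcases Nat.eq_zero_or_pos N with hN | hN
          · omega
          · have := hB 0 hN
            have h3 := hP 0 hN
            exact Nat.pow_le_pow_right (by omega) (by omega)
        calc _ = (univ.filter (fun A : Fin 2 → ZMod p => henF δ P i (ZMod p) A = r ∧
              henF δ P (i + k + 1) (ZMod p) A = s)).card * (p * p) := by ring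
          _ ≤ _ := Nat.mul_le_mul_right _ (h1.trans h2)
      intro p hp hpB i j hij r s _ _
      rcases lt_or_gt_of_ne hij with h1 | h1
      · exact main p hp hpB i j h1 r s
      · have e : (univ.filter (fun A : Fin 2 → ZMod p => henF δ P i (ZMod p) A = r ∧
            henF δ P j (ZMod p) A = s)) = (univ.filter (fun A : Fin 2 → ZMod p =>
            henF δ P j (ZMod p) A = s ∧ henF δ P i (ZMod p) A = r)) := by
          ext A
          simp only [mem_filter, mem_univ, true_and]
          exact and_comm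
        rw [e]
        exact main p hp hpB j i h1 s r)
  refine ⟨c, hc, Z₀, fun Z hZ M => ?_⟩
  obtain ⟨A, hA1, hA2⟩ := h Z hZ M
  exact ⟨A, hA1, fun n hn t ht => hA2 ⟨n, by omega⟩ t ht⟩

end Pool.Agent.X145.ML
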