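import Pool.Agent.X145.PM.Gen

/-!
Record gaps around the values of polynomials which are homogeneous and linear in blocks of variables.
-/

set_option autoImplicit false

namespace Pool.Agent.X145.ML

open Finset Pool.Agent.X145.PM

section abs

variable {κ : Type} [Fintype κ] [DecidableEq κ]

omit [Fintype κ] [DecidableEq κ] in
theorem aeval_cast (p : ℕ) (P : MvPolynomial κ ℤ) (A : κ → ℤ) :
    MvPolynomial.aeval (fun k => (A k : ZMod p)) P = ((MvPolynomial.eval A P : ℤ) : ZMod p) := by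
  have h : (MvPolynomial.aeval (fun k => (A k : ZMod p))) =
      (Int.castRingHom (ZMod p)).toIntAlgHom.comp (MvPolynomial.aeval A) := by
    ext k
    simp
  rw [h, AlgHom.comp_apply, ← MvPolynomial.aeval_eq_eval]
  rfl

theorem zero_count {p : ℕ} [hp : Fact p.Prime] (P : MvPolynomial κ ℤ) (A₁ : κ → ℤ)
    (h1 : |MvPolynomial.eval A₁ P| = 1) :
    p * cn (fun A : κ → ZMod p => MvPolynomial.aeval A P) 0 ≤
      P.totalDegree * Fintype.card (κ → ZMod p) := by
  classical
  obtain ⟨n, hn⟩ : ∃ n, n = Fintype.card κ := ⟨_, rfl⟩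
  obtain ⟨e⟩ : Nonempty (κ ≃ Fin n) := by rw [hn]; exact ⟨Fintype.equivFin κ⟩
  obtain ⟨Q, hQ⟩ : ∃ Q : MvPolynomial (Fin n) (ZMod p),
      Q = MvPolynomial.map (Int.castRingHom (ZMod p)) (MvPolynomial.rename e P) := ⟨_, rfl⟩
  have ev : ∀ x : Fin n → ZMod p, MvPolynomial.eval x Q =
      MvPolynomial.aeval (fun k => x (e k)) P := by
    intro x
    rw [hQ, MvPolynomial.eval_map, MvPolynomial.eval₂_rename]
    rfl
  have hQ0 : Q ≠ 0 := by
    intro h
    have h2 := ev (fun i => (A₁ (e.symm i) : ZMod p))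
    rw [h, map_zero] at h2
    simp only [Equiv.symm_apply_apply] at h2
    rw [aeval_cast] at h2
    rcases (abs_eq zero_le_one).1 h1 with h3 | h3
    · rw [h3] at h2
      simp at h2
    · rw [h3] at h2
      simp at h2
  have hdeg : Q.totalDegree ≤ P.totalDegree := by
    rw [hQ]
    have h3 : ∀ R : MvPolynomial (Fin n) ℤ,
        (MvPolynomial.map (Int.castRingHom (ZMod p)) R).totalDegree ≤ R.totalDegree := by
      intro R
      unfold MvPolynomial.totalDegree
      exact Finset.sup_mono (MvPolynomial.support_map_subset _ _)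
    exact (h3 _).trans (MvPolynomial.totalDegree_rename_le _ _)
  have h2 := MvPolynomial.schwartz_zippel_totalDegree hQ0 (univ : Finset (ZMod p))
  rw [Finset.card_univ, ZMod.card] at h2
  have hp0 : (0 : ℚ≥0) < p := by exact_mod_cast hp.out.pos
  have h3 : (univ.filter (fun A : κ → ZMod p => MvPolynomial.aeval A P = 0)).card =
      ((Fintype.piFinset fun _ : Fin n => (univ : Finset (ZMod p))).filter
        (fun f => MvPolynomial.eval f Q = 0)).card := by
    refine Finset.card_bij' (fun A _ => fun i => A (e.symm i)) (fun x _ => fun k => x (e k))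
      ?_ ?_ ?_ ?_
    · intro A hA
      rw [mem_filter] at hA ⊢
      refine ⟨by simp, ?_⟩
      rw [ev]
      simp only [Equiv.symm_apply_apply]
      exact hA.2
    · intro x hx
      rw [mem_filter] at hx ⊢
      refine ⟨mem_univ _, ?_⟩
      rw [← ev]
      exact hx.2
    · intro A _
      funext k
      simp
    · intro x _
      funext i
      simp
  rw [← h3] at h2
  rw [div_le_div_iff₀ (by positivity) hp0] at h2
  have h4 : p * (univ.filter (fun A : κ → ZMod p => MvPolynomial.aeval A P = 0)).card ≤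
      Q.totalDegree * p ^ n := by
    rw [mul_comm]
    exact_mod_cast h2
  rw [Fintype.card_fun, ZMod.card, ← hn]
  exact h4.trans (Nat.mul_le_mul_right _ hdeg)

/-- The criterion. -/
theorem crit {ι : Type} [Fintype ι] (P : ι → MvPolynomial κ ℤ)
    (h0 : ∀ j, MvPolynomial.eval 0 (P j) = 0) (A₁ : κ → ℤ)
    (h1 : ∀ j, |MvPolynomial.eval A₁ (P j)| = 1) (S : ι → κ → Prop)
    [∀ j, DecidablePred (S j)]
    (hS : ∀ j, ∀ p : ℕ, ∀ _ : Fact p.Prime,
      LinOn (S j) (fun A : κ → ZMod p => MvPolynomial.aeval A (P j)))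
    (T : ι → ι → κ → Prop) [∀ i j, DecidablePred (T i j)]
    (hT : ∀ i j, i ≠ j → ∀ p : ℕ, ∀ _ : Fact p.Prime,
      ((∀ A y : κ → ZMod p, MvPolynomial.aeval (upd (T i j) A y) (P i) =
          MvPolynomial.aeval A (P i)) ∧
        LinOn (T i j) (fun A : κ → ZMod p => MvPolynomial.aeval A (P j))) ∨
      ((∀ A y : κ → ZMod p, MvPolynomial.aeval (upd (T i j) A y) (P j) =
          MvPolynomial.aeval A (P j)) ∧
        LinOn (T i j) (fun A : κ → ZMod p => MvPolynomial.aeval A (P i)))) :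
    ∃ c : ℝ, 0 < c ∧ ∃ Z₀ : ℝ, ∀ Z : ℕ, Z₀ ≤ Z →
    ∀ M : κ → ℤ, ∃ A : κ → ℤ,
      (∀ k, M k < A k ∧ A k ≤ M k + Z) ∧
      ∀ j, ∀ t : ℤ, |(t : ℝ) - ((MvPolynomial.eval A (P j) : ℤ) : ℝ)| ≤
          c * Pool.Agent.H256R2.SC.ff Z →
        ∃ p : ℕ, p.Prime ∧ (p : ℝ) ≤ (Z : ℝ) ^ (1 / 10 : ℝ) ∧ (p : ℤ) ∣ t := by
  classical
  obtain ⟨n, hn⟩ : ∃ n, n = Fintype.card κ := ⟨_, rfl⟩
  obtain ⟨e⟩ : Nonempty (κ ≃ Fin n) := by rw [hn]; exact ⟨Fintype.equivFin κ⟩
  obtain ⟨D, hD⟩ : ∃ D : ℕ, ∀ j, (P j).totalDegree ≤ D :=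
    ⟨∑ j, (P j).totalDegree, fun j => single_le_sum (f := fun j => (P j).totalDegree)
      (fun _ _ => Nat.zero_le _) (mem_univ j)⟩
  have ae : ∀ (R : Type) [CommRing R] (j : ι) (x : Fin n → R),
      MvPolynomial.aeval x (MvPolynomial.rename e (P j)) =
        MvPolynomial.aeval (fun k => x (e k)) (P j) := by
    intro R _ j x
    rw [MvPolynomial.aeval_rename]
    rfl
  have ee : ∀ (j : ι) (x : Fin n → ℤ), MvPolynomial.eval x (MvPolynomial.rename e (P j)) =
      MvPolynomial.eval (fun k => x (e k)) (P j) := by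
    intro j x
    rw [← MvPolynomial.aeval_eq_eval, ← MvPolynomial.aeval_eq_eval]
    exact ae ℤ j x
  have cardV : ∀ p : ℕ, ∀ _ : Fact p.Prime, Fintype.card (κ → ZMod p) = p ^ n := by
    intro p _
    rw [Fintype.card_fun, ZMod.card, hn]
  have card1 : ∀ p : ℕ, ∀ _ : Fact p.Prime, ∀ (j : ι) (r : ZMod p),
      Nat.card {x : Fin n → ZMod p //
        MvPolynomial.aeval x (MvPolynomial.rename e (P j)) = r} =
      cn (fun A : κ → ZMod p => MvPolynomial.aeval A (P j)) r := by
    intro p _ j r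
    unfold cn
    rw [← Fintype.card_subtype, ← Nat.card_eq_fintype_card]
    refine Nat.card_congr ((Equiv.arrowCongr e.symm (Equiv.refl (ZMod p))).subtypeEquiv
      fun x => ?_)
    rw [ae]
    rfl
  have card2 : ∀ p : ℕ, ∀ _ : Fact p.Prime, ∀ (i j : ι) (r s : ZMod p),
      Nat.card {x : Fin n → ZMod p //
        MvPolynomial.aeval x (MvPolynomial.rename e (P i)) = r ∧
        MvPolynomial.aeval x (MvPolynomial.rename e (P j)) = s} =
      (univ.filter (fun A : κ → ZMod p => MvPolynomial.aeval A (P i) = r ∧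
        MvPolynomial.aeval A (P j) = s)).card := by
    intro p _ i j r s
    rw [← Fintype.card_subtype, ← Nat.card_eq_fintype_card]
    refine Nat.card_congr ((Equiv.arrowCongr e.symm (Equiv.refl (ZMod p))).subtypeEquiv
      fun x => ?_)
    rw [ae, ae]
    rfl
  have bds : ∀ p : ℕ, ∀ _ : Fact p.Prime, ∀ (j : ι) (r : ZMod p), r ≠ 0 →
      p * cn (fun A : κ → ZMod p => MvPolynomial.aeval A (P j)) r ≤ p ^ n ∧
        p * p ^ n ≤ p * (p * cn (fun A : κ → ZMod p => MvPolynomial.aeval A (P j)) r) +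
          D * p ^ n := by
    intro p hpf j r hr
    have h2 := cn_bounds (D := D) (hS j p hpf)
      ((zero_count (P j) A₁ (h1 j)).trans (Nat.mul_le_mul_right _ (hD j))) hr
    rw [cardV p hpf] at h2
    exact h2
  have two : ∀ p : ℕ, ∀ _ : Fact p.Prime, ∀ (i j : ι), i ≠ j → ∀ r s : ZMod p, r ≠ 0 → s ≠ 0 →
      p * (p * (univ.filter (fun A : κ → ZMod p => MvPolynomial.aeval A (P i) = r ∧
        MvPolynomial.aeval A (P j) = s)).card) ≤ p ^ n := by
    intro p hpf i j hij r s hr hs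
    rcases hT i j hij p hpf with ⟨ha, hb⟩ | ⟨ha, hb⟩
    · have h2 := pair (p := p) (S := T i j) (g := fun A => MvPolynomial.aeval A (P i))
        (g' := fun A => MvPolynomial.aeval A (P j)) ha hb (r := r) hs
      exact (Nat.mul_le_mul_left p h2).trans (bds p hpf i r hr).1
    · have h2 := pair (p := p) (S := T i j) (g := fun A => MvPolynomial.aeval A (P j))
        (g' := fun A => MvPolynomial.aeval A (P i)) ha hb (r := s) hr
      have h3 : (univ.filter (fun A : κ → ZMod p => MvPolynomial.aeval A (P i) = r ∧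
          MvPolynomial.aeval A (P j) = s)) =
          (univ.filter (fun A : κ → ZMod p => MvPolynomial.aeval A (P j) = s ∧
          MvPolynomial.aeval A (P i) = r)) := by
        ext A
        simp only [mem_filter, mem_univ, true_and]
        exact and_comm
      rw [h3]
      exact (Nat.mul_le_mul_left p h2).trans (bds p hpf j s hs).1
  obtain ⟨c, hc, Z₀, h⟩ := Pool.Agent.Y837.SV.criterion (ι := ι)
    n (fun j => MvPolynomial.rename e (P j)) (fun j => 0) (fun k => 0)
    (fun k => A₁ (e.symm k))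
    (by
      intro j
      rw [ee]
      exact h0 j)
    (by
      intro j
      rw [ee]
      simp only [Equiv.symm_apply_apply, sub_zero]
      exact h1 j)
    (D + 1) 1 one_pos
    (by
      intro p hp j r hr
      have hpf : Fact p.Prime := ⟨hp⟩
      have hr0 : r ≠ 0 := by simpa using hr
      rw [card1 p hpf]
      obtain ⟨h1, h2⟩ := bds p hpf j r hr0
      obtain ⟨N, hN⟩ : ∃ N, N = cn (fun A : κ → ZMod p => MvPolynomial.aeval A (P j)) r :=
        ⟨_, rfl⟩
      rw [← hN] at h1 h2 ⊢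
      have h1' : (p : ℝ) * (N : ℝ) ≤ (p : ℝ) ^ n := by exact_mod_cast h1
      have h2' : (p : ℝ) * (p : ℝ) ^ n ≤ p * (p * (N : ℝ)) + D * (p : ℝ) ^ n := by
        exact_mod_cast h2
      have hp0 : (0 : ℝ) < p := by exact_mod_cast hp.pos
      rw [abs_sub_comm, abs_of_nonneg (by linarith), Real.rpow_neg_one, ← div_eq_mul_inv,
        le_div_iff₀ hp0]
      have h3 : (0 : ℝ) ≤ (p : ℝ) ^ n := by positivity
      nlinarith)
    (by
      intro p hp i j hij r s hr hs
      have hpf : Fact p.Prime := ⟨hp⟩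
      have hr0 : r ≠ 0 := by simpa using hr
      have hs0 : s ≠ 0 := by simpa using hs
      rw [card2 p hpf]
      have key := two p hpf i j hij r s hr0 hs0
      obtain ⟨N, hN⟩ : ∃ N, N = (univ.filter (fun A : κ → ZMod p =>
          MvPolynomial.aeval A (P i) = r ∧ MvPolynomial.aeval A (P j) = s)).card := ⟨_, rfl⟩
      rw [← hN] at key ⊢
      have key' : (p : ℝ) * (p * (N : ℝ)) ≤ (p : ℝ) ^ n := by exact_mod_cast key
      have h3 : (0 : ℝ) ≤ (p : ℝ) ^ n := by positivity
      have h4 : (0 : ℝ) ≤ D := Nat.cast_nonneg D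
      nlinarith)
  refine ⟨c, hc, Z₀, fun Z hZ M => ?_⟩
  obtain ⟨x, hx1, hx2⟩ := h Z hZ (fun k => M (e.symm k))
  refine ⟨fun k => x (e k), fun k => ?_, fun j t ht => ?_⟩
  · have h1 := hx1 (e k)
    rw [Equiv.symm_apply_apply] at h1
    exact h1
  · refine hx2 j t ?_
    rw [ee]
    exact ht

end abs

end Pool.Agent.X145.ML
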