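import Pool.Agent.X145.ML.Nat
import Pool.Agent.Y837.SV.Gen3

/-!
The criterion with exceptional values, for families of polynomial functions defined over all
commutative rings.
-/

set_option autoImplicit false

namespace Pool.Agent.X145.ML

open Finset Pool.Agent.X145.PM

theorem critK {ι κ : Type} [Fintype ι] [Fintype κ] [DecidableEq κ]
    (G : ι → ∀ (R : Type) [CommRing R], (κ → R) → R) (hG : ∀ j, Natural (G j))
    (u : κ → ℤ) (hu : ∀ j, G j ℤ 0 < G j ℤ u) (B₀ B₁ : ℕ) (q : ℕ → κ → ℤ)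
    (Ex : ι → Finset ℤ)
    (hEx : ∀ j, ∀ r ∈ Ex j, ∃ p : ℕ, p.Prime ∧ p ≤ B₀ ∧ (p : ℤ) ∣ G j ℤ (q p) - r) (C : ℕ)
    (hU : ∀ p : ℕ, ∀ _ : Fact p.Prime, B₁ < p → ∀ j, ∀ r : ZMod p,
      (∀ v ∈ Ex j, r ≠ ((v : ℤ) : ZMod p)) →
      p * (p * cn (G j (ZMod p)) r) ≤ p * Fintype.card (κ → ZMod p) +
          C * Fintype.card (κ → ZMod p) ∧
        p * Fintype.card (κ → ZMod p) ≤ p * (p * cn (G j (ZMod p)) r) +
          C * Fintype.card (κ → ZMod p))
    (hP : ∀ p : ℕ, ∀ _ : Fact p.Prime, B₁ < p → ∀ i j, i ≠ j → ∀ r s : ZMod p,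
      (∀ v ∈ Ex i, r ≠ ((v : ℤ) : ZMod p)) → (∀ v ∈ Ex j, s ≠ ((v : ℤ) : ZMod p)) →
      p * (p * (univ.filter (fun A : κ → ZMod p => G i (ZMod p) A = r ∧
        G j (ZMod p) A = s)).card) ≤ C * Fintype.card (κ → ZMod p)) :
    ∃ c : ℝ, 0 < c ∧ ∃ Z₀ : ℝ, ∀ Z : ℕ, Z₀ ≤ Z →
    ∀ M : κ → ℤ, ∃ A : κ → ℤ, (∀ k, M k < A k ∧ A k ≤ M k + Z) ∧
      ∀ j, ∀ t : ℤ, |(t : ℝ) - ((G j ℤ A : ℤ) : ℝ)| ≤ c * Pool.Agent.H256R2.SC.ff Z →
        ∃ p : ℕ, p.Prime ∧ (p : ℝ) ≤ (Z : ℝ) ^ (1 / 10 : ℝ) ∧ (p : ℤ) ∣ t := by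
  classical
  obtain ⟨n, hn⟩ : ∃ n, n = Fintype.card κ := ⟨_, rfl⟩
  obtain ⟨e⟩ : Nonempty (κ ≃ Fin n) := by rw [hn]; exact ⟨Fintype.equivFin κ⟩
  obtain ⟨B, hB0, hB1, hBu⟩ : ∃ B : ℕ, B₀ ≤ B ∧ B₁ ≤ B ∧
      ∀ j, (G j ℤ u - G j ℤ 0).natAbs ≤ B := by
    refine ⟨B₀ + B₁ + ∑ j, (G j ℤ u - G j ℤ 0).natAbs, by omega, by omega, fun j => ?_⟩
    have := single_le_sum (f := fun j => (G j ℤ u - G j ℤ 0).natAbs)
      (fun _ _ => Nat.zero_le _) (mem_univ j)
    omega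
  have cardV : ∀ p : ℕ, ∀ _ : Fact p.Prime, Fintype.card (κ → ZMod p) = p ^ n := by
    intro p _
    rw [Fintype.card_fun, ZMod.card, hn]
  have card1 : ∀ p : ℕ, ∀ _ : Fact p.Prime, ∀ (j : ι) (r : ZMod p),
      Nat.card {x : Fin n → ZMod p // G j (ZMod p) (fun k => x (e k)) = r} =
      cn (G j (ZMod p)) r := by
    intro p _ j r
    unfold cn
    rw [← Fintype.card_subtype, ← Nat.card_eq_fintype_card]
    refine Nat.card_congr ((Equiv.arrowCongr e.symm (Equiv.refl (ZMod p))).subtypeEquiv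
      fun x => ?_)
    rfl
  have card2 : ∀ p : ℕ, ∀ _ : Fact p.Prime, ∀ (i j : ι) (r s : ZMod p),
      Nat.card {x : Fin n → ZMod p // G i (ZMod p) (fun k => x (e k)) = r ∧
        G j (ZMod p) (fun k => x (e k)) = s} =
      (univ.filter (fun A : κ → ZMod p => G i (ZMod p) A = r ∧ G j (ZMod p) A = s)).card := by
    intro p _ i j r s
    rw [← Fintype.card_subtype, ← Nat.card_eq_fintype_card]
    refine Nat.card_congr ((Equiv.arrowCongr e.symm (Equiv.refl (ZMod p))).subtypeEquiv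
      fun x => ?_)
    rfl
  obtain ⟨c, hc, Z₀, h⟩ := Pool.Agent.Y837.SV.gen3t (ι := ι) n
    (fun j p x => G j (ZMod p) (fun k => x (e k)))
    (fun j x => G j ℤ (fun k => x (e k)))
    (by
      intro j p x
      have h1 := hG j ℤ (ZMod p) (Int.castRingHom (ZMod p)) (fun k => x (e k))
      exact h1)
    B (fun j => G j ℤ 0) (fun _ _ => 0)
    (fun p i => if p ≤ B₀ then q p (e.symm i) else u (e.symm i))
    (by
      intro p hp hBp j
      show (p : ℤ) ∣ G j ℤ (fun _ => 0) - G j ℤ 0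
      rw [show (fun _ : κ => (0 : ℤ)) = 0 from rfl, sub_self]
      exact dvd_zero _)
    (by
      intro p hp hBp j hdvd
      have h1 : (fun k : κ => (fun i : Fin n => if p ≤ B₀ then q p (e.symm i) else
          u (e.symm i)) (e k)) = u := by
        funext k
        have h2 : ¬ p ≤ B₀ := by omega
        simp [h2]
      have hdvd' : (p : ℤ) ∣ G j ℤ (fun k : κ => (fun i : Fin n => if p ≤ B₀ then
        q p (e.symm i) else u (e.symm i)) (e k)) - G j ℤ 0 := hdvd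
      rw [h1] at hdvd'
      have h3 := Int.le_of_dvd (by have := hu j; omega) hdvd'
      have h4 := hBu j
      have h5 := hu j
      omega)
    Ex
    (by
      intro j r hr
      obtain ⟨p, hp, hpB, hd⟩ := hEx j r hr
      refine ⟨p, hp, by omega, ?_⟩
      have h1 : (fun k : κ => (fun i : Fin n => if p ≤ B₀ then q p (e.symm i) else
          u (e.symm i)) (e k)) = q p := by
        funext k
        simp [hpB]
      show (p : ℤ) ∣ G j ℤ (fun k : κ => (fun i : Fin n => if p ≤ B₀ then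
        q p (e.symm i) else u (e.symm i)) (e k)) - r
      rw [h1]
      exact hd)
    (C + 1) (1 / 2) (by positivity) (by norm_num) le_rfl
    (by
      intro p hp hBp j r hr
      have hpf : Fact p.Prime := ⟨hp⟩
      show |(p : ℝ) * (Nat.card {x : Fin n → ZMod p //
        G j (ZMod p) (fun k => x (e k)) = r} : ℝ) - (p : ℝ) ^ n| ≤ _
      rw [card1 p hpf]
      obtain ⟨h1, h2⟩ := hU p hpf (by omega) j r hr
      rw [cardV p hpf] at h1 h2
      obtain ⟨N, hN⟩ : ∃ N, N = cn (G j (ZMod p)) r := ⟨_, rfl⟩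
      rw [← hN] at h1 h2 ⊢
      have h1' : (p : ℝ) * (p * (N : ℝ)) ≤ p * (p : ℝ) ^ n + C * (p : ℝ) ^ n := by
        exact_mod_cast h1
      have h2' : (p : ℝ) * (p : ℝ) ^ n ≤ p * (p * (N : ℝ)) + C * (p : ℝ) ^ n := by
        exact_mod_cast h2
      have hp0 : (0 : ℝ) < p := by exact_mod_cast hp.pos
      have hp1 : (1 : ℝ) ≤ p := by exact_mod_cast hp.one_lt.le
      have h3 : (0 : ℝ) ≤ (p : ℝ) ^ n := by positivity
      have h4 : |(p : ℝ) * (N : ℝ) - (p : ℝ) ^ n| ≤ C * (p : ℝ) ^ n / p := by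
        rw [le_div_iff₀ hp0, ← abs_of_pos hp0, ← abs_mul, abs_of_pos hp0, abs_le]
        constructor <;> nlinarith
      refine h4.trans ?_
      rw [div_eq_mul_inv, ← Real.rpow_neg_one]
      have h5 : (p : ℝ) ^ (-1 : ℝ) ≤ (p : ℝ) ^ (-(1 / 2) : ℝ) :=
        Real.rpow_le_rpow_of_exponent_le hp1 (by norm_num)
      have h6 : (0 : ℝ) ≤ (p : ℝ) ^ (-(1 / 2) : ℝ) := Real.rpow_nonneg hp0.le _
      have h7 : (0 : ℝ) ≤ C * (p : ℝ) ^ n := by positivity
      nlinarith [mul_le_mul_of_nonneg_left h5 h7, mul_nonneg h3 h6])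
    (by
      intro p hp hBp i j hij r s hr hs
      have hpf : Fact p.Prime := ⟨hp⟩
      show (p : ℝ) ^ 2 * (Nat.card {x : Fin n → ZMod p //
        G i (ZMod p) (fun k => x (e k)) = r ∧ G j (ZMod p) (fun k => x (e k)) = s} : ℝ) ≤ _
      rw [card2 p hpf]
      have key := hP p hpf (by omega) i j hij r s hr hs
      rw [cardV p hpf] at key
      obtain ⟨N, hN⟩ : ∃ N, N = (univ.filter (fun A : κ → ZMod p =>
          G i (ZMod p) A = r ∧ G j (ZMod p) A = s)).card := ⟨_, rfl⟩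
      rw [← hN] at key ⊢
      have key' : (p : ℝ) * (p * (N : ℝ)) ≤ C * (p : ℝ) ^ n := by exact_mod_cast key
      have h3 : (0 : ℝ) ≤ (p : ℝ) ^ n := by positivity
      nlinarith)
  refine ⟨c, hc, Z₀, fun Z hZ M => ?_⟩
  obtain ⟨x, hx1, hx2⟩ := h Z hZ (fun k => M (e.symm k))
  refine ⟨fun k => x (e k), fun k => ?_, fun j t ht => ?_⟩
  · have h1 := hx1 (e k)
    rw [Equiv.symm_apply_apply] at h1
    exact h1
  · exact hx2 j t ht

end Pool.Agent.X145.ML
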