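import Pool.Agent.X145.ML.CritK

/-!
The criterion with exceptional values for nonconstant natural functions, and the lemma of Schwartz and Zippel.
-/

set_option autoImplicit false

namespace Pool.Agent.X145.ML

open Finset Pool.Agent.X145.PM

theorem critM {ι κ : Type} [Fintype ι] [Fintype κ] [DecidableEq κ]
    (G : ι → ∀ (R : Type) [CommRing R], (κ → R) → R) (hG : ∀ j, Natural (G j))
    (u : κ → ℤ) (hu : ∀ j, G j ℤ u ≠ G j ℤ 0) (B₀ B₁ : ℕ) (q : ℕ → κ → ℤ)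
    (Ex : ι → Finset ℤ)
    (hEx : ∀ j, ∀ r ∈ Ex j, ∃ p : ℕ, p.Prime ∧ p ≤ B₀ ∧ (p : ℤ) ∣ G j ℤ (q p) - r) (C : ℕ)
    (hU : ∀ p : ℕ, ∀ _ : Fact p.Prime, B₁ < p → ∀ j, ∀ r : ZMod p,
      (∀ v ∈ Ex j, r ≠ ((v : ℤ) : ZMod p)) →
      p * (p * cn (G j (ZMod p)) r) ≤ p * Fintype.card (κ → ZMod p) +
          C * Fintype.card (κ → ZMod p) ∧
        p * Fintype.card (κ → ZMod p) ≤ p * (p * cn (G j (ZMod p)) r) +
          C * Fintype.card (κ → ZMod p))
    (hP : ∀ p : ℕ, ∀ _ : Fact p.Prime, B₁ < p → ∀ i j, i ≠ j → ∀ r s : ZMod p,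
      (∀ v ∈ Ex i, r ≠ ((v : ℤ) : ZMod p)) → (∀ v ∈ Ex j, s ≠ ((v : ℤ) : ZMod p)) →
      p * (p * (univ.filter (fun A : κ → ZMod p => G i (ZMod p) A = r ∧
        G j (ZMod p) A = s)).card) ≤ C * Fintype.card (κ → ZMod p)) :
    ∃ c : ℝ, 0 < c ∧ ∃ Z₀ : ℝ, ∀ Z : ℕ, Z₀ ≤ Z →
    ∀ M : κ → ℤ, ∃ A : κ → ℤ, (∀ k, M k < A k ∧ A k ≤ M k + Z) ∧
      ∀ j, ∀ t : ℤ, |(t : ℝ) - ((G j ℤ A : ℤ) : ℝ)| ≤ c * Pool.Agent.H256R2.SC.ff Z →
        ∃ p : ℕ, p.Prime ∧ (p : ℝ) ≤ (Z : ℝ) ^ (1 / 10 : ℝ) ∧ (p : ℤ) ∣ t := by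
  classical
  obtain ⟨n, hn⟩ : ∃ n, n = Fintype.card κ := ⟨_, rfl⟩
  obtain ⟨e⟩ : Nonempty (κ ≃ Fin n) := by rw [hn]; exact ⟨Fintype.equivFin κ⟩
  obtain ⟨B, hB0, hB1, hBu⟩ : ∃ B : ℕ, B₀ ≤ B ∧ B₁ ≤ B ∧
      ∀ j, (G j ℤ u - G j ℤ 0).natAbs ≤ B := by
    refine ⟨B₀ + B₁ + ∑ j, (G j ℤ u - G j ℤ 0).natAbs, by omega, by omega, fun j => ?_⟩
    have := single_le_sum (f := fun j => (G j ℤ u - G j ℤ 0).natAbs)
      (fun _ _ => Nat.zero_le _) (mem_univ j)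
    omega
  have cardV : ∀ p : ℕ, ∀ _ : Fact p.Prime, Fintype.card (κ → ZMod p) = p ^ n := by
    intro p _
    rw [Fintype.card_fun, ZMod.card, hn]
  have card1 : ∀ p : ℕ, ∀ _ : Fact p.Prime, ∀ (j : ι) (r : ZMod p),
      Nat.card {x : Fin n → ZMod p // G j (ZMod p) (fun k => x (e k)) = r} =
      cn (G j (ZMod p)) r := by
    intro p _ j r
    unfold cn
    rw [← Fintype.card_subtype, ← Nat.card_eq_fintype_card]
    refine Nat.card_congr ((Equiv.arrowCongr e.symm (Equiv.refl (ZMod p))).subtypeEquiv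
      fun x => ?_)
    rfl
  have card2 : ∀ p : ℕ, ∀ _ : Fact p.Prime, ∀ (i j : ι) (r s : ZMod p),
      Nat.card {x : Fin n → ZMod p // G i (ZMod p) (fun k => x (e k)) = r ∧
        G j (ZMod p) (fun k => x (e k)) = s} =
      (univ.filter (fun A : κ → ZMod p => G i (ZMod p) A = r ∧ G j (ZMod p) A = s)).card := by
    intro p _ i j r s
    rw [← Fintype.card_subtype, ← Nat.card_eq_fintype_card]
    refine Nat.card_congr ((Equiv.arrowCongr e.symm (Equiv.refl (ZMod p))).subtypeEquiv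
      fun x => ?_)
    rfl
  obtain ⟨c, hc, Z₀, h⟩ := Pool.Agent.Y837.SV.gen3t (ι := ι) n
    (fun j p x => G j (ZMod p) (fun k => x (e k)))
    (fun j x => G j ℤ (fun k => x (e k)))
    (by
      intro j p x
      have h1 := hG j ℤ (ZMod p) (Int.castRingHom (ZMod p)) (fun k => x (e k))
      exact h1)
    B (fun j => G j ℤ 0) (fun _ _ => 0)
    (fun p i => if p ≤ B₀ then q p (e.symm i) else u (e.symm i))
    (by
      intro p hp hBp j
      show (p : ℤ) ∣ G j ℤ (fun _ => 0) - G j ℤ 0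
      rw [show (fun _ : κ => (0 : ℤ)) = 0 from rfl, sub_self]
      exact dvd_zero _)
    (by
      intro p hp hBp j hdvd
      have h1 : (fun k : κ => (fun i : Fin n => if p ≤ B₀ then q p (e.symm i) else
          u (e.symm i)) (e k)) = u := by
        funext k
        have h2 : ¬ p ≤ B₀ := by omega
        simp [h2]
      have hdvd' : (p : ℤ) ∣ G j ℤ (fun k : κ => (fun i : Fin n => if p ≤ B₀ then
        q p (e.symm i) else u (e.symm i)) (e k)) - G j ℤ 0 := hdvd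
      rw [h1] at hdvd'
      have h5 := hu j
      have h3 := Nat.le_of_dvd (by omega) (Int.natCast_dvd.mp hdvd')
      have h4 := hBu j
      omega)
    Ex
    (by
      intro j r hr
      obtain ⟨p, hp, hpB, hd⟩ := hEx j r hr
      refine ⟨p, hp, by omega, ?_⟩
      have h1 : (fun k : κ => (fun i : Fin n => if p ≤ B₀ then q p (e.symm i) else
          u (e.symm i)) (e k)) = q p := by
        funext k
        simp [hpB]
      show (p : ℤ) ∣ G j ℤ (fun k : κ => (fun i : Fin n => if p ≤ B₀ then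
        q p (e.symm i) else u (e.symm i)) (e k)) - r
      rw [h1]
      exact hd)
    (C + 1) (1 / 2) (by positivity) (by norm_num) le_rfl
    (by
      intro p hp hBp j r hr
      have hpf : Fact p.Prime := ⟨hp⟩
      show |(p : ℝ) * (Nat.card {x : Fin n → ZMod p //
        G j (ZMod p) (fun k => x (e k)) = r} : ℝ) - (p : ℝ) ^ n| ≤ _
      rw [card1 p hpf]
      obtain ⟨h1, h2⟩ := hU p hpf (by omega) j r hr
      rw [cardV p hpf] at h1 h2
      obtain ⟨N, hN⟩ : ∃ N, N = cn (G j (ZMod p)) r := ⟨_, rfl⟩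
      rw [← hN] at h1 h2 ⊢
      have h1' : (p : ℝ) * (p * (N : ℝ)) ≤ p * (p : ℝ) ^ n + C * (p : ℝ) ^ n := by
        exact_mod_cast h1
      have h2' : (p : ℝ) * (p : ℝ) ^ n ≤ p * (p * (N : ℝ)) + C * (p : ℝ) ^ n := by
        exact_mod_cast h2
      have hp0 : (0 : ℝ) < p := by exact_mod_cast hp.pos
      have hp1 : (1 : ℝ) ≤ p := by exact_mod_cast hp.one_lt.le
      have h3 : (0 : ℝ) ≤ (p : ℝ) ^ n := by positivity
      have h4 : |(p : ℝ) * (N : ℝ) - (p : ℝ) ^ n| ≤ C * (p : ℝ) ^ n / p := by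
        rw [le_div_iff₀ hp0, ← abs_of_pos hp0, ← abs_mul, abs_of_pos hp0, abs_le]
        constructor <;> nlinarith
      refine h4.trans ?_
      rw [div_eq_mul_inv, ← Real.rpow_neg_one]
      have h5 : (p : ℝ) ^ (-1 : ℝ) ≤ (p : ℝ) ^ (-(1 / 2) : ℝ) :=
        Real.rpow_le_rpow_of_exponent_le hp1 (by norm_num)
      have h6 : (0 : ℝ) ≤ (p : ℝ) ^ (-(1 / 2) : ℝ) := Real.rpow_nonneg hp0.le _
      have h7 : (0 : ℝ) ≤ C * (p : ℝ) ^ n := by positivity
      nlinarith [mul_le_mul_of_nonneg_left h5 h7, mul_nonneg h3 h6])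
    (by
      intro p hp hBp i j hij r s hr hs
      have hpf : Fact p.Prime := ⟨hp⟩
      show (p : ℝ) ^ 2 * (Nat.card {x : Fin n → ZMod p //
        G i (ZMod p) (fun k => x (e k)) = r ∧ G j (ZMod p) (fun k => x (e k)) = s} : ℝ) ≤ _
      rw [card2 p hpf]
      have key := hP p hpf (by omega) i j hij r s hr hs
      rw [cardV p hpf] at key
      obtain ⟨N, hN⟩ : ∃ N, N = (univ.filter (fun A : κ → ZMod p =>
          G i (ZMod p) A = r ∧ G j (ZMod p) A = s)).card := ⟨_, rfl⟩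
      rw [← hN] at key ⊢
      have key' : (p : ℝ) * (p * (N : ℝ)) ≤ C * (p : ℝ) ^ n := by exact_mod_cast key
      have h3 : (0 : ℝ) ≤ (p : ℝ) ^ n := by positivity
      nlinarith)
  refine ⟨c, hc, Z₀, fun Z hZ M => ?_⟩
  obtain ⟨x, hx1, hx2⟩ := h Z hZ (fun k => M (e.symm k))
  refine ⟨fun k => x (e k), fun k => ?_, fun j t ht => ?_⟩
  · have h1 := hx1 (e k)
    rw [Equiv.symm_apply_apply] at h1
    exact h1
  · exact hx2 j t ht

/-- the criterion for nonconstant functions -/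
theorem critN {ι κ : Type} [Fintype ι] [Fintype κ] [DecidableEq κ]
    (G : ι → ∀ (R : Type) [CommRing R], (κ → R) → R) (hG : ∀ j, Natural (G j))
    (hu : ∀ j, ∃ u : κ → ℤ, G j ℤ u ≠ G j ℤ 0) (B₀ B₁ : ℕ) (q : ℕ → κ → ℤ)
    (Ex : ι → Finset ℤ)
    (hEx : ∀ j, ∀ r ∈ Ex j, ∃ p : ℕ, p.Prime ∧ p ≤ B₀ ∧ (p : ℤ) ∣ G j ℤ (q p) - r) (C : ℕ)
    (hU : ∀ p : ℕ, ∀ _ : Fact p.Prime, B₁ < p → ∀ j, ∀ r : ZMod p,
      (∀ v ∈ Ex j, r ≠ ((v : ℤ) : ZMod p)) →
      p * (p * cn (G j (ZMod p)) r) ≤ p * Fintype.card (κ → ZMod p) +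
          C * Fintype.card (κ → ZMod p) ∧
        p * Fintype.card (κ → ZMod p) ≤ p * (p * cn (G j (ZMod p)) r) +
          C * Fintype.card (κ → ZMod p))
    (hP : ∀ p : ℕ, ∀ _ : Fact p.Prime, B₁ < p → ∀ i j, i ≠ j → ∀ r s : ZMod p,
      (∀ v ∈ Ex i, r ≠ ((v : ℤ) : ZMod p)) → (∀ v ∈ Ex j, s ≠ ((v : ℤ) : ZMod p)) →
      p * (p * (univ.filter (fun A : κ → ZMod p => G i (ZMod p) A = r ∧
        G j (ZMod p) A = s)).card) ≤ C * Fintype.card (κ → ZMod p)) :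
    ∃ c : ℝ, 0 < c ∧ ∃ Z₀ : ℝ, ∀ Z : ℕ, Z₀ ≤ Z →
    ∀ M : κ → ℤ, ∃ A : κ → ℤ, (∀ k, M k < A k ∧ A k ≤ M k + Z) ∧
      ∀ j, ∀ t : ℤ, |(t : ℝ) - ((G j ℤ A : ℤ) : ℝ)| ≤ c * Pool.Agent.H256R2.SC.ff Z →
        ∃ p : ℕ, p.Prime ∧ (p : ℝ) ≤ (Z : ℝ) ^ (1 / 10 : ℝ) ∧ (p : ℤ) ∣ t := by
  classical
  obtain ⟨P, hP'⟩ : ∃ P : ι → MvPolynomial κ ℤ,
      ∀ j, P j = G j (MvPolynomial κ ℤ) MvPolynomial.X - MvPolynomial.C (G j ℤ 0) :=
    ⟨_, fun _ => rfl⟩
  have ee : ∀ (j : ι) (x : κ → ℤ), MvPolynomial.eval x (P j) = G j ℤ x - G j ℤ 0 := by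
    intro j x
    rw [hP', map_sub, MvPolynomial.eval_C]
    have h := hG j (MvPolynomial κ ℤ) ℤ (MvPolynomial.eval x) MvPolynomial.X
    rw [h]
    congr 2
    funext k
    exact MvPolynomial.eval_X k
  have hne : ∏ j, P j ≠ 0 := by
    rw [Finset.prod_ne_zero_iff]
    intro j _ h
    obtain ⟨u, hu⟩ := hu j
    have h1 := ee j u
    rw [h, map_zero] at h1
    exact hu (by omega)
  obtain ⟨u, hu'⟩ : ∃ u : κ → ℤ, MvPolynomial.eval u (∏ j, P j) ≠ 0 := by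
    by_contra hcon
    push Not at hcon
    exact hne (MvPolynomial.funext fun x => by rw [hcon x, map_zero])
  rw [map_prod, Finset.prod_ne_zero_iff] at hu'
  refine critM G hG u (fun j h => hu' j (mem_univ j) ?_) B₀ B₁ q Ex hEx C hU hP
  rw [ee, h, sub_self]

/-- Schwartz-Zippel -/
theorem sz {κ : Type} [Fintype κ] [DecidableEq κ] {p : ℕ} [hp : Fact p.Prime]
    (P : MvPolynomial κ (ZMod p)) (hP : P ≠ 0) :
    p * (univ.filter (fun A : κ → ZMod p => MvPolynomial.eval A P = 0)).card ≤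
      P.totalDegree * Fintype.card (κ → ZMod p) := by
  classical
  obtain ⟨n, hn⟩ : ∃ n, n = Fintype.card κ := ⟨_, rfl⟩
  obtain ⟨e⟩ : Nonempty (κ ≃ Fin n) := by rw [hn]; exact ⟨Fintype.equivFin κ⟩
  obtain ⟨Q, hQ⟩ : ∃ Q : MvPolynomial (Fin n) (ZMod p), Q = MvPolynomial.rename e P := ⟨_, rfl⟩
  have ev : ∀ x : Fin n → ZMod p, MvPolynomial.eval x Q =
      MvPolynomial.eval (fun k => x (e k)) P := by
    intro x
    rw [hQ, MvPolynomial.eval_rename]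
    rfl
  have hQ0 : Q ≠ 0 := by
    intro h
    rw [hQ] at h
    exact hP (MvPolynomial.rename_injective e e.injective (by rw [h, map_zero]))
  have hdeg : Q.totalDegree ≤ P.totalDegree := by
    rw [hQ]
    exact MvPolynomial.totalDegree_rename_le _ _
  have h2 := MvPolynomial.schwartz_zippel_totalDegree hQ0 (univ : Finset (ZMod p))
  rw [Finset.card_univ, ZMod.card] at h2
  have hp0 : (0 : ℚ≥0) < p := by exact_mod_cast hp.out.pos
  have h3 : (univ.filter (fun A : κ → ZMod p => MvPolynomial.eval A P = 0)).card =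
      ((Fintype.piFinset fun _ : Fin n => (univ : Finset (ZMod p))).filter
        (fun f => MvPolynomial.eval f Q = 0)).card := by
    refine Finset.card_bij' (fun A _ => fun i => A (e.symm i)) (fun x _ => fun k => x (e k))
      ?_ ?_ ?_ ?_
    · intro A hA
      rw [mem_filter] at hA ⊢
      refine ⟨by simp, ?_⟩
      rw [ev]
      simp only [Equiv.symm_apply_apply]
      exact hA.2
    · intro x hx
      rw [mem_filter] at hx ⊢
      refine ⟨mem_univ _, ?_⟩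
      rw [← ev]
      exact hx.2
    · intro A _
      funext k
      simp
    · intro x _
      funext i
      simp
  rw [← h3] at h2
  rw [div_le_div_iff₀ (by positivity) hp0] at h2
  have h4 : p * (univ.filter (fun A : κ → ZMod p => MvPolynomial.eval A P = 0)).card ≤
      Q.totalDegree * p ^ n := by
    rw [mul_comm]
    exact_mod_cast h2
  rw [Fintype.card_fun, ZMod.card, ← hn]
  exact h4.trans (Nat.mul_le_mul_right _ hdeg)

end Pool.Agent.X145.ML
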