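import Pool.Agent.X145.ML.Nat

/-!
Record gaps around all entries of all products of consecutive matrices.
-/

set_option autoImplicit false

namespace Pool.Agent.X145.ML

open Finset

variable {n k : ℕ}

/-- the matrices with the entries `x (l, a, b)` -/
def mats {R : Type} [CommRing R] (x : Fin k × Fin n × Fin n → R) (l : ℕ) :
    Matrix (Fin n) (Fin n) R :=
  Matrix.of fun a b => if h : l < k then x (⟨l, h⟩, a, b) else 0

/-- the product `A i * A (i+1) * ⋯ * A (i+l)` -/
def seg {R : Type} [CommRing R] (A : ℕ → Matrix (Fin n) (Fin n) R) (i l : ℕ) :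
    Matrix (Fin n) (Fin n) R := ((List.range' i (l + 1)).map A).prod

theorem seg_left {R : Type} [CommRing R] (A : ℕ → Matrix (Fin n) (Fin n) R) (i l : ℕ) :
    seg A i l = A i * ((List.range' (i + 1) l).map A).prod := by
  unfold seg
  rw [List.range'_succ, List.map_cons, List.prod_cons]

theorem seg_right {R : Type} [CommRing R] (A : ℕ → Matrix (Fin n) (Fin n) R) (i l : ℕ) :
    seg A i l = ((List.range' i l).map A).prod * A (i + l) := by
  unfold seg
  rw [List.range'_concat, List.map_append, List.prod_append, one_mul]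
  simp

theorem seg_map {R R' : Type} [CommRing R] [CommRing R'] (φ : R →+* R')
    (A : ℕ → Matrix (Fin n) (Fin n) R) (i l : ℕ) :
    φ.mapMatrix (seg A i l) = seg (fun m => φ.mapMatrix (A m)) i l := by
  unfold seg
  rw [map_list_prod, List.map_map]
  rfl

theorem mats_map {R R' : Type} [CommRing R] [CommRing R'] (φ : R →+* R')
    (x : Fin k × Fin n × Fin n → R) :
    (fun m => φ.mapMatrix (mats x m)) = mats (fun q => φ (x q)) := by
  funext m
  ext a b
  simp only [mats, RingHom.mapMatrix_apply, Matrix.map_apply, Matrix.of_apply]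
  split_ifs
  · rfl
  · exact map_zero φ

variable {F : Type} [Field F]

theorem mats_mix {S : Set (Fin k × Fin n × Fin n)} {A y : Fin k × Fin n × Fin n → F} {m : ℕ}
    (h : ∀ q ∈ S, (q.1 : ℕ) ≠ m) : mats (mix S A y) m = mats A m := by
  ext a b
  simp only [mats, Matrix.of_apply]
  split_ifs with h1
  · exact mix_not fun h2 => h _ h2 rfl
  · rfl

theorem tail_mix {S : Set (Fin k × Fin n × Fin n)} {A y : Fin k × Fin n × Fin n → F} {i l : ℕ}
    (h : ∀ q ∈ S, (q.1 : ℕ) < i ∨ i + l ≤ (q.1 : ℕ)) :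
    ((List.range' i l).map (mats (mix S A y))).prod = ((List.range' i l).map (mats A)).prod := by
  congr 1
  refine List.map_congr_left fun m hm => ?_
  rw [List.mem_range'_1] at hm
  refine mats_mix fun q hq => ?_
  have := h q hq
  omega

/-- the entry of the product -/
def ent (i l : ℕ) (a b : Fin n) (R : Type) [CommRing R] (x : Fin k × Fin n × Fin n → R) : R :=
  seg (mats x) i l a b

theorem ent_nat (i l : ℕ) (a b : Fin n) : Natural (ent (k := k) i l a b) := by
  intro R R' _ _ φ x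
  unfold ent
  rw [← mats_map, ← seg_map]
  rfl

/-- the entries of the row `a` of the matrix `i` -/
def row (i : ℕ) (a : Fin n) : Set (Fin k × Fin n × Fin n) := {q | (q.1 : ℕ) = i ∧ q.2.1 = a}

/-- the entries of the column `b` of the matrix `i` -/
def col (i : ℕ) (b : Fin n) : Set (Fin k × Fin n × Fin n) := {q | (q.1 : ℕ) = i ∧ q.2.2 = b}

theorem lin_row {i l : ℕ} (hi : i < k) (a b : Fin n) : LinS (row (k := k) i a) (ent i l a b F) := by
  intro A
  refine ⟨∑ c, (((List.range' (i + 1) l).map (mats A)).prod c b) •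
    LinearMap.proj ((⟨i, hi⟩ : Fin k), a, c), fun y => ?_⟩
  unfold ent
  rw [seg_left, tail_mix (by rintro q ⟨hq, -⟩; omega), Matrix.mul_apply, LinearMap.sum_apply]
  refine Finset.sum_congr rfl fun c _ => ?_
  rw [LinearMap.smul_apply, LinearMap.proj_apply, smul_eq_mul, mul_comm]
  congr 1
  simp only [mats, Matrix.of_apply, dif_pos hi]
  exact mix_mem ⟨rfl, rfl⟩

theorem lin_col {i l : ℕ} (hi : i + l < k) (a b : Fin n) :
    LinS (col (k := k) (i + l) b) (ent i l a b F) := by
  intro A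
  refine ⟨∑ c, (((List.range' i l).map (mats A)).prod a c) •
    LinearMap.proj ((⟨i + l, hi⟩ : Fin k), c, b), fun y => ?_⟩
  unfold ent
  rw [seg_right, tail_mix (by rintro q ⟨hq, -⟩; omega), Matrix.mul_apply, LinearMap.sum_apply]
  refine Finset.sum_congr rfl fun c _ => ?_
  rw [LinearMap.smul_apply, LinearMap.proj_apply, smul_eq_mul]
  congr 1
  simp only [mats, Matrix.of_apply, dif_pos hi]
  exact mix_mem ⟨rfl, rfl⟩

theorem ind_out {S : Set (Fin k × Fin n × Fin n)} {i l : ℕ} (a b : Fin n)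
    (h : ∀ q ∈ S, (q.1 : ℕ) < i ∨ i + l < (q.1 : ℕ)) : IndS S (ent i l a b F) := by
  intro A y
  unfold ent seg
  rw [tail_mix fun q hq => by have := h q hq; omega]

theorem ind_row {i l : ℕ} {a a' : Fin n} (b : Fin n) (h : a ≠ a') :
    IndS (row (k := k) i a) (ent i l a' b F) := by
  intro A y
  unfold ent
  rw [seg_left, seg_left, tail_mix (by rintro q ⟨hq, -⟩; omega), Matrix.mul_apply,
    Matrix.mul_apply]
  refine Finset.sum_congr rfl fun c _ => ?_
  congr 1
  simp only [mats, Matrix.of_apply]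
  split_ifs
  · exact mix_not fun h2 => h h2.2.symm
  · rfl

theorem ind_col {i l : ℕ} {b b' : Fin n} (a : Fin n) (h : b ≠ b') :
    IndS (col (k := k) (i + l) b) (ent i l a b' F) := by
  intro A y
  unfold ent
  rw [seg_right, seg_right, tail_mix (by rintro q ⟨hq, -⟩; omega), Matrix.mul_apply,
    Matrix.mul_apply]
  refine Finset.sum_congr rfl fun c _ => ?_
  congr 1
  simp only [mats, Matrix.of_apply]
  split_ifs
  · exact mix_not fun h2 => h h2.2.symm
  · rfl

/-- alternating signs -/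
def sgn (a : Fin n) : ℤ := (-1) ^ (a : ℕ)

theorem sum_sgn (hn : Odd n) : ∑ a : Fin n, sgn a = 1 := by
  have h : ∀ m : ℕ, ∑ a ∈ range (2 * m + 1), (-1 : ℤ) ^ a = 1 := by
    intro m
    induction m with
    | zero => simp
    | succ m ih =>
      rw [show 2 * (m + 1) + 1 = (2 * m + 1) + 1 + 1 by ring, sum_range_succ, sum_range_succ, ih,
        pow_succ]
      ring
  obtain ⟨m, hm⟩ := hn
  unfold sgn
  rw [Fin.sum_univ_eq_sum_range (fun a => (-1 : ℤ) ^ a) n, hm, h]

theorem seg_one {i l : ℕ} (hn : Odd n) (h : i + l < k) :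
    seg (mats (k := k) (fun q : Fin k × Fin n × Fin n => sgn q.2.2)) i l =
      Matrix.of fun _ b => sgn b := by
  induction l with
  | zero =>
    rw [seg_left]
    ext a b
    simp [mats, show i < k by omega]
  | succ l ih =>
    have e : seg (mats (k := k) (fun q : Fin k × Fin n × Fin n => sgn q.2.2)) i (l + 1) =
        seg (mats (fun q : Fin k × Fin n × Fin n => sgn q.2.2)) i l *
          mats (fun q : Fin k × Fin n × Fin n => sgn q.2.2) (i + (l + 1)) := by
      rw [seg_right]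
      rfl
    rw [e, ih (by omega)]
    ext a b
    rw [Matrix.mul_apply]
    simp only [mats, Matrix.of_apply, dif_pos h]
    rw [← Finset.sum_mul, sum_sgn hn, one_mul]

theorem matrix_products (n k : ℕ) (hn : Odd n) :
    ∃ c : ℝ, 0 < c ∧ ∃ Z₀ : ℝ, ∀ Z : ℕ, Z₀ ≤ Z →
    ∀ M : ℕ → Matrix (Fin n) (Fin n) ℤ, ∃ A : ℕ → Matrix (Fin n) (Fin n) ℤ,
      (∀ l < k, ∀ a b, M l a b < A l a b ∧ A l a b ≤ M l a b + Z) ∧
      ∀ i l : ℕ, i + l < k → ∀ a b, ∀ t : ℤ,
        |(t : ℝ) - (((((List.range' i (l + 1)).map A).prod a b : ℤ)) : ℝ)| ≤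
          c * Pool.Agent.H256R2.SC.ff Z →
        ∃ p : ℕ, p.Prime ∧ (p : ℝ) ≤ (Z : ℝ) ^ (1 / 10 : ℝ) ∧ (p : ℤ) ∣ t := by
  classical
  obtain ⟨c, hc, Z₀, h⟩ := critG
    (ι := {q : (Fin k × Fin k) × (Fin n × Fin n) // (q.1.1 : ℕ) + q.1.2 < k})
    (κ := Fin k × Fin n × Fin n)
    (fun q => ent q.1.1.1 q.1.1.2 q.1.2.1 q.1.2.2)
    (fun q => ent_nat _ _ _ _)
    (fun q => sgn q.2.2)
    (by
      rintro ⟨⟨⟨i, l⟩, ⟨a, b⟩⟩, hq⟩
      show |seg (mats (k := k) (fun q : Fin k × Fin n × Fin n => sgn q.2.2)) i l a b| = 1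
      rw [seg_one hn hq]
      simp [sgn])
    (fun q => ⟨row q.1.1.1 q.1.2.1, fun F _ => lin_row q.1.1.1.2 _ _⟩)
    (by
      rintro ⟨⟨⟨i, l⟩, ⟨a, b⟩⟩, hq⟩ ⟨⟨⟨i', l'⟩, ⟨a', b'⟩⟩, hq'⟩ hne
      dsimp only at hq hq' ⊢
      rcases lt_trichotomy i i' with h1 | h1 | h1
      · refine ⟨row i a, fun F _ => Or.inr ⟨ind_out _ _ ?_, lin_row i.2 _ _⟩⟩
        rintro q ⟨hq, -⟩
        left
        rw [hq]
        exact h1
      · subst h1
        rcases lt_trichotomy l l' with h2 | h2 | h2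
        · refine ⟨col (i + l') b', fun F _ => Or.inl ⟨ind_out _ _ ?_, lin_col hq' _ _⟩⟩
          rintro q ⟨hq, -⟩
          right
          rw [hq]
          have : (l : ℕ) < l' := h2
          omega
        · subst h2
          by_cases h3 : a = a'
          · subst h3
            have h4 : b ≠ b' := by
              rintro rfl
              exact hne rfl
            exact ⟨col (i + l) b, fun F _ => Or.inr ⟨ind_col _ h4, lin_col hq _ _⟩⟩
          · exact ⟨row i a, fun F _ => Or.inr ⟨ind_row _ h3, lin_row i.2 _ _⟩⟩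
        · refine ⟨col (i + l) b, fun F _ => Or.inr ⟨ind_out _ _ ?_, lin_col hq _ _⟩⟩
          rintro q ⟨hq, -⟩
          right
          rw [hq]
          have : (l' : ℕ) < l := h2
          omega
      · refine ⟨row i' a', fun F _ => Or.inl ⟨ind_out _ _ ?_, lin_row i'.2 _ _⟩⟩
        rintro q ⟨hq, -⟩
        left
        rw [hq]
        exact h1)
  refine ⟨c, hc, Z₀, fun Z hZ M => ?_⟩
  obtain ⟨x, hx1, hx2⟩ := h Z hZ (fun q => M q.1 q.2.1 q.2.2)
  refine ⟨mats x, fun l hl a b => ?_, fun i l hil a b t ht => ?_⟩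
  · have := hx1 (⟨l, hl⟩, a, b)
    simpa [mats, hl] using this
  · exact hx2 ⟨((⟨i, by omega⟩, ⟨l, by omega⟩), (a, b)), hil⟩ t ht

end Pool.Agent.X145.ML
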