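import Pool.Agent.X145.ML.Lin

/-!
Record gaps around the multiples `A(x) y_S`.
-/

set_option autoImplicit false

namespace Pool.Agent.X145.ML

open Finset Pool.Agent.X145.PM

section coord

variable {κ : Type} [Fintype κ] [DecidableEq κ] {p : ℕ} [hp : Fact p.Prime]

/-- averaging over one coordinate -/
theorem one_coordK (m : κ) (Q : (κ → ZMod p) → Prop) [DecidablePred Q] :
    p * (univ.filter Q).card =
      ∑ A : κ → ZMod p, (univ.filter (fun y : ZMod p => Q (Function.update A m y))).card := by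
  classical
  simp_rw [Finset.card_filter]
  have h1 : ∀ t : ZMod p, ∑ A : κ → ZMod p, (if Q (Function.update A m (A m + t)) then 1 else 0) =
      ∑ A : κ → ZMod p, if Q A then 1 else 0 := by
    intro t
    refine Fintype.sum_bijective (fun A => Function.update A m (A m + t)) ?_ _ _ (fun A => rfl)
    rw [Function.bijective_iff_has_inverse]
    refine ⟨fun A => Function.update A m (A m - t), fun A => ?_, fun A => ?_⟩
    · simp
    · simp
  have h2 : ∀ A : κ → ZMod p, (∑ y : ZMod p, if Q (Function.update A m y) then 1 else 0) =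
      ∑ t : ZMod p, if Q (Function.update A m (A m + t)) then 1 else 0 := by
    intro A
    exact (Fintype.sum_equiv (Equiv.addLeft (A m)) _ _ (fun t => rfl)).symm
  rw [Finset.sum_congr rfl (fun A _ => h2 A), Finset.sum_comm,
    Finset.sum_congr rfl (fun t _ => h1 t), sum_const, card_univ, ZMod.card, smul_eq_mul]

theorem two_coordK (m m' : κ) (Q : (κ → ZMod p) → Prop) [DecidablePred Q] :
    p * (p * (univ.filter Q).card) =
      ∑ A : κ → ZMod p, (univ.filter (fun z : ZMod p × ZMod p =>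
        Q (Function.update (Function.update A m' z.2) m z.1))).card := by
  classical
  rw [one_coordK m Q]
  have h1 : ∀ A : κ → ZMod p, (univ.filter (fun y : ZMod p => Q (Function.update A m y))).card =
      ∑ y : ZMod p, if Q (Function.update A m y) then 1 else 0 := fun A => card_filter _ _
  rw [Finset.sum_congr rfl (fun A _ => h1 A), Finset.sum_comm, Finset.mul_sum]
  have h2 : ∀ y : ZMod p, p * ∑ A : κ → ZMod p, (if Q (Function.update A m y) then 1 else 0) =
      ∑ A : κ → ZMod p, ∑ z : ZMod p,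
        if Q (Function.update (Function.update A m' z) m y) then 1 else 0 := by
    intro y
    have h3 := one_coordK m' (fun A => Q (Function.update A m y))
    rw [Finset.card_filter] at h3
    rw [h3]
    exact Finset.sum_congr rfl fun A _ => card_filter _ _
  rw [Finset.sum_congr rfl (fun y _ => h2 y), Finset.sum_comm]
  refine Finset.sum_congr rfl fun A _ => ?_
  rw [card_filter, ← univ_product_univ, Finset.sum_product]

end coord

section defs

variable {α β : Type}

/-- `A(x) ∏_{i ∈ S} y_i` -/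
noncomputable def mu (A : MvPolynomial α ℤ) (S : Finset β) (R : Type) [CommRing R]
    (u : α ⊕ β → R) : R :=
  MvPolynomial.aeval (fun i => u (Sum.inl i)) A * ∏ i ∈ S, u (Sum.inr i)

theorem mu_nat (A : MvPolynomial α ℤ) (S : Finset β) : Natural (mu A S) := by
  intro R R' _ _ φ u
  unfold mu
  rw [map_mul, map_prod]
  have h1 := MvPolynomial.comp_aeval_apply (fun i => u (Sum.inl i)) φ.toIntAlgHom A
  have h1' : φ (MvPolynomial.aeval (fun i => u (Sum.inl i)) A) =
      MvPolynomial.aeval (fun i => φ (u (Sum.inl i))) A := h1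
  rw [h1']

variable [DecidableEq α] [DecidableEq β] {R : Type} [CommRing R]

theorem mu_not_mem (A : MvPolynomial α ℤ) (S : Finset β) (u : α ⊕ β → R) {m : β} (hm : m ∉ S)
    (y : R) : mu A S R (Function.update u (Sum.inr m) y) = mu A S R u := by
  unfold mu
  have h1 : (fun i => Function.update u (Sum.inr m) y (Sum.inl i)) = fun i => u (Sum.inl i) := by
    funext i
    rw [Function.update_of_ne]
    exact Sum.inl_ne_inr
  have h2 : ∏ i ∈ S, Function.update u (Sum.inr m) y (Sum.inr i) = ∏ i ∈ S, u (Sum.inr i) := by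
    refine prod_congr rfl fun i hi => ?_
    rw [Function.update_of_ne]
    intro h
    exact hm (Sum.inr.inj h ▸ hi)
  rw [h1, h2]

theorem mu_mem (A : MvPolynomial α ℤ) (S : Finset β) (u : α ⊕ β → R) {m : β} (hm : m ∈ S)
    (y : R) : mu A S R (Function.update u (Sum.inr m) y) = y * mu A (S.erase m) R u := by
  have h1 := mu_not_mem A (S.erase m) u (notMem_erase m S) y
  rw [← h1]
  unfold mu
  rw [← mul_prod_erase S _ hm, Function.update_self]
  ring

end defs

section count

variable {α β : Type} [Fintype α] [DecidableEq α] [Fintype β] [DecidableEq β] {p : ℕ}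
  [hp : Fact p.Prime]

theorem mu_zero (A : MvPolynomial α ℤ) (S : Finset β) (D : ℕ) (hAD : A.totalDegree ≤ D)
    (hA : MvPolynomial.map (Int.castRingHom (ZMod p)) A ≠ 0) :
    p * (univ.filter (fun u : α ⊕ β → ZMod p => mu A S (ZMod p) u = 0)).card ≤
      (D + Fintype.card β) * Fintype.card (α ⊕ β → ZMod p) := by
  classical
  obtain ⟨P, hP⟩ : ∃ P : MvPolynomial (α ⊕ β) (ZMod p), P =
    MvPolynomial.rename Sum.inl (MvPolynomial.map (Int.castRingHom (ZMod p)) A) *
      ∏ i ∈ S, MvPolynomial.X (Sum.inr i) := ⟨_, rfl⟩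
  have hev : ∀ u, MvPolynomial.eval u P = mu A S (ZMod p) u := by
    intro u
    rw [hP, map_mul, map_prod, MvPolynomial.eval_rename]
    unfold mu
    congr 1
    · rw [ev_map]
      rfl
    · exact prod_congr rfl fun i _ => MvPolynomial.eval_X _
  have hP0 : P ≠ 0 := by
    rw [hP]
    refine mul_ne_zero (fun h => hA ?_) (prod_ne_zero_iff.mpr fun i _ => MvPolynomial.X_ne_zero _)
    exact MvPolynomial.rename_injective _ Sum.inl_injective (by rw [h, map_zero])
  have hdeg : P.totalDegree ≤ D + Fintype.card β := by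
    rw [hP]
    refine (MvPolynomial.totalDegree_mul _ _).trans (Nat.add_le_add ?_ ?_)
    · exact (MvPolynomial.totalDegree_rename_le _ _).trans ((map_deg A).trans hAD)
    · refine (MvPolynomial.totalDegree_finsetProd _ _).trans ?_
      have h1 : ∀ i ∈ S, (MvPolynomial.X (Sum.inr i) :
          MvPolynomial (α ⊕ β) (ZMod p)).totalDegree ≤ 1 := fun i _ => by
        rw [MvPolynomial.totalDegree_X]
      refine (sum_le_sum h1).trans ?_
      rw [sum_const, smul_eq_mul, mul_one]
      exact card_le_univ S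
  have h1 := zeros P hP0 hdeg
  simp only [hev] at h1
  exact h1

theorem mu_one (A : MvPolynomial α ℤ) (S : Finset β) (hS : S.Nonempty) (D : ℕ)
    (hAD : A.totalDegree ≤ D) (hA : MvPolynomial.map (Int.castRingHom (ZMod p)) A ≠ 0)
    (r : ZMod p) (hr : r ≠ 0) :
    p * cn (mu A S (ZMod p)) r ≤ Fintype.card (α ⊕ β → ZMod p) ∧
      p * Fintype.card (α ⊕ β → ZMod p) ≤ p * (p * cn (mu A S (ZMod p)) r) +
        (D + Fintype.card β) * Fintype.card (α ⊕ β → ZMod p) := by
  classical
  obtain ⟨m, hm⟩ := hS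
  have h1 : p * cn (mu A S (ZMod p)) r = ∑ u : α ⊕ β → ZMod p,
      if mu A (S.erase m) (ZMod p) u = 0 then 0 else 1 := by
    unfold cn
    rw [one_coordK (Sum.inr m)]
    refine Finset.sum_congr rfl fun u _ => ?_
    split_ifs with h2
    · rw [Finset.card_eq_zero, Finset.filter_eq_empty_iff]
      intro y _ h
      rw [mu_mem A S u hm, h2, mul_zero] at h
      exact hr h.symm
    · rw [Finset.card_eq_one]
      refine ⟨r / mu A (S.erase m) (ZMod p) u, ?_⟩
      ext y
      rw [mem_filter, mem_singleton, mu_mem A S u hm, eq_div_iff h2]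
      simp
  have h2 : (univ.filter (fun u : α ⊕ β → ZMod p => mu A (S.erase m) (ZMod p) u = 0)).card =
      ∑ u : α ⊕ β → ZMod p, if mu A (S.erase m) (ZMod p) u = 0 then 1 else 0 := card_filter _ _
  have h3 : Fintype.card (α ⊕ β → ZMod p) = ∑ u : α ⊕ β → ZMod p, 1 := by simp
  have h4 : p * cn (mu A S (ZMod p)) r +
      (univ.filter (fun u : α ⊕ β → ZMod p => mu A (S.erase m) (ZMod p) u = 0)).card =
      Fintype.card (α ⊕ β → ZMod p) := by
    rw [h1, h2, h3, ← Finset.sum_add_distrib]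
    refine Finset.sum_congr rfl fun u _ => ?_
    by_cases h : mu A (S.erase m) (ZMod p) u = 0 <;> simp [h]
  have h5 := mu_zero (p := p) A (S.erase m) D hAD hA
  have h6 : p * (p * cn (mu A S (ZMod p)) r) +
      p * (univ.filter (fun u : α ⊕ β → ZMod p => mu A (S.erase m) (ZMod p) u = 0)).card =
      p * Fintype.card (α ⊕ β → ZMod p) := by rw [← mul_add, h4]
  constructor <;> omega

theorem mu_two_diff (A A' : MvPolynomial α ℤ) (S T : Finset β) {m m' : β} (hm : m ∈ S)
    (hm' : m' ∈ T) (hn : m' ∉ S) (r s : ZMod p) (hr : r ≠ 0) (hs : s ≠ 0) :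
    p * (p * (univ.filter (fun u : α ⊕ β → ZMod p => mu A S (ZMod p) u = r ∧
      mu A' T (ZMod p) u = s)).card) ≤ Fintype.card (α ⊕ β → ZMod p) := by
  classical
  have hne : m ≠ m' := by
    rintro rfl
    exact hn hm
  rw [two_coordK (Sum.inr m') (Sum.inr m)]
  refine le_trans (Finset.sum_le_sum (g := fun _ => 1) fun u _ => ?_) (by simp)
  rw [Finset.card_le_one]
  rintro ⟨z, y⟩ h ⟨z', y'⟩ h'
  rw [mem_filter] at h h'
  obtain ⟨-, h1, h2⟩ := h
  obtain ⟨-, h1', h2'⟩ := h'
  dsimp only at h1 h2 h1' h2'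
  rw [mu_not_mem A S _ hn, mu_mem A S _ hm] at h1 h1'
  have ha : mu A (S.erase m) (ZMod p) u ≠ 0 := by
    intro h3
    rw [h3, mul_zero] at h1
    exact hr h1.symm
  have e1 : y = y' := mul_right_cancel₀ ha (h1.trans h1'.symm)
  subst e1
  rw [mu_mem A' T _ hm'] at h2 h2'
  have hb : mu A' (T.erase m') (ZMod p) (Function.update u (Sum.inr m) y) ≠ 0 := by
    intro h3
    rw [h3, mul_zero] at h2
    exact hs h2.symm
  rw [mul_right_cancel₀ hb (h2.trans h2'.symm)]

theorem mu_two_same (A A' : MvPolynomial α ℤ) (S : Finset β) (hS : S.Nonempty) (D : ℕ)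
    (hAD : A.totalDegree ≤ D) (hAD' : A'.totalDegree ≤ D) (d d' : α →₀ ℕ)
    (hd : ((A.coeff d * A'.coeff d' - A.coeff d' * A'.coeff d : ℤ) : ZMod p) ≠ 0)
    (r s : ZMod p) (hr : r ≠ 0) :
    p * (p * (univ.filter (fun u : α ⊕ β → ZMod p => mu A S (ZMod p) u = r ∧
      mu A' S (ZMod p) u = s)).card) ≤
      (D + Fintype.card β) * Fintype.card (α ⊕ β → ZMod p) := by
  classical
  obtain ⟨m, hm⟩ := hS
  obtain ⟨E, hE⟩ : ∃ E : MvPolynomial α (ZMod p), E =
    MvPolynomial.C s * MvPolynomial.map (Int.castRingHom (ZMod p)) A -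
      MvPolynomial.C r * MvPolynomial.map (Int.castRingHom (ZMod p)) A' := ⟨_, rfl⟩
  have hE0 : E ≠ 0 := by
    intro h
    have h1 := congrArg (MvPolynomial.coeff d) h
    have h2 := congrArg (MvPolynomial.coeff d') h
    rw [hE, MvPolynomial.coeff_sub, MvPolynomial.coeff_C_mul, MvPolynomial.coeff_C_mul,
      MvPolynomial.coeff_map, MvPolynomial.coeff_map, MvPolynomial.coeff_zero] at h1 h2
    have h1' : s * ((A.coeff d : ℤ) : ZMod p) - r * ((A'.coeff d : ℤ) : ZMod p) = 0 := h1
    have h2' : s * ((A.coeff d' : ℤ) : ZMod p) - r * ((A'.coeff d' : ℤ) : ZMod p) = 0 := h2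
    push_cast at hd
    have h3 : r * (((A.coeff d : ℤ) : ZMod p) * ((A'.coeff d' : ℤ) : ZMod p) -
        ((A.coeff d' : ℤ) : ZMod p) * ((A'.coeff d : ℤ) : ZMod p)) = 0 := by
      linear_combination ((A.coeff d' : ℤ) : ZMod p) * h1' - ((A.coeff d : ℤ) : ZMod p) * h2'
    rcases mul_eq_zero.mp h3 with h4 | h4
    · exact hr h4
    · exact hd h4
  have hEdeg : (MvPolynomial.rename (Sum.inl : α → α ⊕ β) E).totalDegree ≤
      D + Fintype.card β := by
    refine (MvPolynomial.totalDegree_rename_le _ _).trans (le_trans ?_ (Nat.le_add_right _ _))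
    rw [hE]
    have h3 : ∀ (t : ZMod p) (B : MvPolynomial α ℤ), B.totalDegree ≤ D →
        (MvPolynomial.C t * MvPolynomial.map (Int.castRingHom (ZMod p)) B).totalDegree ≤ D := by
      intro t B hB
      refine (MvPolynomial.totalDegree_mul _ _).trans ?_
      rw [MvPolynomial.totalDegree_C, zero_add]
      exact (map_deg B).trans hB
    exact (MvPolynomial.totalDegree_sub _ _).trans (max_le (h3 _ _ hAD) (h3 _ _ hAD'))
  have hRE0 : MvPolynomial.rename (Sum.inl : α → α ⊕ β) E ≠ 0 := fun h =>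
    hE0 (MvPolynomial.rename_injective _ Sum.inl_injective (by rw [h, map_zero]))
  have h1 := zeros _ hRE0 hEdeg
  refine le_trans (Nat.mul_le_mul_left p ?_) h1
  rw [one_coordK (Sum.inr m), Finset.card_filter]
  refine Finset.sum_le_sum fun u _ => ?_
  by_cases hu : MvPolynomial.eval u (MvPolynomial.rename (Sum.inl : α → α ⊕ β) E) = 0
  · rw [if_pos hu, Finset.card_le_one]
    intro y hy y' hy'
    rw [mem_filter] at hy hy'
    have h2 := hy.2.1
    have h3 := hy'.2.1
    rw [mu_mem A S u hm] at h2 h3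
    have ha : mu A (S.erase m) (ZMod p) u ≠ 0 := by
      intro h4
      rw [h4, mul_zero] at h2
      exact hr h2.symm
    exact mul_right_cancel₀ ha (h2.trans h3.symm)
  · rw [if_neg hu, Nat.le_zero, Finset.card_eq_zero, Finset.filter_eq_empty_iff]
    rintro y _ ⟨h2, h3⟩
    apply hu
    rw [mu_mem A S u hm] at h2
    rw [mu_mem A' S u hm] at h3
    rw [MvPolynomial.eval_rename, hE, map_sub, map_mul, map_mul, MvPolynomial.eval_C,
      MvPolynomial.eval_C, ← ev_map, ← ev_map]
    unfold mu at h2 h3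
    have e : (u ∘ Sum.inl : α → ZMod p) = fun i => u (Sum.inl i) := rfl
    rw [e, ← h2, ← h3]
    ring

end count

/-- **the family theorem for multiples** -/
theorem multiples {ι α β : Type} [Fintype ι] [Fintype α] [DecidableEq α] [Fintype β]
    [DecidableEq β] (A : ι → MvPolynomial α ℤ) (S : ι → Finset β) (hA : ∀ j, A j ≠ 0)
    (hS : ∀ j, (S j).Nonempty)
    (hne : ∀ i j, i ≠ j → S i = S j → ∀ μ ν : ℤ, μ ≠ 0 →
      MvPolynomial.C μ * A i ≠ MvPolynomial.C ν * A j) :
    ∃ c : ℝ, 0 < c ∧ ∃ Z₀ : ℝ, ∀ Z : ℕ, Z₀ ≤ Z →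
    ∀ M : α ⊕ β → ℤ, ∃ u : α ⊕ β → ℤ, (∀ k, M k < u k ∧ u k ≤ M k + Z) ∧
      ∀ j, ∀ t : ℤ,
        |(t : ℝ) - ((mu (A j) (S j) ℤ u : ℤ) : ℝ)| ≤ c * Pool.Agent.H256R2.SC.ff Z →
        ∃ p : ℕ, p.Prime ∧ (p : ℝ) ≤ (Z : ℝ) ^ (1 / 10 : ℝ) ∧ (p : ℤ) ∣ t := by
  classical
  have hAe : ∀ j, ∃ d, (A j).coeff d ≠ 0 := fun j => MvPolynomial.ne_zero_iff.mp (hA j)
  choose d hd using hAe
  have hw : ∀ i j, ∃ e : α →₀ ℕ, i ≠ j → S i = S j →
      (A i).coeff (d i) * (A j).coeff e - (A i).coeff e * (A j).coeff (d i) ≠ 0 := by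
    intro i j
    by_cases hij : i ≠ j ∧ S i = S j
    · by_contra hcon
      push Not at hcon
      refine hne j i (Ne.symm hij.1) hij.2.symm ((A i).coeff (d i)) ((A j).coeff (d i)) (hd i) ?_
      ext e
      rw [MvPolynomial.coeff_C_mul, MvPolynomial.coeff_C_mul]
      have := (hcon e).2.2
      linear_combination this
    · exact ⟨0, fun h1 h2 => absurd ⟨h1, h2⟩ hij⟩
  choose e he using hw
  obtain ⟨D, hD⟩ : ∃ D : ℕ, ∀ j, (A j).totalDegree ≤ D :=
    ⟨∑ j, (A j).totalDegree, fun j => single_le_sum (f := fun j => (A j).totalDegree)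
      (fun _ _ => Nat.zero_le _) (mem_univ j)⟩
  obtain ⟨B₁, hB₁⟩ : ∃ B₁ : ℕ, (∀ j, ((A j).coeff (d j)).natAbs ≤ B₁) ∧
      ∀ i j, ((A i).coeff (d i) * (A j).coeff (e i j) -
        (A i).coeff (e i j) * (A j).coeff (d i)).natAbs ≤ B₁ := by
    refine ⟨(∑ j, ((A j).coeff (d j)).natAbs) +
      ∑ i, ∑ j, ((A i).coeff (d i) * (A j).coeff (e i j) -
        (A i).coeff (e i j) * (A j).coeff (d i)).natAbs, fun j => ?_, fun i j => ?_⟩
    · have := single_le_sum (f := fun j => ((A j).coeff (d j)).natAbs)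
        (fun _ _ => Nat.zero_le _) (mem_univ j)
      omega
    · have h1 := single_le_sum (f := fun j => ((A i).coeff (d i) * (A j).coeff (e i j) -
        (A i).coeff (e i j) * (A j).coeff (d i)).natAbs)
        (fun _ _ => Nat.zero_le _) (mem_univ j)
      have h2 := single_le_sum (f := fun i => ∑ j, ((A i).coeff (d i) * (A j).coeff (e i j) -
        (A i).coeff (e i j) * (A j).coeff (d i)).natAbs)
        (fun _ _ => Nat.zero_le _) (mem_univ i)
      omega
  have hcast : ∀ p : ℕ, ∀ _ : Fact p.Prime, B₁ < p → ∀ z : ℤ, z ≠ 0 → z.natAbs ≤ B₁ →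
      (z : ZMod p) ≠ 0 := by
    intro p _ hp z hz hzB h
    rw [ZMod.intCast_zmod_eq_zero_iff_dvd] at h
    have := Nat.le_of_dvd (Int.natAbs_pos.mpr hz) (Int.natCast_dvd.mp h)
    omega
  have hAp : ∀ p : ℕ, ∀ _ : Fact p.Prime, B₁ < p → ∀ j,
      MvPolynomial.map (Int.castRingHom (ZMod p)) (A j) ≠ 0 := by
    intro p hp hpB j h
    have h1 := congrArg (MvPolynomial.coeff (d j)) h
    rw [MvPolynomial.coeff_map, MvPolynomial.coeff_zero] at h1
    exact hcast p hp hpB _ (hd j) (hB₁.1 j) h1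
  refine critN (fun j => mu (A j) (S j)) (fun j => mu_nat _ _) ?_ 2 B₁ (fun _ _ => 0)
    (fun _ => {0}) ?_ (D + Fintype.card β + 1) ?_ ?_
  · intro j
    obtain ⟨x₀, hx₀⟩ : ∃ x₀ : α → ℤ, MvPolynomial.aeval x₀ (A j) ≠ (0 : ℤ) := by
      by_contra hcon
      push Not at hcon
      apply hA j
      refine MvPolynomial.funext fun x => ?_
      rw [map_zero, ← MvPolynomial.aeval_eq_eval]
      exact hcon x
    refine ⟨Sum.elim x₀ (fun _ => 1), ?_⟩
    have h1 : mu (A j) (S j) ℤ (Sum.elim x₀ (fun _ => 1)) = MvPolynomial.aeval x₀ (A j) *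
      ∏ i ∈ S j, 1 := rfl
    have h2 : mu (A j) (S j) ℤ 0 = 0 := by
      obtain ⟨m, hm⟩ := hS j
      unfold mu
      rw [prod_eq_zero hm rfl, mul_zero]
    rw [h1, h2, prod_const_one, mul_one]
    exact hx₀
  · intro j r hr
    rw [mem_singleton] at hr
    subst hr
    refine ⟨2, Nat.prime_two, le_rfl, ?_⟩
    have h2 : mu (A j) (S j) ℤ (fun _ => 0) = 0 := by
      obtain ⟨m, hm⟩ := hS j
      unfold mu
      rw [prod_eq_zero hm rfl, mul_zero]
    show ((2 : ℕ) : ℤ) ∣ mu (A j) (S j) ℤ (fun _ => 0) - 0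
    rw [h2, sub_zero]
    exact dvd_zero _
  · intro p hp hpB j r hr
    have hr0 : r ≠ 0 := by simpa using hr 0 (mem_singleton_self _)
    obtain ⟨h1, h2⟩ := mu_one (p := p) (A j) (S j) (hS j) D (hD j) (hAp p hp hpB j) r hr0
    have h3 : (D + Fintype.card β) * Fintype.card (α ⊕ β → ZMod p) ≤
      (D + Fintype.card β + 1) * Fintype.card (α ⊕ β → ZMod p) :=
      Nat.mul_le_mul_right _ (by omega)
    exact ⟨(Nat.mul_le_mul_left p h1).trans (Nat.le_add_right _ _),
      h2.trans (Nat.add_le_add_left h3 _)⟩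
  · intro p hp hpB i j hij r s hr hs
    have hr0 : r ≠ 0 := by simpa using hr 0 (mem_singleton_self _)
    have hs0 : s ≠ 0 := by simpa using hs 0 (mem_singleton_self _)
    have h3 : (D + Fintype.card β) * Fintype.card (α ⊕ β → ZMod p) ≤
      (D + Fintype.card β + 1) * Fintype.card (α ⊕ β → ZMod p) :=
      Nat.mul_le_mul_right _ (by omega)
    have h4 : Fintype.card (α ⊕ β → ZMod p) ≤
      (D + Fintype.card β + 1) * Fintype.card (α ⊕ β → ZMod p) := by
      nlinarith [Nat.zero_le (Fintype.card (α ⊕ β → ZMod p)), Nat.zero_le D,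
        Nat.zero_le (Fintype.card β),
        Nat.zero_le ((D + Fintype.card β) * Fintype.card (α ⊕ β → ZMod p))]
    by_cases hST : S i = S j
    · have key := mu_two_same (p := p) (A i) (A j) (S i) (hS i) D (hD i) (hD j) (d i) (e i j)
        (hcast p hp hpB _ (he i j hij hST) (hB₁.2 i j)) r s hr0
      have e0 : (univ.filter (fun u : α ⊕ β → ZMod p => mu (A i) (S i) (ZMod p) u = r ∧
          mu (A j) (S j) (ZMod p) u = s)) = (univ.filter (fun u : α ⊕ β → ZMod p =>
          mu (A i) (S i) (ZMod p) u = r ∧ mu (A j) (S i) (ZMod p) u = s)) := by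
        ext u
        simp only [mem_filter, mem_univ, true_and, hST]
      rw [e0]
      exact key.trans h3
    · by_cases hsub : S j ⊆ S i
      · obtain ⟨m', hm', hn⟩ : ∃ m' ∈ S i, m' ∉ S j := by
          by_contra hcon
          push Not at hcon
          exact hST (Subset.antisymm hcon hsub)
        obtain ⟨m, hm⟩ := hS j
        have key := mu_two_diff (p := p) (A j) (A i) (S j) (S i) hm hm' hn s r hs0 hr0
        have e0 : (univ.filter (fun u : α ⊕ β → ZMod p => mu (A i) (S i) (ZMod p) u = r ∧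
            mu (A j) (S j) (ZMod p) u = s)) = (univ.filter (fun u : α ⊕ β → ZMod p =>
            mu (A j) (S j) (ZMod p) u = s ∧ mu (A i) (S i) (ZMod p) u = r)) := by
          ext u
          simp only [mem_filter, mem_univ, true_and]
          exact and_comm
        rw [e0]
        exact key.trans h4
      · obtain ⟨m', hm', hn⟩ : ∃ m' ∈ S j, m' ∉ S i := by
          by_contra hcon
          push Not at hcon
          exact hsub hcon
        obtain ⟨m, hm⟩ := hS i
        have key := mu_two_diff (p := p) (A i) (A j) (S i) (S j) hm hm' hn r s hr0 hs0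
        exact key.trans h4

end Pool.Agent.X145.ML
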