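import Pool.Agent.X145.ML.Crit

/-!
The criterion for families of polynomial functions defined over all commutative rings.
-/

set_option autoImplicit false

namespace Pool.Agent.X145.ML

open Finset Pool.Agent.X145.PM

open scoped Classical in
/-- replace the entries in `S` -/
noncomputable def mix {κ R : Type} (S : Set κ) (A y : κ → R) : κ → R :=
  fun k => if k ∈ S then y k else A k

theorem mix_mem {κ R : Type} {S : Set κ} {A y : κ → R} {k : κ} (h : k ∈ S) :
    mix S A y k = y k := by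
  unfold mix
  rw [if_pos h]

theorem mix_not {κ R : Type} {S : Set κ} {A y : κ → R} {k : κ} (h : k ∉ S) :
    mix S A y k = A k := by
  unfold mix
  rw [if_neg h]

/-- linear (homogeneous) in the variables in `S` -/
def LinS {κ F : Type} [Field F] (S : Set κ) (g : (κ → F) → F) : Prop :=
  ∀ A : κ → F, ∃ l : (κ → F) →ₗ[F] F, ∀ y, g (mix S A y) = l y

/-- independent of the variables in `S` -/
def IndS {κ F : Type} [Field F] (S : Set κ) (g : (κ → F) → F) : Prop :=
  ∀ A y : κ → F, g (mix S A y) = g A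

/-- a function defined over all commutative rings, compatible with ring homomorphisms -/
def Natural {κ : Type} (G : ∀ (R : Type) [CommRing R], (κ → R) → R) : Prop :=
  ∀ (R R' : Type) [CommRing R] [CommRing R'] (φ : R →+* R') (x : κ → R),
    φ (G R x) = G R' (fun k => φ (x k))

theorem critG {ι κ : Type} [Fintype ι] [Fintype κ]
    (G : ι → ∀ (R : Type) [CommRing R], (κ → R) → R) (hG : ∀ j, Natural (G j))
    (A₁ : κ → ℤ) (h1 : ∀ j, |G j ℤ A₁| = 1)
    (hS : ∀ j, ∃ S : Set κ, ∀ (F : Type) [Field F], LinS S (G j F))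
    (hT : ∀ i j, i ≠ j → ∃ T : Set κ, ∀ (F : Type) [Field F],
      (IndS T (G i F) ∧ LinS T (G j F)) ∨ (IndS T (G j F) ∧ LinS T (G i F))) :
    ∃ c : ℝ, 0 < c ∧ ∃ Z₀ : ℝ, ∀ Z : ℕ, Z₀ ≤ Z →
    ∀ M : κ → ℤ, ∃ A : κ → ℤ, (∀ k, M k < A k ∧ A k ≤ M k + Z) ∧
      ∀ j, ∀ t : ℤ, |(t : ℝ) - ((G j ℤ A : ℤ) : ℝ)| ≤ c * Pool.Agent.H256R2.SC.ff Z →
        ∃ p : ℕ, p.Prime ∧ (p : ℝ) ≤ (Z : ℝ) ^ (1 / 10 : ℝ) ∧ (p : ℤ) ∣ t := by
  classical
  obtain ⟨P, hP⟩ : ∃ P : ι → MvPolynomial κ ℤ,
      ∀ j, P j = G j (MvPolynomial κ ℤ) MvPolynomial.X := ⟨_, fun _ => rfl⟩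
  have ae : ∀ (R : Type) [CommRing R] (j : ι) (x : κ → R),
      MvPolynomial.aeval x (P j) = G j R x := by
    intro R _ j x
    rw [hP]
    have h := hG j (MvPolynomial κ ℤ) R (MvPolynomial.aeval x : MvPolynomial κ ℤ →ₐ[ℤ] R).toRingHom
      MvPolynomial.X
    refine h.trans ?_
    congr 1
    funext k
    exact MvPolynomial.aeval_X x k
  have ee : ∀ (j : ι) (x : κ → ℤ), MvPolynomial.eval x (P j) = G j ℤ x := by
    intro j x
    rw [← MvPolynomial.aeval_eq_eval]
    exact ae ℤ j x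
  have hupd : ∀ (R : Type) (S : Set κ) (A y : κ → R), upd (· ∈ S) A y = mix S A y := by
    intro R S A y
    funext k
    unfold upd mix
    congr
  choose S hS' using hS
  have hT' : ∀ i j, ∃ T : Set κ, i ≠ j → ∀ (F : Type) [Field F],
      (IndS T (G i F) ∧ LinS T (G j F)) ∨ (IndS T (G j F) ∧ LinS T (G i F)) := by
    intro i j
    by_cases h : i = j
    · exact ⟨∅, fun h' => absurd h h'⟩
    · obtain ⟨T, hT⟩ := hT i j h
      exact ⟨T, fun _ => hT⟩
  choose T hT'' using hT'
  obtain ⟨c, hc, Z₀, h⟩ := crit P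
    (by
      intro j
      rw [ee]
      obtain ⟨l, hl⟩ := hS' j ℚ 0
      have h2 := hl 0
      rw [map_zero] at h2
      have h3 : mix (S j) (0 : κ → ℚ) 0 = 0 := by
        funext k
        unfold mix
        split_ifs <;> rfl
      rw [h3] at h2
      have h4 := hG j ℤ ℚ (Int.castRingHom ℚ) 0
      have h5 : (fun k : κ => (Int.castRingHom ℚ) ((0 : κ → ℤ) k)) = (0 : κ → ℚ) := by
        funext k
        simp
      rw [h5, h2] at h4
      simpa using h4)
    A₁ (by intro j; rw [ee]; exact h1 j)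
    (fun j => (· ∈ S j))
    (by
      intro j p hp A
      obtain ⟨l, hl⟩ := hS' j (ZMod p) A
      refine ⟨l, fun y => ?_⟩
      show MvPolynomial.aeval (upd (· ∈ S j) A y) (P j) = l y
      rw [hupd, ae]
      exact hl y)
    (fun i j => (· ∈ T i j))
    (by
      intro i j hij p hp
      rcases hT'' i j hij (ZMod p) with ⟨ha, hb⟩ | ⟨ha, hb⟩
      · left
        refine ⟨fun A y => ?_, fun A => ?_⟩
        · rw [hupd, ae, ae]
          exact ha A y
        · obtain ⟨l, hl⟩ := hb A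
          refine ⟨l, fun y => ?_⟩
          show MvPolynomial.aeval (upd (· ∈ T i j) A y) (P j) = l y
          rw [hupd, ae]
          exact hl y
      · right
        refine ⟨fun A y => ?_, fun A => ?_⟩
        · rw [hupd, ae, ae]
          exact ha A y
        · obtain ⟨l, hl⟩ := hb A
          refine ⟨l, fun y => ?_⟩
          show MvPolynomial.aeval (upd (· ∈ T i j) A y) (P i) = l y
          rw [hupd, ae]
          exact hl y)
  refine ⟨c, hc, Z₀, fun Z hZ M => ?_⟩
  obtain ⟨A, hA1, hA2⟩ := h Z hZ M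
  refine ⟨A, hA1, fun j t ht => hA2 j t ?_⟩
  rw [ee]
  exact ht

end Pool.Agent.X145.ML
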