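import Pool.Agent.X145.ML.Cont

/-!
Record gaps around products of linear polynomials in different variables.
-/

set_option autoImplicit false

namespace Pool.Agent.X145.ML

open Finset Pool.Agent.X145.PM

/-- `∏_{i ∈ S} (u_i x_i + a_i)` -/
def gg {d : ℕ} (S : Finset (Fin d)) (u a : Fin d → ℕ) (R : Type) [CommRing R] (x : Fin d → R) : R :=
  ∏ i ∈ S, ((u i : R) * x i + (a i : R))

theorem gg_nat {d : ℕ} (S : Finset (Fin d)) (u a : Fin d → ℕ) : Natural (gg S u a) := by
  intro R R' _ _ φ x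
  unfold gg
  rw [map_prod]
  refine prod_congr rfl fun i _ => ?_
  rw [map_add, map_mul, map_natCast, map_natCast]

section ring

variable {d : ℕ} {R : Type} [CommRing R] (S : Finset (Fin d)) (u a : Fin d → ℕ)

theorem gg_not_mem (A : Fin d → R) {m : Fin d} (y : R) (hm : m ∉ S) :
    gg S u a R (Function.update A m y) = gg S u a R A := by
  unfold gg
  refine prod_congr rfl fun i hi => ?_
  rw [Function.update_of_ne]
  rintro rfl
  exact hm hi

theorem gg_mem (A : Fin d → R) {m : Fin d} (y : R) (hm : m ∈ S) :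
    gg S u a R (Function.update A m y) = ((u m : R) * y + (a m : R)) * gg (S.erase m) u a R A := by
  have h1 := gg_not_mem (S.erase m) u a A y (notMem_erase m S)
  rw [← h1]
  unfold gg
  rw [← mul_prod_erase S _ hm, Function.update_self]

end ring

section count

variable {d p : ℕ} [hp : Fact p.Prime]

theorem two_coord (m m' : Fin d) (Q : (Fin d → ZMod p) → Prop) [DecidablePred Q] :
    p * (p * (univ.filter Q).card) =
      ∑ A : Fin d → ZMod p, (univ.filter (fun z : ZMod p × ZMod p =>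
        Q (Function.update (Function.update A m' z.2) m z.1))).card := by
  classical
  rw [one_coord m Q]
  have h1 : ∀ A : Fin d → ZMod p, (univ.filter (fun y : ZMod p => Q (Function.update A m y))).card =
      ∑ y : ZMod p, if Q (Function.update A m y) then 1 else 0 := fun A => card_filter _ _
  rw [Finset.sum_congr rfl (fun A _ => h1 A), Finset.sum_comm, Finset.mul_sum]
  have h2 : ∀ y : ZMod p, p * ∑ A : Fin d → ZMod p, (if Q (Function.update A m y) then 1 else 0) =
      ∑ A : Fin d → ZMod p, ∑ z : ZMod p,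
        if Q (Function.update (Function.update A m' z) m y) then 1 else 0 := by
    intro y
    have h3 := one_coord m' (fun A => Q (Function.update A m y))
    rw [Finset.card_filter] at h3
    rw [h3]
    exact Finset.sum_congr rfl fun A _ => card_filter _ _
  rw [Finset.sum_congr rfl (fun y _ => h2 y), Finset.sum_comm]
  refine Finset.sum_congr rfl fun A _ => ?_
  rw [card_filter, ← univ_product_univ, Finset.sum_product]

/-- the number of points with one coordinate fixed -/
theorem coord_zero (m : Fin d) (u a : ZMod p) (hu : u ≠ 0) :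
    p * (univ.filter (fun A : Fin d → ZMod p => u * A m + a = 0)).card = VV d p := by
  classical
  rw [one_coord m, Finset.sum_congr rfl (fun A _ => ?_), sum_const, card_univ, smul_eq_mul,
    mul_one]
  rw [Finset.card_eq_one]
  refine ⟨-a / u, ?_⟩
  ext y
  rw [mem_filter, mem_singleton, Function.update_self]
  constructor
  · rintro ⟨-, h⟩
    rw [eq_div_iff hu]
    linear_combination h
  · intro h
    refine ⟨mem_univ _, ?_⟩
    rw [h]
    field_simp
    ring

theorem gg_zero (S : Finset (Fin d)) (u a : Fin d → ℕ) (hu : ∀ i ∈ S, (u i : ZMod p) ≠ 0) :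
    p * (univ.filter (fun A : Fin d → ZMod p => gg S u a (ZMod p) A = 0)).card ≤
      S.card * VV d p := by
  classical
  have h1 : (univ.filter (fun A : Fin d → ZMod p => gg S u a (ZMod p) A = 0)) ⊆
      S.biUnion fun i => univ.filter (fun A : Fin d → ZMod p =>
        (u i : ZMod p) * A i + (a i : ZMod p) = 0) := by
    intro A hA
    rw [mem_filter] at hA
    have h2 := hA.2
    unfold gg at h2
    rw [prod_eq_zero_iff] at h2
    obtain ⟨i, hi, h3⟩ := h2
    rw [mem_biUnion]
    exact ⟨i, hi, by rw [mem_filter]; exact ⟨mem_univ _, h3⟩⟩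
  refine (Nat.mul_le_mul_left p ((card_le_card h1).trans card_biUnion_le)).trans ?_
  rw [Finset.mul_sum, Finset.sum_congr rfl (fun i hi => coord_zero i _ _ (hu i hi)), sum_const,
    smul_eq_mul]

theorem gg_value (S : Finset (Fin d)) (u a : Fin d → ℕ) (hu : ∀ i ∈ S, (u i : ZMod p) ≠ 0)
    (hS : S.Nonempty) (r : ZMod p) (hr : r ≠ 0) :
    p * (p * cn (gg S u a (ZMod p)) r) ≤ p * VV d p ∧
      p * VV d p ≤ p * (p * cn (gg S u a (ZMod p)) r) + S.card * VV d p := by
  classical
  obtain ⟨m, hm⟩ := hS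
  have h1 : p * cn (gg S u a (ZMod p)) r = ∑ A : Fin d → ZMod p,
      if gg (S.erase m) u a (ZMod p) A ≠ 0 then 1 else 0 := by
    unfold cn
    rw [one_coord m]
    refine Finset.sum_congr rfl fun A _ => ?_
    split_ifs with h2
    · rw [Finset.card_eq_one]
      refine ⟨(r / gg (S.erase m) u a (ZMod p) A - a m) / u m, ?_⟩
      have h3 := hu m hm
      ext y
      rw [mem_filter, mem_singleton, gg_mem S u a A y hm]
      constructor
      · rintro ⟨-, h⟩
        rw [← h]
        field_simp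
        ring
      · intro h
        refine ⟨mem_univ _, ?_⟩
        rw [h]
        field_simp
        ring
    · push Not at h2
      rw [Finset.card_eq_zero, Finset.filter_eq_empty_iff]
      intro y _ h
      rw [gg_mem S u a A y hm, h2, mul_zero] at h
      exact hr h.symm
  have h2 : (univ.filter (fun A : Fin d → ZMod p => gg (S.erase m) u a (ZMod p) A = 0)).card =
      ∑ A : Fin d → ZMod p, if gg (S.erase m) u a (ZMod p) A = 0 then 1 else 0 := card_filter _ _
  have h3 : VV d p = ∑ A : Fin d → ZMod p, 1 := by simp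
  have h4 : p * cn (gg S u a (ZMod p)) r +
      (univ.filter (fun A : Fin d → ZMod p => gg (S.erase m) u a (ZMod p) A = 0)).card =
      VV d p := by
    rw [h1, h2, h3, ← Finset.sum_add_distrib]
    refine Finset.sum_congr rfl fun A _ => ?_
    by_cases ha : gg (S.erase m) u a (ZMod p) A = 0 <;> simp [ha]
  have h5 := gg_zero (S.erase m) u a (p := p) fun i hi => hu i (mem_of_mem_erase hi)
  have h6 : (S.erase m).card * VV d p ≤ S.card * VV d p :=
    Nat.mul_le_mul_right _ (card_le_card (erase_subset m S))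
  have h7 : p * (p * cn (gg S u a (ZMod p)) r) +
      p * (univ.filter (fun A : Fin d → ZMod p => gg (S.erase m) u a (ZMod p) A = 0)).card =
      p * VV d p := by
    rw [← mul_add, h4]
  constructor <;> omega

/-- two products over different sets -/
theorem gg_two (S T : Finset (Fin d)) (u a u' a' : Fin d → ℕ)
    (hu : ∀ i ∈ S, (u i : ZMod p) ≠ 0) (hu' : ∀ i ∈ T, (u' i : ZMod p) ≠ 0)
    {m m' : Fin d} (hm : m ∈ S) (hm' : m' ∈ T) (hn : m' ∉ S) (r s : ZMod p)
    (hr : r ≠ 0) (hs : s ≠ 0) :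
    p * (p * (univ.filter (fun A : Fin d → ZMod p => gg S u a (ZMod p) A = r ∧
      gg T u' a' (ZMod p) A = s)).card) ≤ VV d p := by
  classical
  have hne : m ≠ m' := by
    rintro rfl
    exact hn hm
  rw [two_coord m' m, ← mul_one (VV d p), show VV d p * 1 = ∑ A : Fin d → ZMod p, 1 by simp]
  refine Finset.sum_le_sum fun A _ => ?_
  rw [Finset.card_le_one]
  rintro ⟨z, y⟩ h ⟨z', y'⟩ h'
  rw [mem_filter] at h h'
  obtain ⟨-, h1, h2⟩ := h
  obtain ⟨-, h1', h2'⟩ := h'
  dsimp only at h1 h2 h1' h2'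
  rw [gg_not_mem S u a _ _ hn, gg_mem S u a _ _ hm] at h1 h1'
  have hum := hu m hm
  have hum' := hu' m' hm'
  have ha : gg (S.erase m) u a (ZMod p) A ≠ 0 := by
    intro h3
    rw [h3, mul_zero] at h1
    exact hr h1.symm
  have e1 : y = y' := by
    have h4 := h1.trans h1'.symm
    have h5 := mul_right_cancel₀ ha h4
    have h6 := add_right_cancel h5
    exact mul_left_cancel₀ hum h6
  subst e1
  rw [gg_mem T u' a' _ _ hm'] at h2 h2'
  have hb : gg (T.erase m') u' a' (ZMod p) (Function.update A m y) ≠ 0 := by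
    intro h3
    rw [h3, mul_zero] at h2
    exact hs h2.symm
  have e2 : z = z' := by
    have h4 := h2.trans h2'.symm
    have h5 := mul_right_cancel₀ hb h4
    have h6 := add_right_cancel h5
    exact mul_left_cancel₀ hum' h6
  rw [e2]

open Polynomial in
/-- two bilinear equations -/
theorem quad {F : Type} [Field F] [Fintype F] [DecidableEq F] (u₀ a₀ u₁ a₁ v₀ b₀ v₁ b₁ α β r s : F)
    (h0 : u₀ ≠ 0) (h1 : u₁ ≠ 0) (h3 : v₁ ≠ 0) (hD : u₀ * b₀ - v₀ * a₀ ≠ 0)
    (hr : r ≠ 0) (hs : s ≠ 0) :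
    (univ.filter (fun z : F × F => (u₀ * z.1 + a₀) * ((u₁ * z.2 + a₁) * α) = r ∧
      (v₀ * z.1 + b₀) * ((v₁ * z.2 + b₁) * β) = s)).card ≤ 2 := by
  classical
  by_cases hβ : β = 0
  · rw [Finset.card_eq_zero.mpr]
    · omega
    · rw [Finset.filter_eq_empty_iff]
      rintro z _ ⟨-, h⟩
      rw [hβ] at h
      apply hs
      rw [← h]
      ring
  obtain ⟨P, hP⟩ : ∃ P : F[X], P = C β * (C v₀ * X + C b₀) * (C (v₁ * r) +
      C (α * (u₁ * b₁ - v₁ * a₁)) * (C u₀ * X + C a₀)) - C (s * α * u₁) * (C u₀ * X + C a₀) :=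
    ⟨_, rfl⟩
  have hev : ∀ y : F, P.eval y = β * (v₀ * y + b₀) * (v₁ * r +
      (α * (u₁ * b₁ - v₁ * a₁)) * (u₀ * y + a₀)) - (s * α * u₁) * (u₀ * y + a₀) := by
    intro y
    rw [hP]
    simp
  have hP0 : P ≠ 0 := by
    intro h
    have h4 := hev (-a₀ / u₀)
    rw [h, eval_zero] at h4
    have h5 : u₀ * (-a₀ / u₀) + a₀ = 0 := by
      field_simp
      ring
    rw [h5, mul_zero, mul_zero, add_zero, sub_zero] at h4
    have h6 : v₀ * (-a₀ / u₀) + b₀ = (u₀ * b₀ - v₀ * a₀) / u₀ := by
      field_simp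
      ring
    rw [h6] at h4
    have h7 : β * ((u₀ * b₀ - v₀ * a₀) / u₀) * (v₁ * r) ≠ 0 :=
      mul_ne_zero (mul_ne_zero hβ (div_ne_zero hD h0)) (mul_ne_zero h3 hr)
    exact h7 h4.symm
  have hdeg : P.natDegree ≤ 2 := by
    rw [hP]
    compute_degree
  have hroots : P.roots.toFinset.card ≤ 2 :=
    (Multiset.toFinset_card_le _).trans ((card_roots' P).trans hdeg)
  refine le_trans ?_ hroots
  refine Finset.card_le_card_of_injOn Prod.fst ?_ ?_
  · rintro ⟨y, z⟩ h
    rw [mem_coe, mem_filter] at h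
    obtain ⟨-, h4, h5⟩ := h
    dsimp only at h4 h5 ⊢
    rw [mem_coe, Multiset.mem_toFinset, mem_roots hP0, IsRoot.def, hev]
    have h6 : (u₀ * y + a₀) * α ≠ 0 := by
      intro h6
      apply hr
      rw [← h4]
      linear_combination (u₁ * z + a₁) * h6
    linear_combination (u₁ * (u₀ * y + a₀) * α) * h5 - β * (v₀ * y + b₀) * v₁ * h4
  · rintro ⟨y, z⟩ h ⟨y', z'⟩ h' he
    rw [mem_coe, mem_filter] at h h'
    obtain ⟨-, h4, h5⟩ := h
    obtain ⟨-, h4', h5'⟩ := h'
    dsimp only at h4 h5 h4' h5' he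
    subst he
    have h6 : (u₀ * y + a₀) * α * u₁ ≠ 0 := by
      refine mul_ne_zero (fun h6 => hr ?_) h1
      rw [← h4]
      linear_combination (u₁ * z + a₁) * h6
    have h7 : (u₀ * y + a₀) * α * u₁ * z = (u₀ * y + a₀) * α * u₁ * z' := by
      linear_combination h4 - h4'
    rw [mul_left_cancel₀ h6 h7]

/-- two products over the same set -/
theorem gg_same (S : Finset (Fin d)) (u a u' a' : Fin d → ℕ)
    (hu : ∀ i ∈ S, (u i : ZMod p) ≠ 0) (hu' : ∀ i ∈ S, (u' i : ZMod p) ≠ 0)
    {m m' : Fin d} (hm : m ∈ S) (hm' : m' ∈ S) (hne : m ≠ m')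
    (hD : (u m : ZMod p) * a' m - u' m * a m ≠ 0) (r s : ZMod p)
    (hr : r ≠ 0) (hs : s ≠ 0) :
    p * (p * (univ.filter (fun A : Fin d → ZMod p => gg S u a (ZMod p) A = r ∧
      gg S u' a' (ZMod p) A = s)).card) ≤ 2 * VV d p := by
  classical
  rw [two_coord m m', show 2 * VV d p = ∑ A : Fin d → ZMod p, 2 by simp [mul_comm]]
  refine Finset.sum_le_sum fun A _ => ?_
  refine le_trans (le_of_eq ?_) (quad (u m : ZMod p) (a m) (u m') (a m') (u' m) (a' m) (u' m')
    (a' m') (gg ((S.erase m).erase m') u a (ZMod p) A) (gg ((S.erase m).erase m') u' a' (ZMod p) A)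
    r s (hu m hm) (hu m' hm') (hu' m' hm') hD hr hs)
  congr 1
  ext z
  rw [mem_filter, mem_filter, gg_mem S u a _ _ hm, gg_mem S u' a' _ _ hm,
    gg_mem (S.erase m) u a _ _ (mem_erase.mpr ⟨hne.symm, hm'⟩),
    gg_mem (S.erase m) u' a' _ _ (mem_erase.mpr ⟨hne.symm, hm'⟩)]

end count

/-- **products of linear polynomials** -/
theorem products {ι : Type} [Fintype ι] (d K : ℕ) (S : ι → Finset (Fin d)) (u a : ι → Fin d → ℕ)
    (hS : ∀ j, (S j).Nonempty)
    (hu : ∀ j, ∀ i ∈ S j, 1 ≤ u j i ∧ u j i ≤ K ∧ a j i ≤ K ∧ Nat.Coprime (u j i) (a j i))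
    (hne : ∀ j k, j ≠ k → S j = S k → 2 ≤ (S j).card ∧
      ∃ i ∈ S j, u j i ≠ u k i ∨ a j i ≠ a k i) :
    ∃ c : ℝ, 0 < c ∧ ∃ Z₀ : ℝ, ∀ Z : ℕ, Z₀ ≤ Z →
    ∀ M : Fin d → ℤ, ∃ x : Fin d → ℤ, (∀ m, M m < x m ∧ x m ≤ M m + Z) ∧
      ∀ j, ∀ t : ℤ,
        |(t : ℝ) - ((gg (S j) (u j) (a j) ℤ x : ℤ) : ℝ)| ≤ c * Pool.Agent.H256R2.SC.ff Z →
        ∃ p : ℕ, p.Prime ∧ (p : ℝ) ≤ (Z : ℝ) ^ (1 / 10 : ℝ) ∧ (p : ℤ) ∣ t := by
  classical
  -- primes for the exceptional value
  obtain ⟨P, hPdef⟩ : ∃ P : ℕ → ℕ → ℕ, P = fun u a => Nat.nth Nat.Prime (Nat.pair u a + K) :=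
    ⟨_, rfl⟩
  have hPp : ∀ u a, (P u a).Prime := fun u a => by
    rw [hPdef]
    exact Nat.prime_nth_prime _
  have hPK : ∀ u a, K < P u a := fun u a => by
    rw [hPdef]
    have h1 : Nat.pair u a + K + 2 ≤ Nat.nth Nat.Prime (Nat.pair u a + K) :=
      Nat.add_two_le_nth_prime _
    dsimp only
    omega
  have hz : ∀ u a : ℕ, ∃ z : ℤ, 1 ≤ u → u ≤ K → ((P u a : ℕ) : ℤ) ∣ u * z + a := by
    intro u a
    by_cases h1 : 1 ≤ u ∧ u ≤ K
    · have h2 : Nat.Coprime u (P u a) := by
        rw [Nat.coprime_comm, (hPp u a).coprime_iff_not_dvd]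
        intro h3
        have := Nat.le_of_dvd (by omega) h3
        have := hPK u a
        omega
      have h3 : IsCoprime (u : ℤ) ((P u a : ℕ) : ℤ) := Nat.isCoprime_iff_coprime.mpr h2
      obtain ⟨x, y, h4⟩ := h3
      refine ⟨-(a : ℤ) * x, fun _ _ => ⟨a * y, ?_⟩⟩
      linear_combination (-(a : ℤ)) * h4
    · refine ⟨0, fun h2 h3 => absurd ⟨h2, h3⟩ h1⟩
  choose z hz using hz
  obtain ⟨B₀, hB₀⟩ : ∃ B₀ : ℕ, ∀ u ≤ K, ∀ a ≤ K, P u a ≤ B₀ := by
    refine ⟨∑ u ∈ range (K + 1), ∑ a ∈ range (K + 1), P u a, fun u hu a ha => ?_⟩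
    have h1 : P u a ≤ ∑ a ∈ range (K + 1), P u a :=
      single_le_sum (f := fun a => P u a) (fun _ _ => Nat.zero_le _) (mem_range.mpr (by omega))
    have h2 : ∑ a ∈ range (K + 1), P u a ≤ ∑ u ∈ range (K + 1), ∑ a ∈ range (K + 1), P u a :=
      single_le_sum (f := fun u => ∑ a ∈ range (K + 1), P u a) (fun _ _ => Nat.zero_le _)
        (mem_range.mpr (by omega))
    exact h1.trans h2
  have hcast : ∀ p : ℕ, ∀ _ : Fact p.Prime, K * K + K < p → ∀ j, ∀ i ∈ S j,
      (u j i : ZMod p) ≠ 0 := by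
    intro p _ hp j i hi h
    rw [ZMod.natCast_eq_zero_iff] at h
    have h1 := hu j i hi
    have := Nat.le_of_dvd (by omega) h
    have : K ≤ K * K + K := by nlinarith
    omega
  refine critK (fun j => gg (S j) (u j) (a j)) (fun j => gg_nat _ _ _) (fun _ => 1)
    ?_ B₀ (K * K + K)
    (fun p _ => z (Nat.unpair (Nat.count Nat.Prime p - K)).1
      (Nat.unpair (Nat.count Nat.Prime p - K)).2)
    (fun _ => {0}) ?_ (d + 2) ?_ ?_
  · intro j
    obtain ⟨m, hm⟩ := hS j
    show gg (S j) (u j) (a j) ℤ 0 < gg (S j) (u j) (a j) ℤ (fun _ => 1)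
    unfold gg
    rw [← mul_prod_erase (S j) _ hm, ← mul_prod_erase (S j) _ hm]
    have h1 : ∏ i ∈ (S j).erase m, ((u j i : ℤ) * (0 : Fin d → ℤ) i + (a j i : ℤ)) ≤
        ∏ i ∈ (S j).erase m, ((u j i : ℤ) * 1 + (a j i : ℤ)) := by
      refine prod_le_prod (fun i _ => ?_) (fun i _ => ?_)
      · simp
      · simp
    have h2 : 0 < ∏ i ∈ (S j).erase m, ((u j i : ℤ) * 1 + (a j i : ℤ)) := by
      refine prod_pos fun i hi => ?_
      have := (hu j i (mem_of_mem_erase hi)).1
      have h3 : (1 : ℤ) ≤ u j i := by exact_mod_cast this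
      have h4 : (0 : ℤ) ≤ a j i := Int.natCast_nonneg _
      linarith
    have h3 : (1 : ℤ) ≤ u j m := by exact_mod_cast (hu j m hm).1
    have h4 : (0 : ℤ) ≤ a j m := Int.natCast_nonneg _
    simp only [Pi.zero_apply, mul_zero, zero_add, mul_one] at h1 h2 ⊢
    nlinarith
  · intro j r hr
    rw [mem_singleton] at hr
    subst hr
    obtain ⟨m, hm⟩ := hS j
    obtain ⟨h1, h2, h3, -⟩ := hu j m hm
    refine ⟨P (u j m) (a j m), hPp _ _, hB₀ _ h2 _ h3, ?_⟩
    have h4 : Nat.count Nat.Prime (P (u j m) (a j m)) - K = Nat.pair (u j m) (a j m) := by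
      rw [hPdef]
      dsimp only
      rw [Nat.count_nth_of_infinite Nat.infinite_setOfPred_prime]
      omega
    rw [sub_zero]
    refine dvd_trans ?_ (dvd_prod_of_mem (fun i => ((u j i : ℤ) * z
      (Nat.unpair (Nat.count Nat.Prime (P (u j m) (a j m)) - K)).1
      (Nat.unpair (Nat.count Nat.Prime (P (u j m) (a j m)) - K)).2 + (a j i : ℤ))) hm)
    rw [h4, Nat.unpair_pair]
    exact hz _ _ h1 h2
  · intro p hp hpK j r hr
    have hr0 : r ≠ 0 := by simpa using hr 0 (mem_singleton_self _)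
    obtain ⟨h1, h2⟩ := gg_value (S j) (u j) (a j) (hcast p hp hpK j) (hS j) r hr0
    have h3 : (S j).card ≤ d := by
      have := card_le_univ (S j)
      rwa [Fintype.card_fin] at this
    have h4 : (S j).card * VV d p ≤ (d + 2) * VV d p := Nat.mul_le_mul_right _ (by omega)
    exact ⟨h1.trans (Nat.le_add_right _ _), h2.trans (Nat.add_le_add_left h4 _)⟩
  · intro p hp hpK j k hjk r s hr hs
    have hr0 : r ≠ 0 := by simpa using hr 0 (mem_singleton_self _)
    have hs0 : s ≠ 0 := by simpa using hs 0 (mem_singleton_self _)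
    have h2V : 2 * VV d p ≤ (d + 2) * VV d p := Nat.mul_le_mul_right _ (by omega)
    have h1V : VV d p ≤ (d + 2) * VV d p := by nlinarith [Nat.zero_le (VV d p)]
    by_cases hST : S j = S k
    · obtain ⟨h1, m, hm, h2⟩ := hne j k hjk hST
      obtain ⟨m', hm', hmm⟩ : ∃ m' ∈ S j, m ≠ m' := by
        obtain ⟨m', h3, h4⟩ := exists_mem_ne (by omega : 1 < (S j).card) m
        exact ⟨m', h3, h4.symm⟩
      obtain ⟨a1, a2, a3, a4⟩ := hu j m hm
      obtain ⟨b1, b2, b3, b4⟩ := hu k m (hST ▸ hm)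
      have hD : (u j m : ZMod p) * a k m - u k m * a j m ≠ 0 := by
        intro h3
        have h4 : (((u j m : ℤ) * a k m - u k m * a j m : ℤ) : ZMod p) = 0 := by
          push_cast
          exact h3
        rw [ZMod.intCast_zmod_eq_zero_iff_dvd] at h4
        have h5 : (u j m : ℤ) * a k m - u k m * a j m = 0 := by
          refine Int.eq_zero_of_abs_lt_dvd h4 ?_
          have c1 : ((u j m * a k m : ℕ) : ℤ) ≤ ((K * K : ℕ) : ℤ) := by
            exact_mod_cast Nat.mul_le_mul a2 b3
          have c2 : ((u k m * a j m : ℕ) : ℤ) ≤ ((K * K : ℕ) : ℤ) := by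
            exact_mod_cast Nat.mul_le_mul b2 a3
          have c3 : ((K * K + K : ℕ) : ℤ) < (p : ℤ) := by exact_mod_cast hpK
          push_cast at c1 c2 c3
          have c4 : (0 : ℤ) ≤ (u j m : ℤ) * a k m := by positivity
          have c5 : (0 : ℤ) ≤ (u k m : ℤ) * a j m := by positivity
          have c6 : (0 : ℤ) ≤ (K : ℤ) := by positivity
          rw [abs_lt]
          constructor <;> linarith
        have h6 : u j m * a k m = u k m * a j m := by
          have : ((u j m * a k m : ℕ) : ℤ) = ((u k m * a j m : ℕ) : ℤ) := by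
            push_cast
            linarith
          exact_mod_cast this
        have h7 : u j m = u k m := by
          apply Nat.dvd_antisymm
          · have : u j m ∣ u k m * a j m := ⟨a k m, h6.symm⟩
            exact a4.dvd_of_dvd_mul_right this
          · have : u k m ∣ u j m * a k m := ⟨a j m, h6⟩
            exact b4.dvd_of_dvd_mul_right this
        rw [h7] at h6
        have h8 := Nat.eq_of_mul_eq_mul_left (by omega) h6
        rcases h2 with h2 | h2
        · exact h2 h7
        · exact h2 h8.symm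
      have hk := hcast p hp hpK k
      rw [← hST] at hk
      have key := gg_same (S j) (u j) (a j) (u k) (a k) (hcast p hp hpK j) hk hm hm' hmm hD r s
        hr0 hs0
      have e : (univ.filter (fun A : Fin d → ZMod p => gg (S j) (u j) (a j) (ZMod p) A = r ∧
          gg (S k) (u k) (a k) (ZMod p) A = s)) = (univ.filter (fun A : Fin d → ZMod p =>
          gg (S j) (u j) (a j) (ZMod p) A = r ∧ gg (S j) (u k) (a k) (ZMod p) A = s)) := by
        ext A
        simp only [mem_filter, mem_univ, true_and, hST]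
      rw [e]
      exact key.trans h2V
    · by_cases hsub : S k ⊆ S j
      · obtain ⟨m', hm', hn⟩ : ∃ m' ∈ S j, m' ∉ S k := by
          by_contra hcon
          push Not at hcon
          exact hST (Subset.antisymm hcon hsub)
        obtain ⟨m, hm⟩ := hS k
        have key := gg_two (S k) (S j) (u k) (a k) (u j) (a j) (hcast p hp hpK k)
          (hcast p hp hpK j) hm hm' hn s r hs0 hr0
        have e : (univ.filter (fun A : Fin d → ZMod p => gg (S j) (u j) (a j) (ZMod p) A = r ∧
            gg (S k) (u k) (a k) (ZMod p) A = s)) = (univ.filter (fun A : Fin d → ZMod p =>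
            gg (S k) (u k) (a k) (ZMod p) A = s ∧ gg (S j) (u j) (a j) (ZMod p) A = r)) := by
          ext A
          simp only [mem_filter, mem_univ, true_and]
          exact and_comm
        rw [e]
        exact key.trans h1V
      · obtain ⟨m', hm', hn⟩ : ∃ m' ∈ S k, m' ∉ S j := by
          by_contra hcon
          push Not at hcon
          exact hsub hcon
        obtain ⟨m, hm⟩ := hS j
        have key := gg_two (S j) (S k) (u j) (a j) (u k) (a k) (hcast p hp hpK j)
          (hcast p hp hpK k) hm hm' hn r s hr0 hs0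
        exact key.trans h1V

end Pool.Agent.X145.ML
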